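import Pool.Agent.Lib_MP_008adc_li.LFin
import Pool.Agent.Lib_MP_008adc_co.SumR
import Pool.Agent.Lib_MP_008adc_co.Pads

/-!
# Long intervals near sums of boundedly many powers of two: final assembly (piece P5)
-/

set_option autoImplicit false

namespace HadCalc

/-- the numerical estimate of the exponent. -/
theorem li_num3 {D r L K : ℝ} (hD : 32 ≤ D) (hr : 0 ≤ r) (hrr : r ≤ r ^ 2) (hL : 0 < L) (hK : 1 ≤ K)
    (h1 : 2 * D * r ^ 2 ≤ K * L) : 3 / 4 * D * (2 * (L + r)) * r ^ 2 / L ^ 2 ≤ K ^ 2 := by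
  rw [div_le_iff₀ (by positivity)]
  have h2 : r ≤ K * L := by
    have h3 : 1 * r ^ 2 ≤ 2 * D * r ^ 2 := mul_le_mul_of_nonneg_right (by linarith) (sq_nonneg r)
    linarith
  have h64 : 64 * r ≤ K * L := by
    have h3 : 64 * r ^ 2 ≤ 2 * D * r ^ 2 := mul_le_mul_of_nonneg_right (by linarith) (sq_nonneg r)
    linarith
  have h5 : 3 / 4 * D * (2 * (L + r)) * r ^ 2 = 3 / 4 * (2 * D * r ^ 2) * (L + r) := by ring
  rw [h5]
  have hKL : 0 < K * L := by positivity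
  have h4 : 0 ≤ 2 * D * r ^ 2 := by positivity
  have h6 : 3 / 4 * (2 * D * r ^ 2) * (L + r) ≤ 3 / 4 * (K * L) * (L + K * L / 64) := by
    apply mul_le_mul
    · linarith
    · linarith
    · linarith
    · positivity
  refine h6.trans ?_
  have h7 : 3 / 4 * (K * L) * (L + K * L / 64) = (3 / 4 * K + 3 / 256 * K ^ 2) * L ^ 2 := by ring
  rw [h7]
  apply mul_le_mul_of_nonneg_right _ (by positivity)
  nlinarith

theorem li_av
    (hT3 : ∀ f c L r : ℕ, 0 < L → Av f c L →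
      Real.exp (-(3 / 4 * 2 ^ (c + 3 * f + 5) * ((2 * (L + r) : ℕ) : ℝ) * (r : ℝ) ^ 2 /
        (L : ℝ) ^ 2)) ≤ rDet (2 ^ (c + 3 * f + 5) * (2 * (L + r))))
    {f c L K n : ℕ} (hL : 0 < L) (hA : Av f c L) (hK : 0 < K)
    (hn : 2 * 2 ^ (c + 3 * f + 5) * L ≤ n)
    (hd : (n - 2 * 2 ^ (c + 3 * f + 5) * L) ^ 2 ≤ K * (2 * 2 ^ (c + 3 * f + 5) * L)) :
    (1 / 5 : ℝ) ^ (K ^ 2 + 2 * 2 ^ (c + 3 * f + 5)) ≤ rDet n := by
  have hG1 := hT3 f c L
  obtain ⟨D, hD⟩ : ∃ D, D = 2 ^ (c + 3 * f + 5) := ⟨_, rfl⟩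
  have hDR : ((2 : ℝ) ^ (c + 3 * f + 5)) = (D : ℝ) := by
    rw [hD]
    push_cast
    rfl
  rw [hDR, ← hD] at hG1
  have hD32 : 32 ≤ D := by
    rw [hD]
    calc 32 = 2 ^ 5 := by norm_num
      _ ≤ 2 ^ (c + 3 * f + 5) := Nat.pow_le_pow_right (by norm_num) (by omega)
  rw [← hD] at hn hd ⊢
  have h5 : (0 : ℝ) ≤ 1 / 5 := by norm_num
  have h51 : (1 / 5 : ℝ) ≤ 1 := by norm_num
  obtain ⟨d, hdn⟩ : ∃ d, n = 2 * D * L + d := ⟨n - 2 * D * L, by omega⟩
  have hd' : d ^ 2 ≤ K * (2 * D * L) := by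
    have : n - 2 * D * L = d := by omega
    rwa [this] at hd
  obtain ⟨r, hr⟩ : ∃ r, r = d / (2 * D) := ⟨_, rfl⟩
  obtain ⟨ρ, hρ⟩ : ∃ ρ, ρ = d % (2 * D) := ⟨_, rfl⟩
  have hdr : 2 * D * r + ρ = d := by
    rw [hr, hρ]
    exact Nat.div_add_mod d (2 * D)
  have hρlt : ρ < 2 * D := by
    rw [hρ]
    exact Nat.mod_lt _ (by omega)
  have hnq : n = D * (2 * (L + r)) + ρ := by
    rw [hdn, ← hdr]
    ring
  have h1 : 2 * D * r ^ 2 ≤ K * L := by
    have h2 : (2 * D * r) ^ 2 ≤ d ^ 2 := Nat.pow_le_pow_left (by omega) 2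
    have h3 : 2 * D * (2 * D * r ^ 2) ≤ 2 * D * (K * L) := by
      calc 2 * D * (2 * D * r ^ 2) = (2 * D * r) ^ 2 := by ring
        _ ≤ d ^ 2 := h2
        _ ≤ K * (2 * D * L) := hd'
        _ = 2 * D * (K * L) := by ring
    exact Nat.le_of_mul_le_mul_left h3 (by omega)
  have h1R : 2 * (D : ℝ) * (r : ℝ) ^ 2 ≤ K * (L : ℝ) := by exact_mod_cast h1
  have hrr : (r : ℝ) ≤ (r : ℝ) ^ 2 := by
    have : r ≤ r ^ 2 := by
      rcases Nat.eq_zero_or_pos r with h0 | h0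
      · rw [h0]
        norm_num
      · nlinarith
    exact_mod_cast this
  have hDR32 : (32 : ℝ) ≤ D := by exact_mod_cast hD32
  have hKR : (1 : ℝ) ≤ K := by exact_mod_cast hK
  have hLR : (0 : ℝ) < L := by exact_mod_cast hL
  have hnum := li_num3 (D := (D : ℝ)) (r := (r : ℝ)) (L := (L : ℝ)) (K := (K : ℝ)) hDR32
    (Nat.cast_nonneg _) hrr hLR hKR h1R
  have hG2 := hG1 r hL hA
  have hcast : ((2 * (L + r) : ℕ) : ℝ) = 2 * ((L : ℝ) + r) := by push_cast; rfl
  rw [hcast] at hG2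
  have hG3 : Real.exp (-(K : ℝ) ^ 2) ≤ rDet (D * (2 * (L + r))) := by
    refine le_trans ?_ hG2
    exact Real.exp_le_exp.2 (neg_le_neg hnum)
  have hG4 : (1 / 5 : ℝ) ^ (K ^ 2) ≤ Real.exp (-(K : ℝ) ^ 2) := by
    have h6 : (1 / 5 : ℝ) ≤ Real.exp (-1) := by
      rw [Real.exp_neg, ← one_div]
      apply one_div_le_one_div_of_le (Real.exp_pos _)
      have := Real.exp_one_lt_d9
      linarith
    have h7 := pow_le_pow_left₀ h5 h6 (K ^ 2)
    refine h7.trans (le_of_eq ?_)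
    rw [← Real.exp_nat_mul]
    congr 1
    push_cast
    ring
  have hG5 := HadLI.rDet_add_ge (a := D * (2 * (L + r))) (by positivity) ρ
  rw [← hnq] at hG5
  refine le_trans ?_ hG5
  have h8 : (1 / 5 : ℝ) ^ (K ^ 2) * (1 / 5 : ℝ) ^ ρ ≤ rDet (D * (2 * (L + r))) * (1 / 5 : ℝ) ^ ρ :=
    mul_le_mul_of_nonneg_right (hG4.trans hG3) (by positivity)
  refine le_trans ?_ h8
  rw [← pow_add]
  exact pow_le_pow_of_le_one h5 h51 (by omega)

theorem sum_filter_split (l : List ℕ) (s : ℕ) :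
    (l.map (fun e => 2 ^ e)).sum = ((l.filter (fun e => s ≤ e)).map (fun e => 2 ^ e)).sum +
      ((l.filter (fun e => ¬ s ≤ e)).map (fun e => 2 ^ e)).sum := by
  induction l with
  | nil => simp
  | cons a l ih =>
    by_cases h : s ≤ a
    · simp only [List.map_cons, List.sum_cons, ih, List.filter_cons, h, decide_true, if_true,
        not_true, decide_false, Bool.false_eq_true, if_false]
      ring
    · simp only [List.map_cons, List.sum_cons, ih, List.filter_cons, h, decide_true, if_true,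
        not_false_iff, decide_false, Bool.false_eq_true, if_false]
      ring

theorem sum_low_le (l : List ℕ) (s : ℕ) :
    ((l.filter (fun e => ¬ s ≤ e)).map (fun e => 2 ^ e)).sum ≤ l.length * 2 ^ s := by
  induction l with
  | nil => simp
  | cons a l ih =>
    by_cases h : s ≤ a
    · simp only [List.filter_cons, h, not_true, decide_false, Bool.false_eq_true, if_false,
        List.length_cons]
      refine ih.trans (Nat.mul_le_mul_right _ (Nat.le_succ _))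
    · simp only [List.filter_cons, h, not_false_iff, decide_true, if_true, List.map_cons,
        List.sum_cons, List.length_cons]
      have h1 : 2 ^ a ≤ 2 ^ s := Nat.pow_le_pow_right (by norm_num) (by omega)
      have h2 : (l.length + 1) * 2 ^ s = l.length * 2 ^ s + 2 ^ s := by ring
      rw [h2]
      omega

theorem sum_high (l : List ℕ) (s : ℕ) (hl : ∀ e ∈ l, s ≤ e) :
    (l.map (fun e => 2 ^ e)).sum = 2 ^ s * (l.map (fun e => 2 ^ (e - s))).sum := by
  induction l with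
  | nil => simp
  | cons a l ih =>
    rw [List.map_cons, List.sum_cons, List.map_cons, List.sum_cons,
      ih (fun e he => hl e (List.mem_cons_of_mem _ he)), mul_add]
    congr 1
    have h1 : s ≤ a := hl a List.mem_cons_self
    rw [← pow_add]
    congr 1
    omega

theorem av_high (hG : ∀ e, Av 1 0 (2 ^ e)) (l : List ℕ) :
    Av 2 (3 * l.length) (2 * (l.map (fun e => 2 ^ e)).sum) := by
  have h := Av.sum_list (f := 1) (l.map (fun e => ((0, 2 ^ e) : ℕ × ℕ))) (by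
    intro x hx
    obtain ⟨e, -, rfl⟩ := List.mem_map.1 hx
    exact hG e)
  have h1 : ((l.map (fun e => ((0, 2 ^ e) : ℕ × ℕ))).map (fun x => x.1 + 1 + 2)).sum =
      3 * l.length := by
    induction l with
    | nil => simp
    | cons a l ih =>
      simp only [List.map_cons, List.sum_cons, List.length_cons] at ih ⊢
      rw [ih (Av.sum_list (f := 1) (l.map (fun e => ((0, 2 ^ e) : ℕ × ℕ))) (by
        intro x hx
        obtain ⟨e, -, rfl⟩ := List.mem_map.1 hx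
        exact hG e))]
      ring
  have h2 : ((l.map (fun e => ((0, 2 ^ e) : ℕ × ℕ))).map Prod.snd).sum =
      (l.map (fun e => 2 ^ e)).sum := by
    rw [List.map_map]
    rfl
  rw [h1, h2] at h
  exact h

theorem li_bits
    (hT3 : ∀ f c L r : ℕ, 0 < L → Av f c L →
      Real.exp (-(3 / 4 * 2 ^ (c + 3 * f + 5) * ((2 * (L + r) : ℕ) : ℝ) * (r : ℝ) ^ 2 /
        (L : ℝ) ^ 2)) ≤ rDet (2 ^ (c + 3 * f + 5) * (2 * (L + r))))
    (hG : ∀ e, Av 1 0 (2 ^ e)) (B K : ℕ) :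
    ∃ c : ℝ, 0 < c ∧ ∀ (l : List ℕ) (n : ℕ), l.length ≤ B → l ≠ [] →
      (l.map (2 ^ ·)).sum ≤ n → (n - (l.map (2 ^ ·)).sum) ^ 2 ≤ K * (l.map (2 ^ ·)).sum →
      c ≤ rDet n := by
  obtain ⟨s, hs⟩ : ∃ s, s = 3 * B + 13 := ⟨_, rfl⟩
  obtain ⟨K', hK'⟩ : ∃ K', K' = 2 * B ^ 2 * 2 ^ s + 2 * K * (1 + B) + 1 := ⟨_, rfl⟩
  obtain ⟨M, hM⟩ : ∃ M, M = (K + 1) * (B * 2 ^ s) + (K' ^ 2 + 2 * 2 ^ (3 * B + 3 * 2 + 5)) :=
    ⟨_, rfl⟩
  have h5 : (0 : ℝ) ≤ 1 / 5 := by norm_num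
  have h51 : (1 / 5 : ℝ) ≤ 1 := by norm_num
  refine ⟨(1 / 5 : ℝ) ^ M, by positivity, fun l n hlB hl0 hn hd => ?_⟩
  obtain ⟨N, hN⟩ : ∃ N, N = (l.map (fun e => 2 ^ e)).sum := ⟨_, rfl⟩
  have hn' : N ≤ n := by rw [hN]; exact hn
  have hd' : (n - N) ^ 2 ≤ K * N := by rw [hN]; exact hd
  obtain ⟨d, hdn⟩ : ∃ d, n = N + d := ⟨n - N, by omega⟩
  have hd2 : d ^ 2 ≤ K * N := by
    have : n - N = d := by omega
    rwa [this] at hd'
  obtain ⟨lo, hlo⟩ : ∃ lo, lo = ((l.filter (fun e => ¬ s ≤ e)).map (fun e => 2 ^ e)).sum := ⟨_, rfl⟩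
  obtain ⟨hi, hhi⟩ : ∃ hi, hi = l.filter (fun e => s ≤ e) := ⟨_, rfl⟩
  have hNs : N = (hi.map (fun e => 2 ^ e)).sum + lo := by
    rw [hN, hhi, hlo]
    exact sum_filter_split l s
  have hlole : lo ≤ B * 2 ^ s := by
    rw [hlo]
    exact (sum_low_le l s).trans (Nat.mul_le_mul_right _ hlB)
  have hhis : ∀ e ∈ hi, s ≤ e := by
    intro e he
    rw [hhi, List.mem_filter] at he
    simpa using he.2
  rw [sum_high hi s hhis] at hNs
  obtain ⟨S, hS⟩ : ∃ S, S = (hi.map (fun e => 2 ^ (e - s))).sum := ⟨_, rfl⟩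
  rw [← hS] at hNs
  have hlen : hi.length ≤ B := by
    rw [hhi]
    exact (List.length_filter_le _ _).trans hlB
  rcases Nat.eq_zero_or_pos S with hS0 | hS0
  · -- no high part
    rw [hS0, mul_zero, zero_add] at hNs
    have hNpos : 0 < N := by
      rw [hN]
      cases l with
      | nil => exact absurd rfl hl0
      | cons a l =>
        rw [List.map_cons, List.sum_cons]
        have : 0 < 2 ^ a := by positivity
        omega
    have h2 : d ≤ K * N := by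
      rcases Nat.eq_zero_or_pos d with h0 | h0
      · rw [h0]
        exact Nat.zero_le _
      · nlinarith
    have h3 : (K + 1) * N ≤ (K + 1) * (B * 2 ^ s) := Nat.mul_le_mul_left _ (by omega)
    have h4 : (K + 1) * N = K * N + N := by ring
    have h6 : (1 / 5 : ℝ) ^ (n - 1) ≤ rDet n := rDet_lower5 Nat.one_pos (by omega) hadOrder_one
    exact (pow_le_pow_of_le_one h5 h51 (by omega)).trans h6
  · -- the high part is not empty
    have hA : Av 2 (3 * B) (2 * S) := by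
      have h := av_high hG (hi.map (fun e => e - s))
      rw [List.length_map, List.map_map] at h
      have h1 : (hi.map ((fun e => 2 ^ e) ∘ (fun e => e - s))).sum = S := by
        rw [hS]
        rfl
      rw [h1] at h
      exact h.mono le_rfl (Nat.mul_le_mul_left _ hlen)
    have hD : 2 * 2 ^ (3 * B + 3 * 2 + 5) * (2 * S) = 2 ^ s * S := by
      rw [hs, pow_add, pow_add, pow_add]
      ring
    have ha : 2 ^ s ≤ 2 ^ s * S := Nat.le_mul_of_pos_right _ hS0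
    have hcond : (n - 2 * 2 ^ (3 * B + 3 * 2 + 5) * (2 * S)) ^ 2 ≤
        K' * (2 * 2 ^ (3 * B + 3 * 2 + 5) * (2 * S)) := by
      rw [hD]
      obtain ⟨a, haa⟩ : ∃ a, a = 2 ^ s * S := ⟨_, rfl⟩
      rw [← haa] at ha hNs ⊢
      have e1 : n - a = lo + d := by omega
      rw [e1]
      have e2 : (lo + d) ^ 2 ≤ 2 * lo ^ 2 + 2 * d ^ 2 := by
        zify
        nlinarith [sq_nonneg ((lo : ℤ) - d)]
      have e3 : lo ^ 2 ≤ (B * 2 ^ s) ^ 2 := Nat.pow_le_pow_left hlole 2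
      have e4 : (B * 2 ^ s) ^ 2 ≤ B ^ 2 * 2 ^ s * a := by
        calc (B * 2 ^ s) ^ 2 = B ^ 2 * 2 ^ s * 2 ^ s := by ring
          _ ≤ B ^ 2 * 2 ^ s * a := Nat.mul_le_mul_left _ ha
      have e5 : K * N ≤ K * (1 + B) * a := by
        rw [hNs]
        have e6 : B * 2 ^ s ≤ B * a := Nat.mul_le_mul_left _ ha
        calc K * (a + lo) ≤ K * (a + B * a) := Nat.mul_le_mul_left _ (by omega)
          _ = K * (1 + B) * a := by ring
      have e7 : K' * a = 2 * (B ^ 2 * 2 ^ s * a) + 2 * (K * (1 + B) * a) + a := by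
        rw [hK']
        ring
      omega
    have h := li_av hT3 (f := 2) (c := 3 * B) (L := 2 * S) (K := K') (n := n) (by omega) hA
      (by omega) (by rw [hD]; omega) hcond
    exact (pow_le_pow_of_le_one h5 h51 (by omega)).trans h

end HadCalc
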