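import Pool.Agent.Lib_MP_008adc_li.GAdd
import Pool.Agent.Lib_MP_008adc_co.Pads

/-!
# The garbage structure, and structures of length `2 (L + r)`
-/

set_option autoImplicit false
set_option synthInstance.maxHeartbeats 400000
set_option synthInstance.maxSize 1000

namespace HadCalc

open Matrix
open scoped Kronecker

theorem vpol_eq {N : ℕ} [NeZero N] (v : ZMod N → ℝ) (z : ℂ) :
    vpol v z = ∑ n ∈ Finset.range N, ((v (n : ZMod N) : ℝ) : ℂ) * z ^ n := by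
  unfold vpol
  obtain _ | N' := N
  · exact absurd rfl (NeZero.ne 0)
  · rw [← Fin.sum_univ_eq_sum_range (fun n => ((v (n : ZMod (N' + 1)) : ℝ) : ℂ) * z ^ n) (N' + 1)]
    refine Finset.sum_congr rfl fun x _ => ?_
    have h1 : ((ZMod.val (n := N' + 1) x : ℕ) : ZMod (N' + 1)) = x := ZMod.natCast_zmod_val (n := N' + 1) x
    change ((v x : ℝ) : ℂ) * z ^ (ZMod.val (n := N' + 1) x) =
      ((v ((ZMod.val (n := N' + 1) x : ℕ) : ZMod (N' + 1)) : ℝ) : ℂ) * z ^ (ZMod.val (n := N' + 1) x)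
    rw [h1]

theorem vpol_norm {N r : ℕ} [NeZero N] (hr : r ≤ N) (v : ZMod N → ℝ)
    (hv0 : ∀ x : ZMod N, x.val < N - r → v x = 0) (z : ℂ) (hz : ‖z‖ = 1) :
    ‖vpol v z‖ = ‖∑ j ∈ Finset.range r, ((v ((N - r + j : ℕ) : ZMod N) : ℝ) : ℂ) * z ^ j‖ := by
  obtain ⟨M, hM⟩ := Nat.exists_eq_add_of_le' hr
  have h1 : N - r = M := by omega
  rw [h1] at hv0 ⊢
  have h2 : vpol v z = z ^ M * ∑ j ∈ Finset.range r, ((v ((M + j : ℕ) : ZMod N) : ℝ) : ℂ) * z ^ j := by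
    rw [vpol_eq]
    have h3 : Finset.range N = Finset.range (M + r) := by rw [hM]
    rw [h3, Finset.sum_range_add, Finset.sum_eq_zero, zero_add, Finset.mul_sum]
    · refine Finset.sum_congr rfl fun j _ => ?_
      rw [pow_add]
      ring
    · intro n hn
      have h4 := Finset.mem_range.1 hn
      rw [hv0 (n : ZMod N) (by rw [ZMod.val_natCast_of_lt (by omega)]; exact h4)]
      simp
  rw [h2, norm_mul, norm_pow, hz, one_pow, one_mul]

/-- The garbage structure. -/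
theorem garb_struct (f : ℕ) {N r : ℕ} [NeZero N] (hr : r ≤ N) (v : ZMod N → ℝ)
    (hv0 : ∀ x : ZMod N, x.val < N - r → v x = 0)
    (hv1 : ∀ x : ZMod N, N - r ≤ x.val → v x = 1 ∨ v x = -1) :
    ∃ Q : ℕ → Matrix (Ix f 0) (Ix f 0) ℤ, WGood (Prod.fst : Ix f 0 → ZMod (2 ^ f)) r Q
      (fun z => ((2 ^ f * ‖vpol v z‖ ^ 2 : ℝ) : ℂ)) := by
  obtain ⟨Q0, hQ0⟩ := Av.base.mono (Nat.zero_le f) le_rfl
  obtain ⟨W, hW⟩ : ∃ W, W = Q0 0 := ⟨_, rfl⟩
  have hev1 : ∀ z : ℂ, ev 1 Q0 z = toC W := by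
    intro z
    unfold ev
    rw [Finset.sum_range_one, pow_zero, one_smul, hW]
  have hWW : toC W * (toC W)ᴴ = ((2 ^ f : ℕ) : ℂ) • (1 : Matrix (Ix f 0) (Ix f 0) ℂ) := by
    have h1 := hQ0.norm 1 (by simp)
    rw [hev1, mul_one] at h1
    exact h1
  have hWW' : (toC W)ᴴ * toC W = ((2 ^ f : ℕ) : ℂ) • (1 : Matrix (Ix f 0) (Ix f 0) ℂ) := by
    have h1 := hQ0.norm_comm 1 (by simp)
    rw [hev1, mul_one] at h1
    exact h1
  have hfull : Full (Prod.fst : Ix f 0 → ZMod (2 ^ f)) W := by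
    rw [hW]
    exact hQ0.full 0 (by norm_num)
  classical
  let u : ℕ → ℤ := fun j => if v ((N - r + j : ℕ) : ZMod N) = 1 then 1 else -1
  have hu : ∀ j < r, ((u j : ℤ) : ℂ) = ((v ((N - r + j : ℕ) : ZMod N) : ℝ) : ℂ) := by
    intro j hj
    have h1 := hv1 ((N - r + j : ℕ) : ZMod N) (by
      rw [ZMod.val_natCast_of_lt (by omega)]
      omega)
    change (((if v ((N - r + j : ℕ) : ZMod N) = 1 then 1 else -1 : ℤ)) : ℂ) = _
    rcases h1 with h1 | h1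
    · rw [if_pos h1, h1]
      simp
    · have h2 : ¬ v ((N - r + j : ℕ) : ZMod N) = 1 := by
        rw [h1]
        norm_num
      rw [if_neg h2, h1]
      simp
  have hev : ∀ z : ℂ, ev r (fun j => u j • W) z =
      (∑ j ∈ Finset.range r, ((v ((N - r + j : ℕ) : ZMod N) : ℝ) : ℂ) * z ^ j) • toC W := by
    intro z
    unfold ev
    rw [Finset.sum_smul]
    refine Finset.sum_congr rfl fun j hj => ?_
    rw [← hu j (Finset.mem_range.1 hj)]
    ext a b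
    simp only [toC, Matrix.smul_apply, Matrix.map_apply, smul_eq_mul]
    push_cast
    ring
  have hsq : ∀ z : ℂ, ‖z‖ = 1 →
      (∑ j ∈ Finset.range r, ((v ((N - r + j : ℕ) : ZMod N) : ℝ) : ℂ) * z ^ j) *
        star (∑ j ∈ Finset.range r, ((v ((N - r + j : ℕ) : ZMod N) : ℝ) : ℂ) * z ^ j) =
      ((‖vpol v z‖ ^ 2 : ℝ) : ℂ) := by
    intro z hz
    rw [vpol_norm hr v hv0 z hz, Complex.star_def, Complex.mul_conj, Complex.normSq_eq_norm_sq]
  refine ⟨fun j => u j • W, ⟨fun j _ => ?_, fun z hz => ?_, fun z hz => ?_⟩⟩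
  · change Full (Prod.fst : Ix f 0 → ZMod (2 ^ f)) ((if v ((N - r + j : ℕ) : ZMod N) = 1 then 1 else -1 : ℤ) • W)
    split_ifs
    · rw [one_smul]
      exact hfull
    · rw [neg_one_smul]
      exact hfull.neg
  · rw [hev, conjTranspose_smul, smul_mul_smul_comm, hWW, hsq z hz, smul_smul]
    congr 1
    push_cast
    ring
  · rw [hev, conjTranspose_smul, smul_mul_smul_comm, hWW', mul_comm (star _), hsq z hz, smul_smul]
    congr 1
    push_cast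
    ring

/-- A structure of length `L` and a garbage sequence of length `r` give a weighted structure of
length `2 (L + r)`. -/
theorem WAv.of_av {f c L r : ℕ} [NeZero (2 * (L + r))] (hL : 0 < L) (hA : Av f c L)
    (v : ZMod (2 * (L + r)) → ℝ)
    (hv0 : ∀ x : ZMod (2 * (L + r)), x.val < 2 * (L + r) - r → v x = 0)
    (hv1 : ∀ x : ZMod (2 * (L + r)), 2 * (L + r) - r ≤ x.val → v x = 1 ∨ v x = -1) :
    WAv (f + 1) (c + 2 * f + 4) L r v := by
  obtain ⟨Q, hQ⟩ := hA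
  obtain ⟨P, hP⟩ := garb_struct f (by omega : r ≤ 2 * (L + r)) v hv0 hv1
  have h1 := ((WPair.zero (Prod.fst : Ix f 0 → ZMod (2 ^ f))).add hQ.toW).add hP
  rw [zero_add] at h1
  have hg : ∀ z : ℂ, (0 : ℂ) + 4 * ((2 ^ f * L : ℕ) : ℂ) + 4 * ((2 ^ f * ‖vpol v z‖ ^ 2 : ℝ) : ℂ) =
      ((2 * 2 ^ (f + 1) * ((L : ℝ) + ‖vpol v z‖ ^ 2) : ℝ) : ℂ) := by
    intro z
    push_cast
    ring
  have h2 := h1.fin (fun z hz => by
    change (0 : ℂ) + 4 * ((2 ^ f * L : ℕ) : ℂ) + 4 * ((2 ^ f * ‖vpol v z‖ ^ 2 : ℝ) : ℂ) ≠ 0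
    rw [hg z]
    have hLR : (0 : ℝ) < L := by exact_mod_cast hL
    have h3 : (2 * 2 ^ (f + 1) * ((L : ℝ) + ‖vpol v z‖ ^ 2) : ℝ) ≠ 0 := by positivity
    exact_mod_cast h3)
  have hκ : Fintype.card (ZMod (2 ^ f) × Fin 2) = 2 ^ (f + 1) := by
    rw [Fintype.card_prod, ZMod.card, Fintype.card_fin, pow_succ]
  have hι : Fintype.card (((((Ix f 0 × Ix f c) × (Fin 2 × Fin 2)) × Ix f 0) × (Fin 2 × Fin 2)) × Fin 2) =
      2 ^ (f + 1 + (c + 2 * f + 4)) := by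
    simp only [Fintype.card_prod, ZMod.card, Fintype.card_fin]
    ring
  obtain ⟨e, g, heg⟩ := exists_canonical hκ hι (h2.full 0 (by omega))
  have h4 := h2.reindex e g heg
  have hfun : (fun z : ℂ => (0 : ℂ) + 4 * ((2 ^ f * L : ℕ) : ℂ) +
      4 * ((2 ^ f * ‖vpol v z‖ ^ 2 : ℝ) : ℂ)) =
      fun z : ℂ => ((2 * 2 ^ (f + 1) * ((L : ℝ) + ‖vpol v z‖ ^ 2) : ℝ) : ℂ) := funext hg
  rw [hfun] at h4
  exact ⟨_, h4⟩

end HadCalc
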