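import Pool.Agent.Lib_MP_008adc_co.Pads

/-!
# Golay structures of length `2 ^ e`
-/

set_option autoImplicit false

namespace HadCalc

open Matrix

/-- first column of `A` times `(1, 1)` -/
def gE1 : Matrix (Fin 2) (Fin 2) ℤ := !![1, 1; 0, 0]

/-- second column of `A` times `(1, -1)` -/
def gE2 : Matrix (Fin 2) (Fin 2) ℤ := !![0, 0; 1, -1]

/-- the Golay structure -/
def golQ : ℕ → ℕ → Matrix (Fin 2) (Fin 2) ℤ
  | 0 => fun _ => hh
  | e + 1 => fun j => if j < 2 ^ e then golQ e j * gE1 else golQ e (j - 2 ^ e) * gE2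

theorem golQ_pm (e : ℕ) : ∀ j i k, golQ e j i k = 1 ∨ golQ e j i k = -1 := by
  induction e with
  | zero =>
    intro j i k
    change hh i k = 1 ∨ hh i k = -1
    fin_cases i <;> fin_cases k <;> decide
  | succ e ih =>
    intro j i k
    change (if j < 2 ^ e then golQ e j * gE1 else golQ e (j - 2 ^ e) * gE2) i k = 1 ∨
      (if j < 2 ^ e then golQ e j * gE1 else golQ e (j - 2 ^ e) * gE2) i k = -1
    split_ifs
    · have h1 : (golQ e j * gE1) i k = golQ e j i 0 := by
        rw [Matrix.mul_apply, Fin.sum_univ_two]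
        fin_cases k <;> simp [gE1]
      rw [h1]
      exact ih j i 0
    · have h1 : (golQ e (j - 2 ^ e) * gE2) i k = golQ e (j - 2 ^ e) i 1 * (if k = 0 then 1 else -1) := by
        rw [Matrix.mul_apply, Fin.sum_univ_two]
        fin_cases k <;> simp [gE2]
      rw [h1]
      rcases ih (j - 2 ^ e) i 1 with h | h <;> rw [h] <;> split_ifs <;> norm_num

theorem golQ_full (e j : ℕ) : Full (fun b : Fin 2 => b) (golQ e j) := by
  have h := golQ_pm e j
  have h0 : ∀ i k, golQ e j i k ≠ 0 := by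
    intro i k
    rcases h i k with h | h <;> rw [h] <;> norm_num
  refine ⟨fun i k => Or.inr (h i k), fun i c => ⟨c, ⟨rfl, h0 i c⟩, fun y hy => hy.1⟩,
    fun k c => ⟨c, ⟨rfl, h0 c k⟩, fun y hy => hy.1⟩⟩

theorem golQ_ev (e : ℕ) (z : ℂ) : ev (2 ^ (e + 1)) (golQ (e + 1)) z =
    ev (2 ^ e) (golQ e) z * (toC gE1 + z ^ (2 ^ e) • toC gE2) := by
  have h1 : 2 ^ (e + 1) = 2 ^ e + 2 ^ e := by rw [pow_succ]; ring
  unfold ev
  rw [h1, Finset.sum_range_add, Matrix.mul_add, Matrix.mul_smul, Finset.sum_mul, Finset.sum_mul,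
    Finset.smul_sum]
  congr 1
  · refine Finset.sum_congr rfl fun j hj => ?_
    have h2 : golQ (e + 1) j = golQ e j * gE1 := by
      change (if j < 2 ^ e then golQ e j * gE1 else golQ e (j - 2 ^ e) * gE2) = _
      rw [if_pos (Finset.mem_range.1 hj)]
    rw [h2, toC_mul, Matrix.smul_mul]
  · refine Finset.sum_congr rfl fun j hj => ?_
    have h2 : golQ (e + 1) (2 ^ e + j) = golQ e j * gE2 := by
      change (if 2 ^ e + j < 2 ^ e then golQ e (2 ^ e + j) * gE1 else golQ e (2 ^ e + j - 2 ^ e) * gE2) = _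
      rw [if_neg (by omega), Nat.add_sub_cancel_left]
    rw [h2, toC_mul, Matrix.smul_mul, smul_smul, pow_add]

theorem gE_mul (w : ℂ) (hw : ‖w‖ = 1) :
    (toC gE1 + w • toC gE2) * (toC gE1 + w • toC gE2)ᴴ = (2 : ℂ) • (1 : Matrix (Fin 2) (Fin 2) ℂ) := by
  have hww : w * star w = 1 := by
    rw [Complex.star_def, Complex.mul_conj, Complex.normSq_eq_norm_sq, hw]
    simp
  have hww' : w * (starRingEnd ℂ) w = 1 := hww
  ext i k
  rw [Matrix.mul_apply, Fin.sum_univ_two]
  fin_cases i <;> fin_cases k <;>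
    simp [gE1, gE2, toC, Matrix.conjTranspose_apply] <;>
    first
    | linear_combination 2 * hww'
    | ring

theorem golQ_norm (e : ℕ) (z : ℂ) (hz : ‖z‖ = 1) :
    ev (2 ^ e) (golQ e) z * (ev (2 ^ e) (golQ e) z)ᴴ =
      ((2 * 2 ^ e : ℕ) : ℂ) • (1 : Matrix (Fin 2) (Fin 2) ℂ) := by
  induction e with
  | zero =>
    have h1 : ev (2 ^ 0) (golQ 0) z = toC hh := by
      unfold ev
      rw [pow_zero, Finset.sum_range_one, pow_zero, one_smul]
      rfl
    rw [h1, pads_hh]
    norm_num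
  | succ e ih =>
    rw [golQ_ev, Matrix.conjTranspose_mul, Matrix.mul_assoc, ← Matrix.mul_assoc (_ + _),
      gE_mul _ (by rw [norm_pow, hz, one_pow]), Matrix.smul_mul, Matrix.one_mul, Matrix.mul_smul, ih,
      smul_smul]
    congr 1
    push_cast
    ring

theorem av_two_pow (e : ℕ) : Av 1 0 (2 ^ e) :=
  Av.of_good (κ := Fin 2) (ι := Fin 2) (by simp) (by simp) (cls := fun b => b) (Q := golQ e)
    ⟨fun j _ => golQ_full e j, fun z hz => golQ_norm e z hz⟩

end HadCalc
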