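import Mathlib

/-!
# `det (1 + X) ≥ exp (tr X - tr X² / 2)` for positive semidefinite `X`
-/

set_option autoImplicit false

namespace Pool.Agent.MaxDetLI

open Matrix

theorem log_one_add_ge {x : ℝ} (hx : 0 ≤ x) : x - x ^ 2 / 2 ≤ Real.log (1 + x) := by
  have h1 : MonotoneOn (fun y : ℝ => Real.log (1 + y) - (y - y ^ 2 / 2)) (Set.Ici 0) := by
    apply monotoneOn_of_deriv_nonneg (convex_Ici 0)
    · apply ContinuousOn.sub
      · apply ContinuousOn.log
        · fun_prop
        · intro y hy
          have : (0 : ℝ) ≤ y := hy
          positivity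
      · fun_prop
    · intro y hy
      rw [interior_Ici] at hy
      have hy' : (0 : ℝ) < y := hy
      apply DifferentiableAt.differentiableWithinAt
      apply DifferentiableAt.sub
      · apply DifferentiableAt.log
        · fun_prop
        · positivity
      · fun_prop
    · intro y hy
      rw [interior_Ici] at hy
      have hy' : (0 : ℝ) < y := hy
      have hd : HasDerivAt (fun y : ℝ => Real.log (1 + y) - (y - y ^ 2 / 2))
          (1 / (1 + y) - (1 - y)) y := by
        have e1 : HasDerivAt (fun y : ℝ => 1 + y) 1 y := by
          simpa using (hasDerivAt_id y).const_add 1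
        have e2 := e1.log (by positivity)
        have e3 : HasDerivAt (fun y : ℝ => y - y ^ 2 / 2) (1 - y) y := by
          have h := (hasDerivAt_id' y).fun_sub ((hasDerivAt_pow 2 y).div_const 2)
          have e : 1 - y = 1 - ((2 : ℕ) : ℝ) * y ^ (2 - 1) / 2 := by norm_num
          rw [e]
          exact h
        exact e2.sub e3
      rw [hd.deriv]
      have : 1 / (1 + y) - (1 - y) = y ^ 2 / (1 + y) := by
        field_simp
        ring
      rw [this]
      positivity
  have h2 := h1 (Set.mem_Ici.2 le_rfl) (Set.mem_Ici.2 hx) hx
  simp only at h2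
  norm_num at h2
  linarith

theorem det_one_add_ge {n : Type*} [Fintype n] [DecidableEq n] (X : Matrix n n ℝ)
    (hX : X.PosSemidef) : Real.exp (X.trace - (X * X).trace / 2) ≤ (1 + X).det := by
  classical
  have hH := hX.isHermitian
  set U : Matrix n n ℝ := (hH.eigenvectorUnitary : Matrix n n ℝ) with hU
  set ev := hH.eigenvalues with hev
  have hUU : U * star U = 1 := by
    rw [hU]; exact Unitary.coe_mul_star_self _
  have hUU' : star U * U = 1 := by
    rw [hU]; exact Unitary.coe_star_mul_self _
  have hspec : X = U * diagonal ev * star U := by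
    have := hH.spectral_theorem
    simpa using this
  have htr : ∀ D : Matrix n n ℝ, (U * D * star U).trace = D.trace := by
    intro D
    rw [Matrix.trace_mul_comm, ← Matrix.mul_assoc, hUU', Matrix.one_mul]
  have h1 : X.trace = ∑ i, ev i := by
    rw [hspec, htr, Matrix.trace_diagonal]
  have h2 : (X * X).trace = ∑ i, ev i ^ 2 := by
    have : X * X = U * diagonal (fun i => ev i ^ 2) * star U := by
      have e : X * X = U * diagonal ev * (star U * U) * diagonal ev * star U := by
        conv_lhs => rw [hspec]
        simp only [Matrix.mul_assoc]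
      rw [e, hUU', Matrix.mul_one, Matrix.mul_assoc U, Matrix.diagonal_mul_diagonal]
      simp only [pow_two]
    rw [this, htr, Matrix.trace_diagonal]
  have h3 : (1 + X).det = ∏ i, (1 + ev i) := by
    have : 1 + X = U * diagonal (fun i => 1 + ev i) * star U := by
      have e : diagonal (fun i => 1 + ev i) = 1 + diagonal ev := by
        rw [← Matrix.diagonal_one, Matrix.diagonal_add]
      rw [e, Matrix.mul_add, Matrix.add_mul, Matrix.mul_one, hUU, ← hspec]
    rw [this, Matrix.det_mul_right_comm, hUU, Matrix.one_mul, Matrix.det_diagonal]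
  rw [h1, h2, h3, Finset.sum_div, ← Finset.sum_sub_distrib, Real.exp_sum]
  apply Finset.prod_le_prod
  · intro i _; positivity
  · intro i _
    have h0 : 0 ≤ ev i := hX.eigenvalues_nonneg i
    have := log_one_add_ge h0
    calc Real.exp (ev i - ev i ^ 2 / 2) ≤ Real.exp (Real.log (1 + ev i)) := Real.exp_le_exp.2 this
      _ = 1 + ev i := Real.exp_log (by positivity)

end Pool.Agent.MaxDetLI
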