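import Mathlib

/-!
# A short sign sequence with small periodic autocorrelations, by averaging
-/

set_option autoImplicit false

namespace Pool.Agent.MaxDetLI

open Matrix Finset

variable {q : ℕ} [NeZero q]

/-- periodic autocorrelation -/
def pac (v : ZMod q → ℝ) (s : ZMod q) : ℝ := ∑ x, v x * v (x + s)

theorem pac_neg (v : ZMod q → ℝ) (s : ZMod q) : pac v (-s) = pac v s := by
  unfold pac
  rw [← Equiv.sum_comp (Equiv.addRight s)]
  refine Finset.sum_congr rfl fun x _ => ?_
  simp only [Equiv.coe_addRight]
  rw [add_neg_cancel_right, mul_comm]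

theorem circ_mul_transpose (v : ZMod q → ℝ) (i j : ZMod q) :
    (circulant v * (circulant v)ᵀ) i j = pac v (j - i) := by
  unfold pac
  rw [Matrix.mul_apply, ← (Equiv.subLeft i).sum_comp]
  refine Finset.sum_congr rfl fun x _ => ?_
  simp only [Equiv.subLeft_apply, Matrix.transpose_apply, Matrix.circulant_apply]
  congr 2 <;> ring

theorem trace_sq (v : ZMod q → ℝ) :
    ((circulant v * (circulant v)ᵀ) * (circulant v * (circulant v)ᵀ)).trace =
      q * ∑ s, pac v s ^ 2 := by
  unfold Matrix.trace
  have h : ∀ i : ZMod q, ((circulant v * (circulant v)ᵀ) * (circulant v * (circulant v)ᵀ)).diag i =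
      ∑ s, pac v s ^ 2 := by
    intro i
    rw [Matrix.diag_apply, Matrix.mul_apply, ← (Equiv.subRight i).sum_comp (fun s => pac v s ^ 2)]
    refine Finset.sum_congr rfl fun j _ => ?_
    rw [circ_mul_transpose, circ_mul_transpose]
    simp only [Equiv.subRight_apply]
    rw [show i - j = -(j - i) by ring, pac_neg, pow_two]
  rw [Finset.sum_congr rfl fun i _ => h i, Finset.sum_const, Finset.card_univ, ZMod.card,
    nsmul_eq_mul]

/-- the sign of a boolean -/
def sg (b : Bool) : ℝ := if b then 1 else -1

theorem sg_not (b : Bool) : sg (!b) = - sg b := by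
  unfold sg; cases b <;> simp

theorem sg_abs (b : Bool) : |sg b| = 1 := by
  unfold sg; cases b <;> simp

/-- the sequence -/
def sq (q r : ℕ) (f : ZMod q → Bool) (x : ZMod q) : ℝ := if q - r ≤ x.val then sg (f x) else 0

theorem sq_update_ne {r : ℕ} (f : ZMod q → Bool) (y x : ZMod q) (b : Bool) (h : x ≠ y) :
    sq q r (Function.update f y b) x = sq q r f x := by
  unfold sq
  rw [Function.update_of_ne h]

theorem sq_update_self {r : ℕ} (f : ZMod q → Bool) (y : ZMod q) :
    sq q r (Function.update f y (!(f y))) y = - sq q r f y := by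
  unfold sq
  rw [Function.update_self, sg_not]
  split_ifs <;> simp

/-- indicator -/
def ind (q r : ℕ) (x : ZMod q) : ℝ := if q - r ≤ x.val then 1 else 0

theorem ind_nonneg (r : ℕ) (x : ZMod q) : 0 ≤ ind q r x := by
  unfold ind; split_ifs <;> norm_num

theorem ind_le_one (r : ℕ) (x : ZMod q) : ind q r x ≤ 1 := by
  unfold ind; split_ifs <;> norm_num

theorem abs_sq (r : ℕ) (f : ZMod q → Bool) (x : ZMod q) : |sq q r f x| = ind q r x := by
  unfold sq ind
  split_ifs
  · exact sg_abs _
  · simp

theorem sum_ind_le {r : ℕ} (hr : r ≤ q) : ∑ x : ZMod q, ind q r x ≤ r := by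
  unfold ind
  rw [Finset.sum_boole]
  have h : (univ.filter fun x : ZMod q => q - r ≤ x.val).card ≤ (Finset.Ico (q - r) q).card := by
    apply Finset.card_le_card_of_injOn ZMod.val
    · intro x hx
      rw [Finset.mem_coe, Finset.mem_filter] at hx
      rw [Finset.mem_coe, Finset.mem_Ico]
      exact ⟨hx.2, ZMod.val_lt x⟩
    · intro x _ y _ h
      exact ZMod.val_injective q h
  rw [Nat.card_Ico] at h
  have : q - (q - r) = r := by omega
  rw [this] at h
  exact_mod_cast h

theorem sum_quad_le (r : ℕ) (s x y : ZMod q) :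
    ∑ f : ZMod q → Bool, (sq q r f x * sq q r f (x + s)) * (sq q r f y * sq q r f (y + s)) ≤
      (Fintype.card (ZMod q → Bool) : ℝ) *
        ((if s = 0 then ind q r x * ind q r y else 0) +
          ind q r x * ind q r (x + s) * ((if y = x then 1 else 0) + (if y = x + s then 1 else 0))) := by
  have hx := ind_nonneg (q := q) r x
  have hxs := ind_nonneg (q := q) r (x + s)
  have hy := ind_nonneg (q := q) r y
  have hcard : (0 : ℝ) ≤ (Fintype.card (ZMod q → Bool) : ℝ) := by positivity
  have habs : ∀ f : ZMod q → Bool,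
      (sq q r f x * sq q r f (x + s)) * (sq q r f y * sq q r f (y + s)) ≤
        ind q r x * ind q r (x + s) * (ind q r y * ind q r (y + s)) := by
    intro f
    refine (le_abs_self _).trans ?_
    rw [abs_mul, abs_mul, abs_mul, abs_sq, abs_sq, abs_sq, abs_sq]
  have htriv : ∑ f : ZMod q → Bool,
      (sq q r f x * sq q r f (x + s)) * (sq q r f y * sq q r f (y + s)) ≤
      (Fintype.card (ZMod q → Bool) : ℝ) *
        (ind q r x * ind q r (x + s) * (ind q r y * ind q r (y + s))) := by
    refine (Finset.sum_le_sum fun f _ => habs f).trans ?_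
    rw [Finset.sum_const, Finset.card_univ, nsmul_eq_mul]
  have hyy : ind q r y * ind q r (y + s) ≤ 1 :=
    mul_le_one₀ (ind_le_one r y) (ind_nonneg r _) (ind_le_one r _)
  by_cases hs : s = 0
  · refine htriv.trans (mul_le_mul_of_nonneg_left ?_ hcard)
    rw [if_pos hs]
    have h1 : ind q r x * ind q r (x + s) * (ind q r y * ind q r (y + s)) ≤
        ind q r x * ind q r y := by
      have e1 : ind q r x * ind q r (x + s) ≤ ind q r x * 1 :=
        mul_le_mul_of_nonneg_left (ind_le_one r _) hx
      have e2 : ind q r y * ind q r (y + s) ≤ ind q r y * 1 :=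
        mul_le_mul_of_nonneg_left (ind_le_one r _) hy
      rw [mul_one] at e1 e2
      exact mul_le_mul e1 e2 (mul_nonneg hy (ind_nonneg r _)) hx
    have h2 : 0 ≤ ind q r x * ind q r (x + s) * ((if y = x then (1 : ℝ) else 0) +
        (if y = x + s then 1 else 0)) := by
      apply mul_nonneg (mul_nonneg hx hxs)
      split_ifs <;> norm_num
    linarith
  · rw [if_neg hs, zero_add]
    by_cases h1 : y = x ∨ y = x + s
    · refine htriv.trans (mul_le_mul_of_nonneg_left ?_ hcard)
      have h2 : (1 : ℝ) ≤ (if y = x then (1 : ℝ) else 0) + (if y = x + s then 1 else 0) := by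
        rcases h1 with h1 | h1
        · rw [if_pos h1]; split_ifs <;> norm_num
        · rw [if_pos h1]; split_ifs <;> norm_num
      exact mul_le_mul_of_nonneg_left (hyy.trans h2) (mul_nonneg hx hxs)
    · push Not at h1
      rw [if_neg h1.1, if_neg h1.2, add_zero, mul_zero, mul_zero]
      apply le_of_eq
      have hys : y ≠ y + s := by
        intro h
        apply hs
        have : y + s = y + 0 := by rw [add_zero]; exact h.symm
        exact add_left_cancel this
      have e : ∀ f : ZMod q → Bool,
          (sq q r (Function.update f y (!(f y))) x * sq q r (Function.update f y (!(f y))) (x + s)) *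
            (sq q r (Function.update f y (!(f y))) y *
              sq q r (Function.update f y (!(f y))) (y + s)) =
          - ((sq q r f x * sq q r f (x + s)) * (sq q r f y * sq q r f (y + s))) := by
        intro f
        rw [sq_update_ne f y x _ (Ne.symm h1.1), sq_update_ne f y (x + s) _ (Ne.symm h1.2),
          sq_update_self, sq_update_ne f y (y + s) _ (Ne.symm hys)]
        ring
      have hflip : ∀ f : ZMod q → Bool, Function.update (Function.update f y (!(f y))) y
          (!(Function.update f y (!(f y)) y)) = f := by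
        intro f
        rw [Function.update_self, Function.update_idem, Bool.not_not, Function.update_eq_self]
      refine Finset.sum_involution (fun f _ => Function.update f y (!(f y))) ?_ ?_ ?_ ?_
      · intro f _
        rw [e f]; ring
      · intro f _ _ h
        have := congrFun h y
        rw [Function.update_self] at this
        cases hf : f y <;> rw [hf] at this <;> simp at this
      · intro f _; exact Finset.mem_univ _
      · intro f _; exact hflip f

theorem garbage (q r : ℕ) [NeZero q] (hr : r ≤ q) : ∃ c : ZMod q → ℝ,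
    (∀ x, x.val < q - r → c x = 0) ∧ (∀ x, q - r ≤ x.val → c x = 1 ∨ c x = -1) ∧
    ((circulant c * (circulant c)ᵀ) * (circulant c * (circulant c)ᵀ)).trace ≤ 3 * q * r ^ 2 := by
  have hsum : ∑ f : ZMod q → Bool, ∑ s, pac (sq q r f) s ^ 2 ≤
      ∑ _f : ZMod q → Bool, (3 * (r : ℝ) ^ 2) := by
    have h1 : ∀ f : ZMod q → Bool, ∑ s, pac (sq q r f) s ^ 2 =
        ∑ s, ∑ x, ∑ y, (sq q r f x * sq q r f (x + s)) * (sq q r f y * sq q r f (y + s)) := by
      intro f
      refine Finset.sum_congr rfl fun s _ => ?_
      unfold pac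
      rw [pow_two, Finset.sum_mul_sum]
    rw [Finset.sum_congr rfl fun f _ => h1 f, Finset.sum_comm]
    rw [Finset.sum_const, Finset.card_univ, nsmul_eq_mul]
    have h2 : ∀ s : ZMod q, ∑ f : ZMod q → Bool, ∑ x, ∑ y,
        (sq q r f x * sq q r f (x + s)) * (sq q r f y * sq q r f (y + s)) ≤
        ∑ x, ∑ y, (Fintype.card (ZMod q → Bool) : ℝ) *
        ((if s = 0 then ind q r x * ind q r y else 0) +
          ind q r x * ind q r (x + s) * ((if y = x then 1 else 0) + (if y = x + s then 1 else 0))) := by
      intro s
      rw [Finset.sum_comm]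
      refine Finset.sum_le_sum fun x _ => ?_
      rw [Finset.sum_comm]
      exact Finset.sum_le_sum fun y _ => sum_quad_le r s x y
    refine (Finset.sum_le_sum fun s _ => h2 s).trans ?_
    have hI : ∑ x : ZMod q, ind q r x ≤ r := sum_ind_le hr
    have hI0 : 0 ≤ ∑ x : ZMod q, ind q r x := Finset.sum_nonneg fun x _ => ind_nonneg r x
    have h3 : ∑ s : ZMod q, ∑ x : ZMod q, ∑ y : ZMod q, (Fintype.card (ZMod q → Bool) : ℝ) *
        ((if s = 0 then ind q r x * ind q r y else 0) +
          ind q r x * ind q r (x + s) * ((if y = x then 1 else 0) + (if y = x + s then 1 else 0))) =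
        (Fintype.card (ZMod q → Bool) : ℝ) * (3 * (∑ x : ZMod q, ind q r x) ^ 2) := by
      simp only [← Finset.mul_sum, Finset.sum_add_distrib]
      congr 1
      have e1 : ∑ s : ZMod q, ∑ x : ZMod q, ∑ y : ZMod q,
          (if s = 0 then ind q r x * ind q r y else 0) = (∑ x : ZMod q, ind q r x) ^ 2 := by
        rw [Finset.sum_eq_single (0 : ZMod q)]
        · simp only [if_true]
          rw [pow_two, Finset.sum_mul_sum]
        · intro s _ hs
          simp only [if_neg hs, Finset.sum_const_zero]
        · intro h; exact absurd (Finset.mem_univ _) h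
      have e2 : ∑ s : ZMod q, ∑ x : ZMod q, ind q r x * ind q r (x + s) *
          ((∑ y : ZMod q, if y = x then (1 : ℝ) else 0) + ∑ y : ZMod q, if y = x + s then 1 else 0) =
          2 * (∑ x : ZMod q, ind q r x) ^ 2 := by
        simp only [Finset.sum_ite_eq', Finset.mem_univ, if_true]
        rw [Finset.sum_comm]
        have e3 : ∀ x : ZMod q, ∑ s : ZMod q, ind q r x * ind q r (x + s) * (1 + 1) =
            ind q r x * (2 * ∑ s : ZMod q, ind q r s) := by
          intro x
          have e4 : ∑ s : ZMod q, ind q r (x + s) = ∑ s : ZMod q, ind q r s :=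
            Equiv.sum_comp (Equiv.addLeft x) (fun s => ind q r s)
          rw [← Finset.sum_mul, ← Finset.mul_sum, e4]
          ring
        rw [Finset.sum_congr rfl fun x _ => e3 x, ← Finset.sum_mul]
        ring
      rw [e1, e2]
      ring
    rw [h3]
    apply mul_le_mul_of_nonneg_left _ (by positivity)
    have : (∑ x : ZMod q, ind q r x) ^ 2 ≤ (r : ℝ) ^ 2 := pow_le_pow_left₀ hI0 hI 2
    linarith
  obtain ⟨f, _, hf⟩ := Finset.exists_le_of_sum_le (Finset.univ_nonempty) hsum
  refine ⟨sq q r f, ?_, ?_, ?_⟩
  · intro x hx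
    unfold sq
    rw [if_neg (by omega)]
  · intro x hx
    unfold sq sg
    rw [if_pos hx]
    split_ifs
    · left; rfl
    · right; rfl
  · rw [trace_sq]
    have hq : (0 : ℝ) ≤ q := by positivity
    calc (q : ℝ) * ∑ s, pac (sq q r f) s ^ 2 ≤ q * (3 * (r : ℝ) ^ 2) :=
          mul_le_mul_of_nonneg_left hf hq
      _ = 3 * q * r ^ 2 := by ring

end Pool.Agent.MaxDetLI
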