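import Mathlib

/-!
# The Goethals–Seidel array
-/

set_option autoImplicit false
set_option linter.unusedSimpArgs false
set_option linter.unusedSectionVars false

namespace HadLI

open Matrix Finset

variable {q : ℕ} [NeZero q]

/-- the back diagonal permutation -/
def R (q : ℕ) [NeZero q] : Matrix (ZMod q) (ZMod q) ℝ := fun i j => if i + j = 0 then 1 else 0

theorem R_mul_R : R q * R q = 1 := by
  ext i j
  rw [Matrix.mul_apply, Finset.sum_eq_single (-i)]
  · by_cases h : i = j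
    · subst h
      simp [R]
    · have h2 : ¬ (-i + j = 0) := fun h3 => h (by rw [neg_add_eq_zero] at h3; exact h3)
      simp [R, h, h2]
  · intro b _ hb
    have h2 : ¬ (i + b = 0) := fun h3 => hb (by rw [eq_neg_iff_add_eq_zero, add_comm]; exact h3)
    simp [R, h2]
  · simp

theorem R_transpose : (R q)ᵀ = R q := by
  ext i j
  simp [R, Matrix.transpose_apply, add_comm]

theorem R_mul (v : ZMod q → ℝ) : R q * circulant v = (circulant v)ᵀ * R q := by
  ext i j
  rw [Matrix.mul_apply, Matrix.mul_apply, Finset.sum_eq_single (-i), Finset.sum_eq_single (-j)]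
  · simp only [R, circulant_apply, transpose_apply]
    rw [if_pos (by ring), if_pos (by ring)]
    ring_nf
  · intro b _ hb
    have h2 : ¬ (b + j = 0) := fun h3 => hb (by rw [eq_neg_iff_add_eq_zero]; exact h3)
    simp [R, h2]
  · simp
  · intro b _ hb
    have h2 : ¬ (i + b = 0) := fun h3 => hb (by rw [eq_neg_iff_add_eq_zero, add_comm]; exact h3)
    simp [R, h2]
  · simp

/-- the set of circulants -/
def IsCirc (A : Matrix (ZMod q) (ZMod q) ℝ) : Prop := ∃ v, A = circulant v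

theorem IsCirc.transpose {A : Matrix (ZMod q) (ZMod q) ℝ} (h : IsCirc A) : IsCirc Aᵀ := by
  obtain ⟨v, rfl⟩ := h
  exact ⟨_, transpose_circulant v⟩

theorem IsCirc.comm {A B : Matrix (ZMod q) (ZMod q) ℝ} (hA : IsCirc A) (hB : IsCirc B) : A * B = B * A := by
  obtain ⟨v, rfl⟩ := hA
  obtain ⟨w, rfl⟩ := hB
  exact circulant_mul_comm v w

theorem IsCirc.R_mul {A : Matrix (ZMod q) (ZMod q) ℝ} (hA : IsCirc A) : R q * A = Aᵀ * R q := by
  obtain ⟨v, rfl⟩ := hA
  exact HadLI.R_mul v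

/-- the blocks of the Goethals–Seidel array -/
def blk (A B C D : Matrix (ZMod q) (ZMod q) ℝ) : Fin 4 → Fin 4 → Matrix (ZMod q) (ZMod q) ℝ :=
  ![![A, B * R q, C * R q, D * R q],
    ![-(B * R q), A, Dᵀ * R q, -(Cᵀ * R q)],
    ![-(C * R q), -(Dᵀ * R q), A, Bᵀ * R q],
    ![-(D * R q), Cᵀ * R q, -(Bᵀ * R q), A]]

/-- the Goethals–Seidel array -/
def gs (A B C D : Matrix (ZMod q) (ZMod q) ℝ) : Matrix (Fin 4 × ZMod q) (Fin 4 × ZMod q) ℝ :=
  fun x y => blk A B C D x.1 y.1 x.2 y.2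

theorem gs_mul (A B C D : Matrix (ZMod q) (ZMod q) ℝ) (hA : IsCirc A) (hB : IsCirc B) (hC : IsCirc C)
    (hD : IsCirc D) (x y : Fin 4 × ZMod q) :
    (gs A B C D * (gs A B C D)ᵀ) x y =
      if x.1 = y.1 then (A * Aᵀ + B * Bᵀ + C * Cᵀ + D * Dᵀ) x.2 y.2 else 0 := by
  have key : ∀ i j : Fin 4, ∑ k, blk A B C D i k * (blk A B C D j k)ᵀ =
      if i = j then A * Aᵀ + B * Bᵀ + C * Cᵀ + D * Dᵀ else 0 := by
    have hAt := hA.transpose
    have hBt := hB.transpose
    have hCt := hC.transpose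
    have hDt := hD.transpose
    -- `(X R)ᵀ = X R`, `(X R) (Y R) = X Yᵀ`, `(X R) Y = X Yᵀ R`
    have t1 : ∀ X : Matrix (ZMod q) (ZMod q) ℝ, IsCirc X → (X * R q)ᵀ = X * R q := by
      intro X hX
      rw [transpose_mul, R_transpose, hX.transpose.R_mul, transpose_transpose]
    have t2 : ∀ X Y : Matrix (ZMod q) (ZMod q) ℝ, IsCirc Y → X * R q * Y * R q = X * Yᵀ := by
      intro X Y hY
      rw [Matrix.mul_assoc (X * R q), Matrix.mul_assoc, ← Matrix.mul_assoc (R q), hY.R_mul, Matrix.mul_assoc Yᵀ,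
        R_mul_R, Matrix.mul_one]
    have t3 : ∀ X Y : Matrix (ZMod q) (ZMod q) ℝ, IsCirc Y → X * R q * Yᵀ = X * Y * R q := by
      intro X Y hY
      rw [Matrix.mul_assoc, hY.transpose.R_mul, transpose_transpose, Matrix.mul_assoc]
    intro i j
    rw [Fin.sum_univ_four]
    fin_cases i <;> fin_cases j <;>
    simp only [blk, Matrix.cons_val_zero, Matrix.cons_val_one, Matrix.cons_val, Fin.zero_eta, Fin.mk_one,
      Fin.reduceFinMk, Matrix.transpose_neg, t1 _ hA, t1 _ hB, t1 _ hC, t1 _ hD, t1 _ hAt, t1 _ hBt, t1 _ hCt, t1 _ hDt,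
      Matrix.neg_mul, Matrix.mul_neg, neg_neg, t2 _ _ hA, t2 _ _ hB, t2 _ _ hC, t2 _ _ hD, t2 _ _ hAt, t2 _ _ hBt,
      t2 _ _ hCt, t2 _ _ hDt, t3 _ _ hA, transpose_transpose, ← Matrix.mul_assoc,
      hA.comm hB, hA.comm hC, hA.comm hD, hB.comm hC, hB.comm hD, hC.comm hD,
      hAt.comm hB, hAt.comm hC, hAt.comm hD, hBt.comm hC, hBt.comm hD, hCt.comm hD,
      hA.comm hBt, hA.comm hCt, hA.comm hDt, hB.comm hCt, hB.comm hDt, hC.comm hDt,
      hAt.comm hA, hBt.comm hB, hCt.comm hC, hDt.comm hD, hDt.comm hCt, hDt.comm hBt, hCt.comm hBt] <;>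
    first
    | (simp only [if_true]; done)
    | (simp only [if_true]; abel1)
    | (rw [if_neg (by decide)]; abel1)
    | skip
  have h := key x.1 y.1
  have h2 : (gs A B C D * (gs A B C D)ᵀ) x y = (∑ k, blk A B C D x.1 k * (blk A B C D y.1 k)ᵀ) x.2 y.2 := by
    rw [Matrix.mul_apply, Fintype.sum_prod_type, Matrix.sum_apply]
    refine Finset.sum_congr rfl fun k _ => ?_
    rw [Matrix.mul_apply]
    rfl
  rw [h2, h]
  split_ifs <;> rfl

end HadLI
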