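import Mathlib
import Pool.Agent.Lib_MP_008adc_li.GS

/-!
# Golay–Rudin–Shapiro pairs, padded by zeros, as circulants
-/

set_option autoImplicit false
set_option linter.unusedSectionVars false

namespace HadLI

open Matrix Finset

variable {q : ℕ} [NeZero q]

/-- padding by zeros -/
def pad (q : ℕ) (L : ℕ) (a : ℕ → ℝ) : ZMod q → ℝ := fun x => if x.val < L then a x.val else 0

/-- Golay–Rudin–Shapiro sequences of length `2 ^ k` -/
def gol : ℕ → (ℕ → ℝ) × (ℕ → ℝ)
  | 0 => (fun _ => 1, fun _ => 1)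
  | k + 1 => (fun n => if n < 2 ^ k then (gol k).1 n else (gol k).2 (n - 2 ^ k),
      fun n => if n < 2 ^ k then (gol k).1 n else -(gol k).2 (n - 2 ^ k))

theorem gol_pm (k : ℕ) (n : ℕ) : ((gol k).1 n = 1 ∨ (gol k).1 n = -1) ∧ ((gol k).2 n = 1 ∨ (gol k).2 n = -1) := by
  induction k generalizing n with
  | zero => simp [gol]
  | succ k ih =>
    have h1 := ih n
    have h2 := ih (n - 2 ^ k)
    simp only [gol]
    split_ifs
    · exact ⟨h1.1, h1.1⟩
    · refine ⟨h2.2, ?_⟩
      rcases h2.2 with h | h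
      · right; rw [h]
      · left; rw [h]; norm_num

theorem shift_iff (k : ℕ) (hk : 2 ^ (k + 1) ≤ q) (x : ZMod q) :
    (x - ((2 ^ k : ℕ) : ZMod q)).val < 2 ^ k ↔ 2 ^ k ≤ x.val ∧ x.val < 2 ^ (k + 1) := by
  have e : 2 ^ (k + 1) = 2 ^ k + 2 ^ k := by rw [pow_succ]; ring
  have hp : 0 < 2 ^ k := by positivity
  have hv : ((2 ^ k : ℕ) : ZMod q).val = 2 ^ k := ZMod.val_natCast_of_lt (by omega)
  constructor
  · intro h
    have h1 : x = (x - ((2 ^ k : ℕ) : ZMod q)) + ((2 ^ k : ℕ) : ZMod q) := by ring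
    have h2 : x.val = (x - ((2 ^ k : ℕ) : ZMod q)).val + 2 ^ k := by
      conv_lhs => rw [h1]
      rw [ZMod.val_add_of_lt (by rw [hv]; omega), hv]
    omega
  · rintro ⟨h1, h2⟩
    rw [ZMod.val_sub (by rw [hv]; exact h1), hv]
    omega

theorem shift_val (k : ℕ) (hk : 2 ^ (k + 1) ≤ q) (x : ZMod q) (h1 : 2 ^ k ≤ x.val) :
    (x - ((2 ^ k : ℕ) : ZMod q)).val = x.val - 2 ^ k := by
  have e : 2 ^ (k + 1) = 2 ^ k + 2 ^ k := by rw [pow_succ]; ring
  have hp : 0 < 2 ^ k := by positivity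
  have hv : ((2 ^ k : ℕ) : ZMod q).val = 2 ^ k := ZMod.val_natCast_of_lt (by omega)
  rw [ZMod.val_sub (by rw [hv]; exact h1), hv]

theorem pad_succ (k : ℕ) (hk : 2 ^ (k + 1) ≤ q) (x : ZMod q) :
    pad q (2 ^ (k + 1)) (gol (k + 1)).1 x =
      pad q (2 ^ k) (gol k).1 x + pad q (2 ^ k) (gol k).2 (x - ((2 ^ k : ℕ) : ZMod q)) ∧
    pad q (2 ^ (k + 1)) (gol (k + 1)).2 x =
      pad q (2 ^ k) (gol k).1 x - pad q (2 ^ k) (gol k).2 (x - ((2 ^ k : ℕ) : ZMod q)) := by
  have e : 2 ^ (k + 1) = 2 ^ k + 2 ^ k := by rw [pow_succ]; ring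
  have hs := shift_iff k hk x
  unfold pad
  simp only [gol]
  by_cases h1 : x.val < 2 ^ k
  · have h2 : x.val < 2 ^ (k + 1) := by omega
    have h3 : ¬ (x - ((2 ^ k : ℕ) : ZMod q)).val < 2 ^ k := by rw [hs]; omega
    rw [if_pos h2, if_pos h1, if_pos h2, if_pos h1, if_pos h1, if_neg h3]
    constructor <;> ring
  · by_cases h2 : x.val < 2 ^ (k + 1)
    · have h3 : (x - ((2 ^ k : ℕ) : ZMod q)).val < 2 ^ k := by rw [hs]; omega
      rw [if_pos h2, if_neg h1, if_pos h2, if_neg h1, if_neg h1, if_pos h3, shift_val k hk x (by omega)]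
      constructor <;> ring
    · have h3 : ¬ (x - ((2 ^ k : ℕ) : ZMod q)).val < 2 ^ k := by rw [hs]; omega
      rw [if_neg h2, if_neg h2, if_neg h1, if_neg h3]
      constructor <;> ring

/-- the shift matrix -/
def S (q : ℕ) [NeZero q] (m : ZMod q) : Matrix (ZMod q) (ZMod q) ℝ := circulant (fun x => if x = m then 1 else 0)

theorem S_mul (m : ZMod q) (v : ZMod q → ℝ) : S q m * circulant v = circulant (fun x => v (x - m)) := by
  ext i j
  rw [Matrix.mul_apply, Finset.sum_eq_single (i - m)]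
  · simp only [S, circulant_apply, sub_sub_cancel, if_true, one_mul]
    congr 1
    ring
  · intro b _ hb
    have h2 : ¬ (i - b = m) := fun h3 => hb (by rw [← h3]; ring)
    simp [S, circulant_apply, h2]
  · simp

theorem S_mul_T (m : ZMod q) : S q m * (S q m)ᵀ = 1 := by
  ext i j
  rw [Matrix.mul_apply, Finset.sum_eq_single (i - m)]
  · simp only [S, circulant_apply, sub_sub_cancel, if_true, one_mul, transpose_apply]
    by_cases h : i = j
    · subst h
      simp
    · have h2 : ¬ (j - (i - m) = m) := fun h3 => h (by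
        have h4 : j - i = 0 := by linear_combination h3
        exact (sub_eq_zero.1 h4).symm)
      rw [if_neg h2, Matrix.one_apply_ne h]
  · intro b _ hb
    have h2 : ¬ (i - b = m) := fun h3 => hb (by rw [← h3]; ring)
    simp [S, circulant_apply, h2]
  · simp

theorem golay_matrix (k : ℕ) (hk : 2 ^ k ≤ q) :
    circulant (pad q (2 ^ k) (gol k).1) * (circulant (pad q (2 ^ k) (gol k).1))ᵀ +
      circulant (pad q (2 ^ k) (gol k).2) * (circulant (pad q (2 ^ k) (gol k).2))ᵀ =
    (2 * (2 ^ k : ℝ)) • (1 : Matrix (ZMod q) (ZMod q) ℝ) := by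
  induction k with
  | zero =>
    have h : circulant (pad q (2 ^ 0) (gol 0).1) = (1 : Matrix (ZMod q) (ZMod q) ℝ) := by
      ext i j
      simp only [circulant_apply, pad, gol, pow_zero, Nat.lt_one_iff, ZMod.val_eq_zero]
      by_cases h : i = j
      · subst h; simp
      · rw [if_neg (fun h3 => h (sub_eq_zero.1 h3)), Matrix.one_apply_ne h]
    have h' : circulant (pad q (2 ^ 0) (gol 0).2) = (1 : Matrix (ZMod q) (ZMod q) ℝ) := h
    rw [h, h', transpose_one, Matrix.mul_one, pow_zero, mul_one, two_smul]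
  | succ k ih =>
    have ih' := ih (le_trans (Nat.pow_le_pow_right (by norm_num) (Nat.le_succ k)) hk)
    have hA : circulant (pad q (2 ^ (k + 1)) (gol (k + 1)).1) =
        circulant (pad q (2 ^ k) (gol k).1) + S q ((2 ^ k : ℕ) : ZMod q) * circulant (pad q (2 ^ k) (gol k).2) := by
      rw [S_mul, ← circulant_add]
      congr 1
      funext x
      exact (pad_succ k hk x).1
    have hB : circulant (pad q (2 ^ (k + 1)) (gol (k + 1)).2) =
        circulant (pad q (2 ^ k) (gol k).1) - S q ((2 ^ k : ℕ) : ZMod q) * circulant (pad q (2 ^ k) (gol k).2) := by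
      rw [S_mul, ← circulant_sub]
      congr 1
      funext x
      exact (pad_succ k hk x).2
    rw [hA, hB]
    set A := circulant (pad q (2 ^ k) (gol k).1) with hAd
    set B := circulant (pad q (2 ^ k) (gol k).2) with hBd
    set W := S q ((2 ^ k : ℕ) : ZMod q) with hSd
    have h1 : W * B * (W * B)ᵀ = B * Bᵀ := by
      have hc : W * B = B * W := circulant_mul_comm _ _
      rw [hc, transpose_mul, Matrix.mul_assoc, ← Matrix.mul_assoc W, S_mul_T, Matrix.one_mul]
    have h2 : (A + W * B) * (A + W * B)ᵀ + (A - W * B) * (A - W * B)ᵀ =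
        2 • (A * Aᵀ) + 2 • (W * B * (W * B)ᵀ) := by
      rw [transpose_add, transpose_sub, Matrix.add_mul, Matrix.mul_add, Matrix.mul_add, Matrix.sub_mul, Matrix.mul_sub,
        Matrix.mul_sub]
      abel
    rw [h2, h1, ← smul_add, ih', pow_succ, ← Nat.cast_smul_eq_nsmul ℝ 2, smul_smul]
    congr 1
    push_cast
    ring

end HadLI
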