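import Pool.Agent.Lib_MP_008adc_co.DetA
import Pool.Agent.Lib_MP_008adc_li.GolayC
import Pool.Agent.Lib_MP_008adc_li.DetExp
import Pool.Agent.Lib_MP_008adc_li.GarbageAv

/-!
# The determinant of the Goethals–Seidel array of padded Golay pairs
-/

set_option autoImplicit false
set_option linter.unusedSectionVars false

namespace HadLI

open Matrix Finset

variable {q : ℕ} [NeZero q]

theorem mul_R (X : Matrix (ZMod q) (ZMod q) ℝ) (i j : ZMod q) : (X * R q) i j = X i (-j) := by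
  rw [Matrix.mul_apply, Finset.sum_eq_single (-j)]
  · simp [R]
  · intro b _ hb
    have h2 : ¬ (b + j = 0) := fun h3 => hb (by rw [eq_neg_iff_add_eq_zero]; exact h3)
    simp [R, h2]
  · simp

/-- entries `1, -1` -/
def PM (X : Matrix (ZMod q) (ZMod q) ℝ) : Prop := ∀ i j, X i j = 1 ∨ X i j = -1

theorem gs_pm (A B C D : Matrix (ZMod q) (ZMod q) ℝ) (hA : PM A) (hB : PM B) (hC : PM C) (hD : PM D)
    (x y : Fin 4 × ZMod q) : gs A B C D x y = 1 ∨ gs A B C D x y = -1 := by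
  have t1 : ∀ X : Matrix (ZMod q) (ZMod q) ℝ, PM X → PM (X * R q) := by
    intro X hX i j
    rw [mul_R]
    exact hX _ _
  have t2 : ∀ X : Matrix (ZMod q) (ZMod q) ℝ, PM X → PM (-X) := by
    intro X hX i j
    rcases hX i j with h | h
    · right; rw [Matrix.neg_apply, h]
    · left; rw [Matrix.neg_apply, h, neg_neg]
  have t3 : ∀ X : Matrix (ZMod q) (ZMod q) ℝ, PM X → PM Xᵀ := fun X hX i j => hX j i
  have key : ∀ i j : Fin 4, PM (blk A B C D i j) := by
    intro i j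
    fin_cases i <;> fin_cases j
    · exact hA
    · exact t1 _ hB
    · exact t1 _ hC
    · exact t1 _ hD
    · exact t2 _ (t1 _ hB)
    · exact hA
    · exact t1 _ (t3 _ hD)
    · exact t2 _ (t1 _ (t3 _ hC))
    · exact t2 _ (t1 _ hC)
    · exact t2 _ (t1 _ (t3 _ hD))
    · exact hA
    · exact t1 _ (t3 _ hB)
    · exact t2 _ (t1 _ hD)
    · exact t1 _ (t3 _ hC)
    · exact t2 _ (t1 _ (t3 _ hB))
    · exact hA
  exact key _ _ _ _

theorem gs_det (A B C D : Matrix (ZMod q) (ZMod q) ℝ) (hA : IsCirc A) (hB : IsCirc B) (hC : IsCirc C)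
    (hD : IsCirc D) : (gs A B C D).det ^ 2 = (A * Aᵀ + B * Bᵀ + C * Cᵀ + D * Dᵀ).det ^ 4 := by
  have h1 : gs A B C D * (gs A B C D)ᵀ =
      Matrix.kroneckerMap (· * ·) (1 : Matrix (Fin 4) (Fin 4) ℝ) (A * Aᵀ + B * Bᵀ + C * Cᵀ + D * Dᵀ) := by
    ext x y
    rw [gs_mul A B C D hA hB hC hD, Matrix.kroneckerMap_apply, Matrix.one_apply]
    split_ifs
    · rw [one_mul]
    · rw [zero_mul]
  have h2 := congrArg Matrix.det h1
  rw [Matrix.det_mul, Matrix.det_transpose, Matrix.det_kronecker, Matrix.det_one, one_pow, one_mul,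
    Fintype.card_fin] at h2
  rw [sq]
  exact h2

theorem sum_val (f : ℕ → ℝ) : ∑ x : ZMod q, f x.val = ∑ n ∈ Finset.range q, f n := by
  obtain _ | q' := q
  · exact absurd rfl (NeZero.ne 0)
  · exact Fin.sum_univ_eq_sum_range f (q' + 1)

theorem sum_sq (L r : ℕ) (hq : q = L + r) (c : ZMod q → ℝ) (hc0 : ∀ x, x.val < L → c x = 0)
    (hc1 : ∀ x, L ≤ x.val → c x = 1 ∨ c x = -1) : ∑ x, c x ^ 2 = r := by
  have h1 : ∀ x : ZMod q, c x ^ 2 = (fun n : ℕ => if n < L then (0 : ℝ) else 1) x.val := by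
    intro x
    by_cases h : x.val < L
    · simp [h, hc0 x h]
    · rcases hc1 x (by omega) with h2 | h2 <;> simp [h, h2]
  rw [Finset.sum_congr rfl fun x _ => h1 x, sum_val (fun n : ℕ => if n < L then (0 : ℝ) else 1), hq,
    Finset.sum_range_add]
  rw [Finset.sum_eq_zero, zero_add, Finset.sum_congr rfl (g := fun _ => (1 : ℝ))]
  · simp
  · intro x _
    simp
  · intro x hx
    simp [Finset.mem_range.1 hx]

theorem trace_circ (c : ZMod q → ℝ) :
    (circulant c * (circulant c)ᵀ).trace = (q : ℝ) * ∑ x, c x ^ 2 := by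
  have h1 : ∀ i : ZMod q, (circulant c * (circulant c)ᵀ) i i = ∑ x, c x ^ 2 := by
    intro i
    rw [Matrix.mul_apply, ← (Equiv.subLeft i).sum_comp]
    refine Finset.sum_congr rfl fun x _ => ?_
    simp only [Equiv.subLeft_apply, circulant_apply, transpose_apply, sub_sub_cancel]
    ring
  rw [Matrix.trace, Finset.sum_congr rfl fun i _ => (by rw [Matrix.diag_apply, h1 i])]
  rw [Finset.sum_const, Finset.card_univ, ZMod.card, nsmul_eq_mul]

theorem block_bound (k r : ℕ) (hq : q = 2 ^ k + r) (c : ZMod q → ℝ) (hc0 : ∀ x, x.val < 2 ^ k → c x = 0)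
    (hc1 : ∀ x, 2 ^ k ≤ x.val → c x = 1 ∨ c x = -1)
    (hc2 : ((circulant c * (circulant c)ᵀ) * (circulant c * (circulant c)ᵀ)).trace ≤ 3 * (q : ℝ) * (r : ℝ) ^ 2) :
    Real.exp (-(3 * (q : ℝ) * (r : ℝ) ^ 2 / ((2 : ℝ) ^ k) ^ 2)) ≤ HadCalc.rDet (4 * q) := by
  have hL : (0 : ℝ) < 2 ^ k := by positivity
  have hq0 : 0 < q := Nat.pos_of_ne_zero (NeZero.ne q)
  have hqR : (0 : ℝ) < q := by exact_mod_cast hq0
  have hqe : (q : ℝ) = 2 ^ k + r := by rw [hq]; push_cast; ring
  set a := pad q (2 ^ k) (gol k).1 with ha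
  set b := pad q (2 ^ k) (gol k).2 with hb
  have hA : PM (circulant (a + c)) := by
    intro i j
    rw [circulant_apply, Pi.add_apply]
    by_cases h : (i - j).val < 2 ^ k
    · rw [hc0 _ h, ha, pad, if_pos h, add_zero]
      exact (gol_pm k _).1
    · rw [ha, pad, if_neg h, zero_add]
      exact hc1 _ (by omega)
  have hC : PM (circulant (b + c)) := by
    intro i j
    rw [circulant_apply, Pi.add_apply]
    by_cases h : (i - j).val < 2 ^ k
    · rw [hc0 _ h, hb, pad, if_pos h, add_zero]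
      exact (gol_pm k _).2
    · rw [hb, pad, if_neg h, zero_add]
      exact hc1 _ (by omega)
  have hD : PM (circulant (a - c)) := by
    intro i j
    rw [circulant_apply, Pi.sub_apply]
    by_cases h : (i - j).val < 2 ^ k
    · rw [hc0 _ h, ha, pad, if_pos h, sub_zero]
      exact (gol_pm k _).1
    · rw [ha, pad, if_neg h, zero_sub]
      rcases hc1 (i - j) (by omega) with h2 | h2
      · right; rw [h2]
      · left; rw [h2, neg_neg]
  have hB : PM (circulant (b - c)) := by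
    intro i j
    rw [circulant_apply, Pi.sub_apply]
    by_cases h : (i - j).val < 2 ^ k
    · rw [hc0 _ h, hb, pad, if_pos h, sub_zero]
      exact (gol_pm k _).2
    · rw [hb, pad, if_neg h, zero_sub]
      rcases hc1 (i - j) (by omega) with h2 | h2
      · right; rw [h2]
      · left; rw [h2, neg_neg]
  set M := gs (circulant (a + c)) (circulant (b - c)) (circulant (b + c)) (circulant (a - c)) with hM
  have hMpm : ∀ x y, M x y = 1 ∨ M x y = -1 := gs_pm _ _ _ _ hA hB hC hD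
  set X : Matrix (ZMod q) (ZMod q) ℝ := ((2 : ℝ) ^ k)⁻¹ • (circulant c * (circulant c)ᵀ) with hX
  have hG : circulant (a + c) * (circulant (a + c))ᵀ + circulant (b - c) * (circulant (b - c))ᵀ +
      circulant (b + c) * (circulant (b + c))ᵀ + circulant (a - c) * (circulant (a - c))ᵀ =
      (4 * (2 : ℝ) ^ k) • (1 + X) := by
    have h1 : circulant (a + c) * (circulant (a + c))ᵀ + circulant (b - c) * (circulant (b - c))ᵀ +
      circulant (b + c) * (circulant (b + c))ᵀ + circulant (a - c) * (circulant (a - c))ᵀ =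
      2 • (circulant a * (circulant a)ᵀ + circulant b * (circulant b)ᵀ) + 4 • (circulant c * (circulant c)ᵀ) := by
      simp only [circulant_add, circulant_sub, transpose_add, transpose_sub, Matrix.add_mul, Matrix.mul_add,
        Matrix.sub_mul, Matrix.mul_sub]
      abel
    rw [h1, ha, hb, golay_matrix k (by omega), hX, smul_add, smul_smul, ← Nat.cast_smul_eq_nsmul ℝ 2,
      ← Nat.cast_smul_eq_nsmul ℝ 4, smul_smul]
    congr 1
    · congr 1
      push_cast
      ring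
    · congr 1
      push_cast
      field_simp
  have hXpsd : X.PosSemidef := by
    have h1 : (circulant c * (circulant c)ᵀ).PosSemidef := by
      have := Matrix.posSemidef_self_mul_conjTranspose (circulant c)
      rwa [Matrix.conjTranspose_eq_transpose_of_trivial] at this
    exact h1.smul (by positivity)
  have hdet := Pool.Agent.MaxDetLI.det_one_add_ge X hXpsd
  have htr : X.trace = (q : ℝ) * r / 2 ^ k := by
    rw [hX, Matrix.trace_smul, trace_circ, sum_sq (2 ^ k) r hq c hc0 hc1, smul_eq_mul]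
    field_simp
  have htr2 : (X * X).trace ≤ 3 * (q : ℝ) * (r : ℝ) ^ 2 / ((2 : ℝ) ^ k) ^ 2 := by
    rw [hX, Matrix.smul_mul, Matrix.mul_smul, smul_smul, Matrix.trace_smul, smul_eq_mul, div_eq_inv_mul]
    have h1 : ((2 : ℝ) ^ k)⁻¹ * ((2 : ℝ) ^ k)⁻¹ = (((2 : ℝ) ^ k) ^ 2)⁻¹ := by rw [sq, mul_inv]
    rw [h1]
    exact mul_le_mul_of_nonneg_left hc2 (by positivity)
  -- the bound for the Gram determinant
  set E : ℝ := 3 * (q : ℝ) * (r : ℝ) ^ 2 / ((2 : ℝ) ^ k) ^ 2 with hE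
  set P : ℝ := (4 * (2 : ℝ) ^ k) ^ q * Real.exp ((q : ℝ) * r / 2 ^ k - E / 2) with hP
  have hP0 : 0 < P := by positivity
  have hGdet : P ≤ ((4 * (2 : ℝ) ^ k) • (1 + X)).det := by
    rw [Matrix.det_smul, ZMod.card, hP]
    refine mul_le_mul_of_nonneg_left (le_trans ?_ hdet) (by positivity)
    rw [Real.exp_le_exp, htr]
    linarith
  have hMdet : P ^ 2 ≤ |M.det| := by
    have h1 := gs_det (circulant (a + c)) (circulant (b - c)) (circulant (b + c)) (circulant (a - c))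
      ⟨_, rfl⟩ ⟨_, rfl⟩ ⟨_, rfl⟩ ⟨_, rfl⟩
    rw [hG, ← hM] at h1
    have h2 : P ^ 4 ≤ ((4 * (2 : ℝ) ^ k) • (1 + X)).det ^ 4 := pow_le_pow_left₀ hP0.le hGdet 4
    rw [← h1, ← sq_abs] at h2
    have h3 : (P ^ 2) ^ 2 ≤ |M.det| ^ 2 := by
      rw [← pow_mul]
      exact h2
    exact (sq_le_sq₀ (by positivity) (abs_nonneg _)).1 h3
  have hle : |M.det| ≤ HadCalc.maxDet (4 * q) := by
    have e : Fin 4 × ZMod q ≃ Fin (4 * q) := Fintype.equivFinOfCardEq (by simp [ZMod.card])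
    have h1 := HadCalc.le_maxDet (M.submatrix e.symm e.symm) (fun i j => hMpm _ _)
    rwa [Matrix.det_submatrix_equiv_self] at h1
  have hpow : (((4 * q : ℕ) : ℝ)) ^ (((4 * q : ℕ) : ℝ) / 2) = (4 * (q : ℝ)) ^ (2 * q) := by
    have h1 : (((4 * q : ℕ) : ℝ) / 2) = ((2 * q : ℕ) : ℝ) := by push_cast; ring
    rw [h1, Real.rpow_natCast]
    push_cast
    ring
  rw [HadCalc.rDet, hpow, le_div_iff₀ (by positivity)]
  refine le_trans ?_ (hMdet.trans hle)
  have h5 : P ^ 2 = (4 * (2 : ℝ) ^ k) ^ (2 * q) * Real.exp (2 * (q : ℝ) * r / 2 ^ k) * Real.exp (-E) := by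
    rw [hP, mul_pow, ← pow_mul, mul_comm q 2, ← Real.exp_nat_mul, mul_assoc, ← Real.exp_add]
    congr 2
    push_cast
    ring
  rw [h5, mul_comm]
  refine mul_le_mul_of_nonneg_right ?_ (Real.exp_nonneg _)
  have h6 : (4 * (q : ℝ)) = (4 * (2 : ℝ) ^ k) * (1 + r / 2 ^ k) := by
    rw [hqe]
    field_simp
  rw [h6, mul_pow]
  refine mul_le_mul_of_nonneg_left ?_ (by positivity)
  have h7 : 1 + (r : ℝ) / 2 ^ k ≤ Real.exp ((r : ℝ) / 2 ^ k) := by
    rw [add_comm]
    exact Real.add_one_le_exp _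
  calc (1 + (r : ℝ) / 2 ^ k) ^ (2 * q) ≤ (Real.exp ((r : ℝ) / 2 ^ k)) ^ (2 * q) :=
        pow_le_pow_left₀ (by positivity) h7 _
    _ = Real.exp (2 * (q : ℝ) * r / 2 ^ k) := by
        rw [← Real.exp_nat_mul]
        congr 1
        push_cast
        ring

/-- The block bound: order `4 (2 ^ k + r)`. -/
theorem rDet_block (k r : ℕ) :
    Real.exp (-(3 * ((2 ^ k + r : ℕ) : ℝ) * (r : ℝ) ^ 2 / ((2 : ℝ) ^ k) ^ 2)) ≤
      HadCalc.rDet (4 * (2 ^ k + r)) := by
  have hp : 0 < 2 ^ k := by positivity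
  haveI : NeZero (2 ^ k + r) := ⟨by omega⟩
  obtain ⟨c, hc0, hc1, hc2⟩ := Pool.Agent.MaxDetLI.garbage (2 ^ k + r) r (by omega)
  rw [Nat.add_sub_cancel] at hc0 hc1
  exact block_bound k r rfl c hc0 hc1 hc2

end HadLI
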