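import Pool.Agent.Lib_MP_008adc_li.GDefs

/-!
# The cyclic coefficient identity for weighted structures
-/

set_option autoImplicit false

namespace HadCalc

open Matrix

private theorem sum_range_zmod' {M : Type*} [AddCommMonoid M] (L : ℕ) [NeZero L] (f : ℕ → M) :
    ∑ j ∈ Finset.range L, f j = ∑ a : ZMod L, f a.val := by
  obtain ⟨L', rfl⟩ : ∃ n, L = n + 1 := Nat.exists_eq_succ_of_ne_zero (NeZero.ne L)
  rw [Finset.sum_range]
  rfl

private theorem norm_chi {N : ℕ} [NeZero N] (x : ZMod N) : ‖(ZMod.stdAddChar x : ℂ)‖ = 1 := by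
  rw [ZMod.stdAddChar_apply]
  exact Circle.norm_coe _

private theorem star_chi {N : ℕ} [NeZero N] (x : ZMod N) :
    star (ZMod.stdAddChar x : ℂ) = ZMod.stdAddChar (-x) := by
  rw [ZMod.stdAddChar_apply, ZMod.stdAddChar_apply, AddChar.map_neg_eq_inv,
    Circle.coe_inv_eq_conj]
  rfl

private theorem pow_chi {N : ℕ} [NeZero N] (m a : ZMod N) :
    (ZMod.stdAddChar m : ℂ) ^ a.val = ZMod.stdAddChar (a * m) := by
  rw [← AddChar.map_nsmul_eq_pow]
  congr 1
  rw [nsmul_eq_mul, ZMod.natCast_zmod_val]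

private theorem orth_chi {N : ℕ} [NeZero N] (x : ZMod N) :
    ∑ m : ZMod N, (ZMod.stdAddChar (m * x) : ℂ) = if x = 0 then (N : ℂ) else 0 := by
  rw [AddChar.sum_mulShift x (ZMod.isPrimitive_stdAddChar N)]
  split_ifs
  · rw [ZMod.card]
  · rw [Nat.cast_zero]

/-- The Fourier inversion for a module valued function of two variables. -/
private theorem four_inv {V : Type*} [AddCommGroup V] [Module ℂ V] {N : ℕ} [NeZero N]
    (B : ZMod N → ZMod N → V) (s t : ZMod N) :
    ∑ m : ZMod N, (ZMod.stdAddChar (m * (s - t)) : ℂ) • (∑ a : ZMod N, ∑ b : ZMod N,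
      (ZMod.stdAddChar (m * (a - b)) : ℂ) • B a b) =
      (N : ℂ) • ∑ r : ZMod N, B (r - s) (r - t) := by
  classical
  have h2 : ∀ a b : ZMod N, ∑ m : ZMod N, (ZMod.stdAddChar (m * (s - t)) : ℂ) •
      ((ZMod.stdAddChar (m * (a - b)) : ℂ) • B a b) =
      (if s - t + (a - b) = 0 then (N : ℂ) else 0) • B a b := by
    intro a b
    rw [← orth_chi, Finset.sum_smul]
    refine Finset.sum_congr rfl fun m _ => ?_
    rw [smul_smul, ← AddChar.map_add_eq_mul, mul_add]
  have h3 : ∑ m : ZMod N, (ZMod.stdAddChar (m * (s - t)) : ℂ) • (∑ a : ZMod N, ∑ b : ZMod N,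
      (ZMod.stdAddChar (m * (a - b)) : ℂ) • B a b) =
      ∑ a : ZMod N, ∑ b : ZMod N, (if s - t + (a - b) = 0 then (N : ℂ) else 0) • B a b := by
    simp only [Finset.smul_sum]
    rw [Finset.sum_comm]
    refine Finset.sum_congr rfl fun a _ => ?_
    rw [Finset.sum_comm]
    exact Finset.sum_congr rfl fun b _ => h2 a b
  rw [h3, ← Equiv.sum_comp (Equiv.subRight s) (fun a : ZMod N => ∑ b : ZMod N,
    (if s - t + (a - b) = 0 then (N : ℂ) else 0) • B a b), Finset.smul_sum]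
  refine Finset.sum_congr rfl fun r _ => ?_
  rw [Finset.sum_eq_single (r - t)]
  · rw [if_pos]
    · rfl
    · change s - t + (r - s - (r - t)) = 0
      ring
  · intro b _ hb
    rw [if_neg, zero_smul]
    intro h0
    apply hb
    change s - t + (r - s - b) = 0 at h0
    have h5 : r - t - b = 0 := by
      rw [← h0]
      ring
    exact (sub_eq_zero.1 h5).symm
  · intro h0
    exact absurd (Finset.mem_univ _) h0

theorem cyc_sum {ι : Type} [Fintype ι] [DecidableEq ι] {N : ℕ} [NeZero N]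
    (Q : ℕ → Matrix ι ι ℤ) (v : ZMod N → ℝ) (L a : ℝ)
    (hQ : ∀ z : ℂ, ‖z‖ = 1 → ev N Q z * (ev N Q z)ᴴ =
      ((a * (L + ‖vpol v z‖ ^ 2) : ℝ) : ℂ) • (1 : Matrix ι ι ℂ)) (s t : ZMod N) :
    ∑ r : ZMod N, ((Q (r - s).val).map (Int.cast : ℤ → ℝ)) *
      ((Q (r - t).val).map (Int.cast : ℤ → ℝ))ᵀ =
      (a * ((if s = t then L else 0) + (circulant v * (circulant v)ᵀ) s t)) •
        (1 : Matrix ι ι ℝ) := by
  classical
  have hN0 : (N : ℂ) ≠ 0 := Nat.cast_ne_zero.2 (NeZero.ne N)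
  -- the identity for the values
  have hval : ∀ m : ZMod N, ∑ x : ZMod N, ∑ y : ZMod N,
      (ZMod.stdAddChar (m * (x - y)) : ℂ) • (toC (Q x.val) * toC (Q y.val)ᵀ) =
        ((a * (L + ‖vpol v (ZMod.stdAddChar m : ℂ)‖ ^ 2) : ℝ) : ℂ) • (1 : Matrix ι ι ℂ) := by
    intro m
    rw [← hQ _ (norm_chi m), ev_conjTranspose]
    unfold ev
    rw [sum_range_zmod', sum_range_zmod', Finset.sum_mul_sum]
    refine Finset.sum_congr rfl fun x _ => Finset.sum_congr rfl fun y _ => ?_
    rw [Matrix.smul_mul, Matrix.mul_smul, smul_smul, star_chi, pow_chi, pow_chi,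
      ← AddChar.map_add_eq_mul]
    congr 2
    ring
  have hvv : ∀ m : ZMod N, ∑ x : ZMod N, ∑ y : ZMod N,
      (ZMod.stdAddChar (m * (x - y)) : ℂ) • ((v x : ℂ) * (v y : ℂ)) =
        ((‖vpol v (ZMod.stdAddChar m : ℂ)‖ ^ 2 : ℝ) : ℂ) := by
    intro m
    have h1 : ((‖vpol v (ZMod.stdAddChar m : ℂ)‖ ^ 2 : ℝ) : ℂ) =
        vpol v (ZMod.stdAddChar m : ℂ) * star (vpol v (ZMod.stdAddChar m : ℂ)) := by
      rw [Complex.star_def, Complex.mul_conj, Complex.normSq_eq_norm_sq]
    rw [h1]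
    unfold vpol
    rw [star_sum, Finset.sum_mul_sum]
    refine Finset.sum_congr rfl fun x _ => Finset.sum_congr rfl fun y _ => ?_
    rw [pow_chi, pow_chi, star_mul', star_chi]
    have h2 : star (v y : ℂ) = (v y : ℂ) := by
      rw [Complex.star_def, Complex.conj_ofReal]
    rw [h2, smul_eq_mul]
    have h3 : (ZMod.stdAddChar (m * (x - y)) : ℂ) =
        (ZMod.stdAddChar (x * m) : ℂ) * ZMod.stdAddChar (-(y * m)) := by
      rw [← AddChar.map_add_eq_mul]
      congr 1
      ring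
    rw [h3]
    ring
  -- summation over `m`
  have e1 := four_inv (fun x y : ZMod N => toC (Q x.val) * toC (Q y.val)ᵀ) s t
  have e2 := four_inv (fun x y : ZMod N => (v x : ℂ) * (v y : ℂ)) s t
  rw [Finset.sum_congr rfl (fun m _ => by rw [hval m])] at e1
  rw [Finset.sum_congr rfl (fun m _ => by rw [hvv m])] at e2
  have e3 : ∑ m : ZMod N, (ZMod.stdAddChar (m * (s - t)) : ℂ) •
      (((a * (L + ‖vpol v (ZMod.stdAddChar m : ℂ)‖ ^ 2) : ℝ) : ℂ) • (1 : Matrix ι ι ℂ)) =
      ((a : ℂ) * ((L : ℂ) * (if s = t then (N : ℂ) else 0) +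
        (N : ℂ) * ∑ r : ZMod N, (v (r - s) : ℂ) * (v (r - t) : ℂ))) • (1 : Matrix ι ι ℂ) := by
    have h4 : (N : ℂ) * ∑ r : ZMod N, (v (r - s) : ℂ) * (v (r - t) : ℂ) =
        ∑ m : ZMod N, (ZMod.stdAddChar (m * (s - t)) : ℂ) *
          ((‖vpol v (ZMod.stdAddChar m : ℂ)‖ ^ 2 : ℝ) : ℂ) := by
      rw [← smul_eq_mul, ← e2]
      rfl
    have h5 : (if s = t then (N : ℂ) else 0) =
        ∑ m : ZMod N, (ZMod.stdAddChar (m * (s - t)) : ℂ) := by
      rw [orth_chi]
      simp only [sub_eq_zero]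
    rw [h4, h5, Finset.mul_sum, ← Finset.sum_add_distrib, Finset.mul_sum, Finset.sum_smul]
    refine Finset.sum_congr rfl fun m _ => ?_
    rw [smul_smul]
    congr 1
    push_cast
    ring
  rw [e3] at e1
  have h6 : ∑ r : ZMod N, (v (r - s) : ℂ) * (v (r - t) : ℂ) =
      (((circulant v * (circulant v)ᵀ) s t : ℝ) : ℂ) := by
    have h7 : (circulant v * (circulant v)ᵀ) s t = ∑ r : ZMod N, v (r - s) * v (r - t) := by
      rw [Matrix.mul_apply, ← (Equiv.subLeft (s + t)).sum_comp]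
      refine Finset.sum_congr rfl fun r _ => ?_
      simp only [Equiv.subLeft_apply, circulant_apply, transpose_apply]
      have e4 : s - (s + t - r) = r - t := by ring
      have e5 : t - (s + t - r) = r - s := by ring
      rw [e4, e5, mul_comm]
    rw [h7, Complex.ofReal_sum]
    refine Finset.sum_congr rfl fun r _ => ?_
    push_cast
    rfl
  rw [h6] at e1
  have e7 : ∑ r : ZMod N, toC (Q (r - s).val) * toC (Q (r - t).val)ᵀ =
      ((a : ℂ) * ((if s = t then (L : ℂ) else 0) +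
        (((circulant v * (circulant v)ᵀ) s t : ℝ) : ℂ))) • (1 : Matrix ι ι ℂ) := by
    have h8 : (N : ℂ) • ∑ r : ZMod N, toC (Q (r - s).val) * toC (Q (r - t).val)ᵀ =
        (N : ℂ) • (((a : ℂ) * ((if s = t then (L : ℂ) else 0) +
          (((circulant v * (circulant v)ᵀ) s t : ℝ) : ℂ))) • (1 : Matrix ι ι ℂ)) := by
      rw [← e1, smul_smul]
      congr 1
      split_ifs <;> ring
    exact smul_right_injective _ hN0 h8
  ext i j
  have h9 := congrFun (congrFun e7 i) j
  rw [Matrix.sum_apply] at h9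
  rw [Matrix.sum_apply]
  apply Complex.ofReal_injective
  have h10 : ((((a * ((if s = t then L else 0) + (circulant v * (circulant v)ᵀ) s t)) •
      (1 : Matrix ι ι ℝ)) i j : ℝ) : ℂ) =
      (((a : ℂ) * ((if s = t then (L : ℂ) else 0) +
        (((circulant v * (circulant v)ᵀ) s t : ℝ) : ℂ))) • (1 : Matrix ι ι ℂ)) i j := by
    rw [Matrix.smul_apply, Matrix.smul_apply, smul_eq_mul, smul_eq_mul]
    by_cases hij : i = j
    · subst hij
      rw [Matrix.one_apply_eq, Matrix.one_apply_eq]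
      split_ifs <;> push_cast <;> ring
    · rw [Matrix.one_apply_ne hij, Matrix.one_apply_ne hij]
      simp
  rw [h10, ← h9, Complex.ofReal_sum]
  refine Finset.sum_congr rfl fun r _ => ?_
  rw [Matrix.mul_apply, Matrix.mul_apply, Complex.ofReal_sum]
  refine Finset.sum_congr rfl fun k _ => ?_
  simp only [toC, Matrix.map_apply, Matrix.transpose_apply]
  push_cast
  rfl

end HadCalc
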