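import Pool.Agent.Lib_MP_008adc_co.HadA
import Pool.Agent.Lib_MP_008adc_li.Block
import Pool.Agent.Lib_MP_008adc_li.GFour

/-!
# The determinant of the matrix of a weighted structure
-/

set_option autoImplicit false

namespace HadCalc

open Matrix
open scoped Kronecker

/-- the matrix `1 ⊗ S` -/
private def wW (f c : ℕ) (S : Matrix (Fin (2 ^ c)) (Fin (2 ^ c)) ℤ) :
    Matrix (Ix f c) (Ix f c) ℤ := (1 : Matrix (ZMod (2 ^ f)) (ZMod (2 ^ f)) ℤ) ⊗ₖ S

private theorem wW_mul {f c : ℕ} {S : Matrix (Fin (2 ^ c)) (Fin (2 ^ c)) ℤ} (hS : IsHad S) :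
    wW f c S * (wW f c S)ᵀ = ((2 ^ c : ℕ) : ℤ) • (1 : Matrix (Ix f c) (Ix f c) ℤ) := by
  unfold wW
  rw [← Matrix.kroneckerMap_transpose, ← Matrix.mul_kronecker_mul, hS.2, Matrix.transpose_one,
    Matrix.one_mul, Matrix.kronecker_smul, Matrix.one_kronecker_one, Fintype.card_fin]

private theorem wW_entry {f c : ℕ} {S : Matrix (Fin (2 ^ c)) (Fin (2 ^ c)) ℤ} (hS : IsHad S)
    {A : Matrix (Ix f c) (Ix f c) ℤ} (hA : Full (Prod.fst : Ix f c → ZMod (2 ^ f)) A)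
    (i k : Ix f c) : (A * wW f c S) i k = 1 ∨ (A * wW f c S) i k = -1 := by
  obtain ⟨j, ⟨hj1, hj2⟩, hj3⟩ := hA.row i k.1
  have h1 : (A * wW f c S) i k = A i j * S j.2 k.2 := by
    rw [Matrix.mul_apply, Finset.sum_eq_single j]
    · unfold wW
      rw [Matrix.kroneckerMap_apply, hj1, Matrix.one_apply_eq, one_mul]
    · intro l _ hl
      by_cases h2 : l.1 = k.1
      · have h3 : A i l = 0 := by
          by_contra h4
          exact hl (hj3 l ⟨h2, h4⟩)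
        rw [h3, zero_mul]
      · unfold wW
        rw [Matrix.kroneckerMap_apply, Matrix.one_apply_ne h2, zero_mul, mul_zero]
    · intro h
      exact absurd (Finset.mem_univ j) h
  rw [h1]
  rcases hA.tri i j with h | h | h
  · exact absurd h hj2
  · rcases hS.1 j.2 k.2 with h' | h' <;> rw [h, h'] <;> norm_num
  · rcases hS.1 j.2 k.2 with h' | h' <;> rw [h, h'] <;> norm_num

/-- The determinant part of the bound for weighted structures. -/
theorem wdet_of {f c L r : ℕ} [NeZero (2 * (L + r))] (hL : 0 < L)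
    {v : ZMod (2 * (L + r)) → ℝ} (hv0 : ∀ x, x.val < 2 * (L + r) - r → v x = 0)
    (hv1 : ∀ x, 2 * (L + r) - r ≤ x.val → v x = 1 ∨ v x = -1)
    (hv2 : ((circulant v * (circulant v)ᵀ) * (circulant v * (circulant v)ᵀ)).trace ≤
      3 * ((2 * (L + r) : ℕ) : ℝ) * (r : ℝ) ^ 2)
    {Q : ℕ → Matrix (Ix f c) (Ix f c) ℤ}
    (full : ∀ j < 2 * (L + r), Full (Prod.fst : Ix f c → ZMod (2 ^ f)) (Q j))
    (hcyc : ∀ s t : ZMod (2 * (L + r)), ∑ x : ZMod (2 * (L + r)),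
      ((Q (x - s).val).map (Int.cast : ℤ → ℝ)) * ((Q (x - t).val).map (Int.cast : ℤ → ℝ))ᵀ =
      (2 * 2 ^ f * ((if s = t then (L : ℝ) else 0) + (circulant v * (circulant v)ᵀ) s t)) •
        (1 : Matrix (Ix f c) (Ix f c) ℝ)) :
    Real.exp (-(3 / 4 * 2 ^ (f + c) * ((2 * (L + r) : ℕ) : ℝ) * (r : ℝ) ^ 2 / (L : ℝ) ^ 2)) ≤
      rDet (2 ^ (f + c) * (2 * (L + r))) := by
  classical
  have h1 : HadOrder (2 ^ c) := by
    have := HadOrder.one.two_pow_mul c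
    rwa [mul_one] at this
  obtain ⟨S, hS⟩ := h1
  have hLR : (0 : ℝ) < L := by exact_mod_cast hL
  -- the matrix
  let H0 : Matrix (ZMod (2 * (L + r)) × Ix f c) (ZMod (2 * (L + r)) × Ix f c) ℤ :=
    fun p q => (Q (q.1 - p.1).val * wW f c S) p.2 q.2
  obtain ⟨H, hH⟩ : ∃ H : Matrix (ZMod (2 * (L + r)) × Ix f c) (ZMod (2 * (L + r)) × Ix f c) ℝ,
      H = H0.map (Int.cast : ℤ → ℝ) := ⟨_, rfl⟩
  have hpm : ∀ p q, H p q = 1 ∨ H p q = -1 := by
    intro p q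
    have h2 := wW_entry hS (full _ (ZMod.val_lt (q.1 - p.1))) p.2 q.2
    rw [hH, Matrix.map_apply]
    rcases h2 with h3 | h3
    · left
      change ((Q (q.1 - p.1).val * wW f c S) p.2 q.2 : ℝ) = 1
      rw [h3, Int.cast_one]
    · right
      change ((Q (q.1 - p.1).val * wW f c S) p.2 q.2 : ℝ) = -1
      rw [h3]
      norm_num
  obtain ⟨X, hX⟩ : ∃ X : Matrix (ZMod (2 * (L + r))) (ZMod (2 * (L + r))) ℝ,
      X = (L : ℝ)⁻¹ • (circulant v * (circulant v)ᵀ) := ⟨_, rfl⟩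
  obtain ⟨Γ, hΓ⟩ : ∃ Γ : Matrix (ZMod (2 * (L + r))) (ZMod (2 * (L + r))) ℝ,
      Γ = (2 * 2 ^ (f + c) * (L : ℝ)) • (1 + X) := ⟨_, rfl⟩
  have hHH : H * Hᵀ = Γ ⊗ₖ (1 : Matrix (Ix f c) (Ix f c) ℝ) := by
    ext ⟨s, i⟩ ⟨t, j⟩
    have h2 : (H * Hᵀ) (s, i) (t, j) = (2 : ℝ) ^ c * ((∑ x : ZMod (2 * (L + r)),
        ((Q (x - s).val).map (Int.cast : ℤ → ℝ)) *
          ((Q (x - t).val).map (Int.cast : ℤ → ℝ))ᵀ) i j) := by
      rw [Matrix.mul_apply, Fintype.sum_prod_type, Matrix.sum_apply, Finset.mul_sum]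
      refine Finset.sum_congr rfl fun x _ => ?_
      have h3 : ((2 ^ c : ℕ) : ℤ) • (Q (x - s).val * (Q (x - t).val)ᵀ) =
          (Q (x - s).val * wW f c S) * (Q (x - t).val * wW f c S)ᵀ := by
        rw [Matrix.transpose_mul, Matrix.mul_assoc, ← Matrix.mul_assoc (wW f c S),
          wW_mul hS, Matrix.smul_mul, Matrix.one_mul, Matrix.mul_smul]
      have h4 := congrFun (congrFun h3 i) j
      rw [Matrix.smul_apply, Matrix.mul_apply, Matrix.mul_apply, smul_eq_mul] at h4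
      have h5 := congrArg (Int.cast : ℤ → ℝ) h4
      push_cast at h5
      rw [Matrix.mul_apply]
      simp only [Matrix.map_apply, Matrix.transpose_apply, hH] at h5 ⊢
      rw [h5]
    rw [h2, hcyc s t, Matrix.kroneckerMap_apply, hΓ, hX, Matrix.smul_apply, Matrix.smul_apply,
      Matrix.add_apply, Matrix.smul_apply, smul_eq_mul, smul_eq_mul, smul_eq_mul]
    have h6 : (1 : Matrix (ZMod (2 * (L + r))) (ZMod (2 * (L + r))) ℝ) s t =
        if s = t then 1 else 0 := Matrix.one_apply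
    rw [h6, pow_add]
    split_ifs
    · field_simp
    · field_simp
      ring
  have hdetH : H.det ^ 2 = Γ.det ^ (2 ^ (f + c)) := by
    have h2 := congrArg Matrix.det hHH
    rw [Matrix.det_mul, Matrix.det_transpose, Matrix.det_kronecker, Matrix.det_one, one_pow,
      mul_one] at h2
    have h3 : Fintype.card (Ix f c) = 2 ^ (f + c) := by
      rw [Fintype.card_prod, ZMod.card, Fintype.card_fin, pow_add]
    rw [h3] at h2
    rw [sq]
    exact h2
  -- the determinant of `Γ`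
  have hXpsd : X.PosSemidef := by
    have h1 : (circulant v * (circulant v)ᵀ).PosSemidef := by
      have := Matrix.posSemidef_self_mul_conjTranspose (circulant v)
      rwa [Matrix.conjTranspose_eq_transpose_of_trivial] at this
    rw [hX]
    exact h1.smul (by positivity)
  have hdet := Pool.Agent.MaxDetLI.det_one_add_ge X hXpsd
  obtain ⟨N, hN⟩ : ∃ N : ℕ, N = 2 * (L + r) := ⟨_, rfl⟩
  have hNR : (((2 * (L + r) : ℕ)) : ℝ) = (N : ℝ) := by rw [hN]
  have htr : X.trace = (N : ℝ) * r / L := by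
    rw [hX, Matrix.trace_smul, HadLI.trace_circ,
      HadLI.sum_sq (2 * (L + r) - r) r (by omega) v hv0 hv1, smul_eq_mul, hNR]
    field_simp
  have htr2 : (X * X).trace ≤ 3 * (N : ℝ) * (r : ℝ) ^ 2 / (L : ℝ) ^ 2 := by
    rw [hX, Matrix.smul_mul, Matrix.mul_smul, smul_smul, Matrix.trace_smul, smul_eq_mul,
      div_eq_inv_mul]
    have h1 : (L : ℝ)⁻¹ * (L : ℝ)⁻¹ = ((L : ℝ) ^ 2)⁻¹ := by rw [sq, mul_inv]
    rw [h1]
    rw [hNR] at hv2
    exact mul_le_mul_of_nonneg_left hv2 (by positivity)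
  obtain ⟨D, hD⟩ : ∃ D : ℕ, D = 2 ^ (f + c) := ⟨_, rfl⟩
  have hDR : ((2 : ℝ) ^ (f + c)) = (D : ℝ) := by
    rw [hD]
    push_cast
    rfl
  have hD0 : (0 : ℝ) < D := by
    rw [← hDR]
    positivity
  rw [hDR] at hΓ
  rw [← hD] at hdetH
  rw [hDR, hNR, ← hD]
  obtain ⟨E, hE⟩ : ∃ E : ℝ, E = 3 * (N : ℝ) * (r : ℝ) ^ 2 / (L : ℝ) ^ 2 := ⟨_, rfl⟩
  obtain ⟨P, hP⟩ : ∃ P : ℝ, P = (2 * (D : ℝ) * L) ^ N * Real.exp ((N : ℝ) * r / L - E / 2) :=
    ⟨_, rfl⟩
  have hP0 : 0 < P := by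
    rw [hP]
    positivity
  have hΓdet : P ≤ Γ.det := by
    rw [hΓ, Matrix.det_smul, ZMod.card, hP, hN]
    refine mul_le_mul_of_nonneg_left (le_trans ?_ hdet) (by positivity)
    rw [Real.exp_le_exp, htr, hNR]
    rw [← hE] at htr2
    linarith
  have hNe : (N : ℝ) = 2 * ((L : ℝ) + r) := by
    rw [hN]
    push_cast
    ring
  -- comparison with the order
  obtain ⟨R, hR⟩ : ∃ R : ℝ, R = ((D * (2 * (L + r)) : ℕ) : ℝ) := ⟨_, rfl⟩
  have hRe : R = (2 * (D : ℝ) * L) * (1 + r / L) := by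
    rw [hR]
    push_cast
    field_simp
  have hR0 : 0 < R := by
    rw [hRe]
    positivity
  have hPR : R ^ N * Real.exp (-(E / 2)) ≤ P := by
    have h7 : 1 + (r : ℝ) / L ≤ Real.exp ((r : ℝ) / L) := by
      rw [add_comm]
      exact Real.add_one_le_exp _
    have h8 : (1 + (r : ℝ) / L) ^ N ≤ Real.exp ((N : ℝ) * r / L) := by
      refine (pow_le_pow_left₀ (by positivity) h7 N).trans (le_of_eq ?_)
      rw [← Real.exp_nat_mul, mul_div_assoc]
    rw [hP, hRe, mul_pow, sub_eq_add_neg, Real.exp_add, mul_assoc]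
    refine mul_le_mul_of_nonneg_left ?_ (by positivity)
    exact mul_le_mul_of_nonneg_right h8 (Real.exp_nonneg _)
  have hle : |H.det| ≤ maxDet (D * (2 * (L + r))) := by
    have e : (ZMod (2 * (L + r)) × Ix f c) ≃ Fin (D * (2 * (L + r))) :=
      Fintype.equivFinOfCardEq (by
        rw [Fintype.card_prod, Fintype.card_prod, ZMod.card, ZMod.card, Fintype.card_fin, hD,
          pow_add]
        ring)
    have h1 := le_maxDet (H.submatrix e.symm e.symm) (fun i j => hpm _ _)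
    rwa [Matrix.det_submatrix_equiv_self] at h1
  have hpow : (((D * (2 * (L + r)) : ℕ)) : ℝ) ^ ((((D * (2 * (L + r)) : ℕ)) : ℝ) / 2) =
      R ^ (D * (L + r)) := by
    have h1 : (((D * (2 * (L + r)) : ℕ)) : ℝ) / 2 = ((D * (L + r) : ℕ) : ℝ) := by
      push_cast
      ring
    rw [h1, Real.rpow_natCast, hR]
  rw [rDet, hpow, le_div_iff₀ (by positivity)]
  refine le_trans ?_ hle
  have h9 : (Real.exp (-(3 / 4 * (D : ℝ) * N * (r : ℝ) ^ 2 / (L : ℝ) ^ 2)) * R ^ (D * (L + r))) ^ 2 =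
      (R ^ N * Real.exp (-(E / 2))) ^ D := by
    rw [mul_pow, mul_pow, ← Real.exp_nat_mul, ← Real.exp_nat_mul, ← pow_mul, ← pow_mul, mul_comm]
    congr 1
    · congr 1
      rw [hN]
      ring
    · congr 1
      rw [hE]
      push_cast
      ring
  have h10 : (Real.exp (-(3 / 4 * (D : ℝ) * N * (r : ℝ) ^ 2 / (L : ℝ) ^ 2)) * R ^ (D * (L + r))) ^ 2 ≤
      |H.det| ^ 2 := by
    rw [h9, sq_abs, hdetH]
    exact pow_le_pow_left₀ (by positivity) (hPR.trans hΓdet) D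
  exact (sq_le_sq₀ (by positivity) (abs_nonneg _)).1 h10

/-- The determinant bound for weighted structures. -/
theorem WAv.rDet {f c L r : ℕ} [NeZero (2 * (L + r))] (hL : 0 < L)
    {v : ZMod (2 * (L + r)) → ℝ} (hv0 : ∀ x, x.val < 2 * (L + r) - r → v x = 0)
    (hv1 : ∀ x, 2 * (L + r) - r ≤ x.val → v x = 1 ∨ v x = -1)
    (hv2 : ((circulant v * (circulant v)ᵀ) * (circulant v * (circulant v)ᵀ)).trace ≤
      3 * ((2 * (L + r) : ℕ) : ℝ) * (r : ℝ) ^ 2)
    (h : WAv f c L r v) :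
    Real.exp (-(3 / 4 * 2 ^ (f + c) * ((2 * (L + r) : ℕ) : ℝ) * (r : ℝ) ^ 2 / (L : ℝ) ^ 2)) ≤
      HadCalc.rDet (2 ^ (f + c) * (2 * (L + r))) := by
  obtain ⟨Q, hQ⟩ := h
  refine wdet_of hL hv0 hv1 hv2 hQ.full fun s t => ?_
  exact cyc_sum Q v (L : ℝ) (2 * 2 ^ f) hQ.norm s t

end HadCalc
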