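import Pool.Agent.Lib_MP_008adc_li.BFin
import Pool.Agent.Lib_MP_008adc_li.GGarb
import Pool.Agent.Lib_MP_008adc_li.GolAv
import Pool.Agent.Lib_MP_008adc_li.WDetB

/-!
# Structures, garbage and the determinant: the main bound
-/

set_option autoImplicit false

namespace HadCalc

/-- A structure of length `L` gives `rDet n ≥ exp (-(3/4) n r ^ 2 / L ^ 2)` for the order
`n = 2 D (L + r)`, `D = 2 ^ (c + 3 f + 5)`. -/
theorem rDet_av (f c L r : ℕ) (hL : 0 < L) (hA : Av f c L) :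
    Real.exp (-(3 / 4 * 2 ^ (c + 3 * f + 5) * ((2 * (L + r) : ℕ) : ℝ) * (r : ℝ) ^ 2 /
      (L : ℝ) ^ 2)) ≤ rDet (2 ^ (c + 3 * f + 5) * (2 * (L + r))) := by
  have _ : NeZero (2 * (L + r)) := ⟨by omega⟩
  obtain ⟨v, hv0, hv1, hv2⟩ := Pool.Agent.MaxDetLI.garbage (2 * (L + r)) r (by omega)
  have h := WAv.rDet hL hv0 hv1 hv2 (WAv.of_av hL hA v hv0 hv1)
  have e : f + 1 + (c + 2 * f + 4) = c + 3 * f + 5 := by ring
  rw [e] at h
  exact h

/-- If `Av f c L` then `r(n)` is bounded below for `n` in an interval of length `(K N) ^ (1 / 2)` to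
the right of `N = 2 D L`. -/
theorem rDet_av_interval (f c L K n : ℕ) (hL : 0 < L) (hK : 0 < K) (hA : Av f c L)
    (hn : 2 * 2 ^ (c + 3 * f + 5) * L ≤ n)
    (hd : (n - 2 * 2 ^ (c + 3 * f + 5) * L) ^ 2 ≤ K * (2 * 2 ^ (c + 3 * f + 5) * L)) :
    (1 / 5 : ℝ) ^ (K ^ 2 + 2 * 2 ^ (c + 3 * f + 5)) ≤ rDet n :=
  li_av rDet_av hL hA hK hn hd

/-- `r(n)` is bounded below for `n` in an interval of length `(K N) ^ (1 / 2)` to the right of a sum
`N` of at most `B` powers of two. -/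
theorem rDet_bits (B K : ℕ) :
    ∃ c : ℝ, 0 < c ∧ ∀ (l : List ℕ) (n : ℕ), l.length ≤ B → l ≠ [] →
      (l.map (2 ^ ·)).sum ≤ n → (n - (l.map (2 ^ ·)).sum) ^ 2 ≤ K * (l.map (2 ^ ·)).sum →
      c ≤ rDet n :=
  li_bits rDet_av av_two_pow B K

end HadCalc
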