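import Pool.Agent.Lib_MP_008adc_li.BMain

/-!
# Long intervals near sums of boundedly many numbers `2 ^ a m` with `m < tow j`
-/

set_option autoImplicit false

namespace HadCalc

open Matrix

theorem Av.zero_len (f c : ℕ) : Av f c 0 := by
  refine ⟨fun _ => 0, ⟨fun j hj => absurd hj (Nat.not_lt_zero j), fun z _ => ?_⟩⟩
  simp [ev]

/-- the high part of `2 ^ a m` relative to `2 ^ s` -/
def hiP (s : ℕ) (x : ℕ × ℕ) : ℕ × ℕ :=
  if s ≤ x.1 then (x.1 - s, x.2) else (0, 2 ^ x.1 * x.2 / 2 ^ s)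

/-- the low part of `2 ^ a m` relative to `2 ^ s` -/
def loP (s : ℕ) (x : ℕ × ℕ) : ℕ := if s ≤ x.1 then 0 else 2 ^ x.1 * x.2 % 2 ^ s

theorem hilo (s : ℕ) (x : ℕ × ℕ) :
    2 ^ x.1 * x.2 = 2 ^ s * (2 ^ (hiP s x).1 * (hiP s x).2) + loP s x := by
  unfold hiP loP
  by_cases h : s ≤ x.1
  · rw [if_pos h, if_pos h, add_zero, ← mul_assoc, ← pow_add]
    congr 2
    omega
  · rw [if_neg h, if_neg h]
    simp only [pow_zero, one_mul]
    exact (Nat.div_add_mod _ _).symm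

theorem loP_lt (s : ℕ) (x : ℕ × ℕ) : loP s x < 2 ^ s := by
  unfold loP
  split_ifs
  · positivity
  · exact Nat.mod_lt _ (by positivity)

theorem hiP_le (s : ℕ) (x : ℕ × ℕ) : (hiP s x).2 ≤ x.2 := by
  unfold hiP
  by_cases h : s ≤ x.1
  · rw [if_pos h]
  · rw [if_neg h]
    apply Nat.div_le_of_le_mul
    exact Nat.mul_le_mul_right _ (Nat.pow_le_pow_right (by norm_num) (by omega))

theorem sum_hilo (s : ℕ) (l : List (ℕ × ℕ)) :
    (l.map (fun x => 2 ^ x.1 * x.2)).sum =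
      2 ^ s * (l.map (fun x => 2 ^ (hiP s x).1 * (hiP s x).2)).sum + (l.map (loP s)).sum := by
  induction l with
  | nil => simp
  | cons x l ih =>
    rw [List.map_cons, List.sum_cons, List.map_cons, List.sum_cons, List.map_cons, List.sum_cons,
      ih, hilo s x, mul_add]
    have h := hilo s x
    omega

theorem sum_loP_le (s : ℕ) (l : List (ℕ × ℕ)) : (l.map (loP s)).sum ≤ l.length * 2 ^ s := by
  induction l with
  | nil => simp
  | cons x l ih =>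
    rw [List.map_cons, List.sum_cons, List.length_cons]
    have h1 := loP_lt s x
    have h2 : (l.length + 1) * 2 ^ s = l.length * 2 ^ s + 2 ^ s := by ring
    rw [h2]
    omega

theorem av_high_star {T M : ℕ} (hA : ∀ m : ℕ, 0 < m → m < M → ∀ e, Av T T (2 ^ (e + T + 1) * m))
    (l : List (ℕ × ℕ)) (hl : ∀ x ∈ l, x.2 < M) :
    Av (T + 1) (l.length * (2 * T + 2)) (2 ^ (T + 2) * (l.map (fun x => 2 ^ x.1 * x.2)).sum) := by
  have h := Av.sum_list (f := T) (l.map (fun x => ((T, 2 ^ (x.1 + T + 1) * x.2) : ℕ × ℕ))) (by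
    intro y hy
    obtain ⟨x, hx, rfl⟩ := List.mem_map.1 hy
    rcases Nat.eq_zero_or_pos x.2 with h0 | h0
    · change Av T T (2 ^ (x.1 + T + 1) * x.2)
      rw [h0, mul_zero]
      exact Av.zero_len T T
    · exact hA x.2 h0 (hl x hx) x.1)
  have h1 : ∀ l : List (ℕ × ℕ), ((l.map (fun x => ((T, 2 ^ (x.1 + T + 1) * x.2) : ℕ × ℕ))).map
      (fun x => x.1 + T + 2)).sum = l.length * (2 * T + 2) := by
    intro l
    induction l with
    | nil => simp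
    | cons a l ih =>
      rw [List.map_cons, List.map_cons, List.sum_cons, List.length_cons, ih]
      ring
  have h2 : ∀ l : List (ℕ × ℕ), 2 * ((l.map (fun x => ((T, 2 ^ (x.1 + T + 1) * x.2) : ℕ × ℕ))).map
      Prod.snd).sum = 2 ^ (T + 2) * (l.map (fun x => 2 ^ x.1 * x.2)).sum := by
    intro l
    induction l with
    | nil => simp
    | cons a l ih =>
      rw [List.map_cons, List.map_cons, List.sum_cons, List.map_cons, List.sum_cons, mul_add, ih]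
      change 2 * (2 ^ (a.1 + T + 1) * a.2) + _ = _
      ring
  rw [h1, h2] at h
  exact h

/-- the main estimate with `T` in place of `C ^ j` -/
theorem sums_core {T M : ℕ} (hT : 0 < T)
    (hA : ∀ m : ℕ, 0 < m → m < M → ∀ e, Av T T (2 ^ (e + T + 1) * m))
    {B K n : ℕ} (hB : 0 < B) (hK : 0 < K) (l : List (ℕ × ℕ)) (hl : ∀ x ∈ l, x.2 < M)
    (hlB : l.length ≤ B) (hn0 : 0 < n) (hn : (l.map (fun x => 2 ^ x.1 * x.2)).sum ≤ n)
    (hd : (n - (l.map (fun x => 2 ^ x.1 * x.2)).sum) ^ 2 ≤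
      K * (l.map (fun x => 2 ^ x.1 * x.2)).sum) :
    (1 / 5 : ℝ) ^ (K ^ 2 * 2 ^ (B * (49 * T))) ≤ rDet n := by
  have h5 : (0 : ℝ) ≤ 1 / 5 := by norm_num
  have h51 : (1 / 5 : ℝ) ≤ 1 := by norm_num
  obtain ⟨c, hc⟩ : ∃ c, c = B * (2 * T + 2) := ⟨_, rfl⟩
  obtain ⟨s, hs⟩ : ∃ s, s = c + 4 * T + 11 := ⟨_, rfl⟩
  have hBT : T ≤ B * T := Nat.le_mul_of_pos_left _ hB
  have hBT' : B ≤ B * T := Nat.le_mul_of_pos_right _ hT
  have hcT : c = 2 * (B * T) + 2 * B := by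
    rw [hc]
    ring
  have hsT : 2 * s + 4 * B + 7 ≤ B * (49 * T) := by
    have h1 : B * (49 * T) = 49 * (B * T) := by ring
    rw [h1]
    omega
  -- numbers
  have hBpow : B ≤ 2 ^ B := (Nat.lt_two_pow_self (n := B)).le
  obtain ⟨K', hK'⟩ : ∃ K', K' = 2 * B ^ 2 * 2 ^ s + 2 * K * (1 + B) + 1 := ⟨_, rfl⟩
  have hs1 : 1 ≤ 2 ^ s := Nat.one_le_two_pow
  have hKK' : K' ≤ 8 * (K * (B ^ 2 * 2 ^ s)) := by
    have e1 : B ≤ B ^ 2 := by nlinarith
    have e2 : B ^ 2 * 2 ^ s ≤ K * (B ^ 2 * 2 ^ s) := Nat.le_mul_of_pos_left _ hK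
    have e3 : B ^ 2 ≤ B ^ 2 * 2 ^ s := Nat.le_mul_of_pos_right _ hs1
    have e4 : K * B ≤ K * (B ^ 2 * 2 ^ s) := Nat.mul_le_mul_left _ (e1.trans e3)
    have e5 : K * 1 ≤ K * B := Nat.mul_le_mul_left _ hB
    have e6 : 1 ≤ K * B := Nat.mul_pos hK hB
    have e7 : K' = 2 * (B ^ 2 * 2 ^ s) + 2 * K + 2 * (K * B) + 1 := by
      rw [hK']
      ring
    omega
  have hKK2 : K' ^ 2 ≤ K ^ 2 * 2 ^ (2 * s + 4 * B + 6) := by
    have e1 : B ^ 4 ≤ 2 ^ (4 * B) := by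
      calc B ^ 4 ≤ (2 ^ B) ^ 4 := Nat.pow_le_pow_left hBpow 4
        _ = 2 ^ (4 * B) := by rw [← pow_mul]; congr 1; ring
    calc K' ^ 2 ≤ (8 * (K * (B ^ 2 * 2 ^ s))) ^ 2 := Nat.pow_le_pow_left hKK' 2
      _ = K ^ 2 * (64 * (2 ^ (2 * s) * B ^ 4)) := by
          rw [two_mul s, pow_add]
          ring
      _ ≤ K ^ 2 * (64 * (2 ^ (2 * s) * 2 ^ (4 * B))) :=
          Nat.mul_le_mul_left _ (Nat.mul_le_mul_left _ (Nat.mul_le_mul_left _ e1))
      _ = K ^ 2 * 2 ^ (2 * s + 4 * B + 6) := by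
          rw [pow_add, pow_add]
          ring
  have hK2 : 1 ≤ K ^ 2 := Nat.one_le_pow _ _ hK
  -- the list
  obtain ⟨N, hN⟩ : ∃ N, N = (l.map (fun x => 2 ^ x.1 * x.2)).sum := ⟨_, rfl⟩
  rw [← hN] at hn hd
  obtain ⟨d, hdn⟩ : ∃ d, n = N + d := ⟨n - N, by omega⟩
  have hd2 : d ^ 2 ≤ K * N := by
    have : n - N = d := by omega
    rwa [this] at hd
  have hNs := sum_hilo s l
  rw [← hN] at hNs
  obtain ⟨lo, hlo⟩ : ∃ lo, lo = (l.map (loP s)).sum := ⟨_, rfl⟩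
  obtain ⟨S, hS⟩ : ∃ S, S = (l.map (fun x => 2 ^ (hiP s x).1 * (hiP s x).2)).sum := ⟨_, rfl⟩
  rw [← hlo, ← hS] at hNs
  have hlole : lo ≤ B * 2 ^ s := by
    rw [hlo]
    exact (sum_loP_le s l).trans (Nat.mul_le_mul_right _ hlB)
  have hfinal : K' ^ 2 + 2 * 2 ^ (c + 3 * (T + 1) + 5) ≤ K ^ 2 * 2 ^ (B * (49 * T)) := by
    have e1 : 2 ^ (2 * s + 4 * B + 7) ≤ 2 ^ (B * (49 * T)) :=
      Nat.pow_le_pow_right (by norm_num) hsT
    have e2 : 2 * 2 ^ (c + 3 * (T + 1) + 5) ≤ 2 ^ (2 * s + 4 * B + 6) := by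
      rw [← pow_succ']
      exact Nat.pow_le_pow_right (by norm_num) (by omega)
    have e3 : 2 ^ (2 * s + 4 * B + 6) ≤ K ^ 2 * 2 ^ (2 * s + 4 * B + 6) :=
      Nat.le_mul_of_pos_left _ hK2
    have e4 : K ^ 2 * 2 ^ (2 * s + 4 * B + 7) ≤ K ^ 2 * 2 ^ (B * (49 * T)) :=
      Nat.mul_le_mul_left _ e1
    have e5 : K ^ 2 * 2 ^ (2 * s + 4 * B + 7) = 2 * (K ^ 2 * 2 ^ (2 * s + 4 * B + 6)) := by
      rw [pow_succ 2 (2 * s + 4 * B + 6)]
      ring
    omega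
  rcases Nat.eq_zero_or_pos S with hS0 | hS0
  · -- no high part
    rw [hS0, mul_zero, zero_add] at hNs
    have h2 : d ≤ K * N := by
      rcases Nat.eq_zero_or_pos d with h0 | h0
      · rw [h0]
        exact Nat.zero_le _
      · nlinarith
    have h3 : (K + 1) * N ≤ (K + 1) * (B * 2 ^ s) := Nat.mul_le_mul_left _ (by omega)
    have h4 : (K + 1) * N = K * N + N := by ring
    have h6 : (1 / 5 : ℝ) ^ (n - 1) ≤ rDet n := rDet_lower5 Nat.one_pos (by omega) hadOrder_one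
    have h7 : (K + 1) * (B * 2 ^ s) ≤ K ^ 2 * 2 ^ (B * (49 * T)) := by
      have e1 : K + 1 ≤ 2 * K ^ 2 := by nlinarith
      have e2 : (K + 1) * (B * 2 ^ s) ≤ 2 * K ^ 2 * (2 ^ B * 2 ^ s) :=
        Nat.mul_le_mul e1 (Nat.mul_le_mul_right _ hBpow)
      have e3 : 2 * K ^ 2 * (2 ^ B * 2 ^ s) = K ^ 2 * 2 ^ (B + s + 1) := by
        rw [pow_succ, pow_add]
        ring
      have e4 : K ^ 2 * 2 ^ (B + s + 1) ≤ K ^ 2 * 2 ^ (B * (49 * T)) :=
        Nat.mul_le_mul_left _ (Nat.pow_le_pow_right (by norm_num) (by omega))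
      omega
    exact (pow_le_pow_of_le_one h5 h51 (by omega)).trans h6
  · -- the high part is not empty
    have hAv : Av (T + 1) c (2 ^ (T + 2) * S) := by
      have h := av_high_star hA (l.map (hiP s)) (by
        intro y hy
        obtain ⟨x, hx, rfl⟩ := List.mem_map.1 hy
        exact lt_of_le_of_lt (hiP_le s x) (hl x hx))
      rw [List.length_map, List.map_map] at h
      have h1 : (l.map ((fun x : ℕ × ℕ => 2 ^ x.1 * x.2) ∘ hiP s)).sum = S := by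
        rw [hS]
        rfl
      rw [h1] at h
      refine h.mono le_rfl ?_
      rw [hc]
      exact Nat.mul_le_mul_right _ hlB
    have hD : 2 * 2 ^ (c + 3 * (T + 1) + 5) * (2 ^ (T + 2) * S) = 2 ^ s * S := by
      have e1 : s = 1 + (c + 3 * (T + 1) + 5) + (T + 2) := by omega
      rw [e1, pow_add 2 (1 + (c + 3 * (T + 1) + 5)) (T + 2), pow_add 2 1]
      ring
    have ha : 2 ^ s ≤ 2 ^ s * S := Nat.le_mul_of_pos_right _ hS0
    have hcond : (n - 2 * 2 ^ (c + 3 * (T + 1) + 5) * (2 ^ (T + 2) * S)) ^ 2 ≤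
        K' * (2 * 2 ^ (c + 3 * (T + 1) + 5) * (2 ^ (T + 2) * S)) := by
      rw [hD]
      obtain ⟨a, haa⟩ : ∃ a, a = 2 ^ s * S := ⟨_, rfl⟩
      rw [← haa] at ha hNs ⊢
      have e1 : n - a = lo + d := by omega
      rw [e1]
      have e2 : (lo + d) ^ 2 ≤ 2 * lo ^ 2 + 2 * d ^ 2 := by
        zify
        nlinarith [sq_nonneg ((lo : ℤ) - d)]
      have e3 : lo ^ 2 ≤ (B * 2 ^ s) ^ 2 := Nat.pow_le_pow_left hlole 2
      have e4 : (B * 2 ^ s) ^ 2 ≤ B ^ 2 * 2 ^ s * a := by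
        calc (B * 2 ^ s) ^ 2 = B ^ 2 * 2 ^ s * 2 ^ s := by ring
          _ ≤ B ^ 2 * 2 ^ s * a := Nat.mul_le_mul_left _ ha
      have e5 : K * N ≤ K * (1 + B) * a := by
        rw [hNs]
        have e6 : B * 2 ^ s ≤ B * a := Nat.mul_le_mul_left _ ha
        calc K * (a + lo) ≤ K * (a + B * a) := Nat.mul_le_mul_left _ (by omega)
          _ = K * (1 + B) * a := by ring
      have e7 : K' * a = 2 * (B ^ 2 * 2 ^ s * a) + 2 * (K * (1 + B) * a) + a := by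
        rw [hK']
        ring
      omega
    have h := rDet_av_interval (T + 1) c (2 ^ (T + 2) * S) K' n (by positivity) (by omega) hAv
      (by rw [hD]; omega) hcond
    exact (pow_le_pow_of_le_one h5 h51 hfinal).trans h

/-- `r(n)` on long intervals near sums of at most `B` numbers `2 ^ a m` with `m < tow j`. -/
theorem sums_star (hS : ∃ C : ℕ, 1 ≤ C ∧ ∀ j m : ℕ, 0 < m → m < tow j → ∀ e,
      Av (C ^ j) (C ^ j) (2 ^ (e + C ^ j + 1) * m)) :
    ∃ C : ℕ, 1 ≤ C ∧ ∀ j B K : ℕ, 0 < B → 0 < K → ∀ (l : List (ℕ × ℕ)) (n : ℕ),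
      (∀ x ∈ l, x.2 < tow j) → l.length ≤ B → 0 < n →
      (l.map (fun x => 2 ^ x.1 * x.2)).sum ≤ n →
      (n - (l.map (fun x => 2 ^ x.1 * x.2)).sum) ^ 2 ≤
        K * (l.map (fun x => 2 ^ x.1 * x.2)).sum →
      (1 / 5 : ℝ) ^ (K ^ 2 * 2 ^ (B * C ^ j)) ≤ rDet n := by
  obtain ⟨C, hC, h⟩ := hS
  refine ⟨49 * C, by omega, fun j B K hB hK l n hl hlB hn0 hn hd => ?_⟩
  have h5 : (0 : ℝ) ≤ 1 / 5 := by norm_num
  have h51 : (1 / 5 : ℝ) ≤ 1 := by norm_num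
  rcases Nat.eq_zero_or_pos j with h0 | h0
  · -- `tow 0 = 1`: the sum is `0`
    exfalso
    subst h0
    have hz : (l.map (fun x => 2 ^ x.1 * x.2)).sum = 0 := by
      apply List.sum_eq_zero
      intro y hy
      obtain ⟨x, hx, rfl⟩ := List.mem_map.1 hy
      have h1 := hl x hx
      have h2 : x.2 = 0 := by
        have h3 : tow 0 = 1 := rfl
        rw [h3] at h1
        omega
      rw [h2, mul_zero]
    rw [hz, mul_zero, Nat.sub_zero] at hd
    have h4 : 0 < n ^ 2 := by positivity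
    omega
  · have hT : 0 < C ^ j := by positivity
    have h1 := sums_core hT (fun m hm hm' e => h j m hm hm' e) hB hK l hl hlB hn0 hn hd
    refine le_trans (pow_le_pow_of_le_one h5 h51 ?_) h1
    refine Nat.mul_le_mul_left _ (Nat.pow_le_pow_right (by norm_num) (Nat.mul_le_mul_left _ ?_))
    rw [mul_pow]
    refine Nat.mul_le_mul_right _ ?_
    calc 49 = 49 ^ 1 := by norm_num
      _ ≤ 49 ^ j := Nat.pow_le_pow_right (by norm_num) h0

/-- `sums_star` for all `B` (for `B = 0` there is nothing to prove). -/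
theorem sums_star' (hS : ∃ C : ℕ, 1 ≤ C ∧ ∀ j m : ℕ, 0 < m → m < tow j → ∀ e,
      Av (C ^ j) (C ^ j) (2 ^ (e + C ^ j + 1) * m)) :
    ∃ C : ℕ, 1 ≤ C ∧ ∀ (j B : ℕ) (l : List (ℕ × ℕ)), l.length ≤ B →
      (∀ x ∈ l, 0 < x.2 ∧ x.2 < tow j) → ∀ K n : ℕ, 0 < K → 0 < n →
      (l.map (fun x => 2 ^ x.1 * x.2)).sum ≤ n →
      (n - (l.map (fun x => 2 ^ x.1 * x.2)).sum) ^ 2 ≤
        K * (l.map (fun x => 2 ^ x.1 * x.2)).sum →
      (1 / 5 : ℝ) ^ (K ^ 2 * 2 ^ (B * C ^ j)) ≤ rDet n := by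
  obtain ⟨C, hC, h⟩ := sums_star hS
  refine ⟨C, hC, fun j B l hlB hl K n hK hn0 hn hd => ?_⟩
  rcases Nat.eq_zero_or_pos B with h0 | h0
  · exfalso
    subst h0
    have h1 : l = [] := List.eq_nil_of_length_eq_zero (Nat.le_zero.1 hlB)
    rw [h1, List.map_nil, List.sum_nil, mul_zero, Nat.sub_zero] at hd
    have h4 : 0 < n ^ 2 := by positivity
    omega
  · exact h j B K h0 hK l n (fun x hx => (hl x hx).2) hlB hn0 hn hd

end HadCalc
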