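import Pool.Agent.Lib_MP_008adc_li.GDefs
import Pool.Agent.Lib_MP_008adc_co.PAdd
import Pool.Agent.Lib_MP_008adc_co.PFin

/-!
# The sum rule and the final step for weighted structures
-/

set_option autoImplicit false

namespace HadCalc

open Matrix
open scoped Kronecker

theorem comm_of_norm {ι : Type} [Fintype ι] [DecidableEq ι] {M : Matrix ι ι ℂ} {t : ℂ} (ht : t ≠ 0)
    (h : M * Mᴴ = t • (1 : Matrix ι ι ℂ)) : Mᴴ * M = t • (1 : Matrix ι ι ℂ) := by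
  have h1 : (t⁻¹ • M) * Mᴴ = 1 := by
    rw [Matrix.smul_mul, h, smul_smul, inv_mul_cancel₀ ht, one_smul]
  have h2 := mul_eq_one_comm.1 h1
  rw [Matrix.mul_smul] at h2
  rw [← h2, smul_smul, mul_inv_cancel₀ ht, one_smul]

theorem WPair.add {ι₀ ι₁ G : Type} [Fintype ι₀] [DecidableEq ι₀] [Fintype ι₁] [DecidableEq ι₁]
    [AddCommGroup G] {cls₀ : ι₀ → G} {cls₁ : ι₁ → G} {h L : ℕ} {X Y : ℕ → Matrix ι₀ ι₀ ℤ}
    {Q : ℕ → Matrix ι₁ ι₁ ℤ} {g₀ g₁ : ℂ → ℂ} (hXY : WPair cls₀ h X Y g₀) (hQ : WGood cls₁ L Q g₁) :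
    WPair (addCls cls₀ cls₁) (h + L) (addX h L X Q) (addY h L Y Q) (fun z => g₀ z + 4 * g₁ z) := by
  have hev : ∀ z : ℂ, ‖z‖ = 1 → ev L Q z * (ev L Q z)ᴴ = (ev L Q z)ᴴ * ev L Q z := by
    intro z hz
    rw [hQ.norm z hz, hQ.norm' z hz]
  have hM0 : ∀ z : ℂ, L = 0 → ev L Q z = 0 := by
    intro z hL
    subst hL
    simp [ev]
  refine ⟨addX_full hXY.fullX hQ.full, addY_full hXY.fullY hQ.full, addX_pal hXY.palX,
    addY_pal hXY.palY, ?_, ?_⟩
  · intro z hz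
    rw [ev_addX h L X Q z hz, ev_addY h L Y Q z hz]
    apply addpair_comm
    · rw [smul_mul_smul_comm, smul_mul_smul_comm, hXY.comm z hz]
    · exact addpair_RV _ _ _ (hev z hz)
  · intro z hz
    rw [ev_addX h L X Q z hz, ev_addY h L Y Q z hz]
    rw [addpair_normX _ _ (addpair_hypX h L _ _ z hz (pal_adjoint hXY.palX z hz) (hM0 z)),
      addpair_normY _ _ (addpair_hypY h L _ _ z hz (antipal_adjoint hXY.palY z hz) (hM0 z))]
    have hzz : (z ^ L) * star (z ^ L) = 1 := by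
      rw [Complex.star_def, Complex.mul_conj, Complex.normSq_eq_norm_sq, norm_pow, hz]
      simp
    have hA : (z ^ L • ev (2 * h) X z) * (z ^ L • ev (2 * h) X z)ᴴ +
        (z ^ L • ev (2 * h) Y z) * (z ^ L • ev (2 * h) Y z)ᴴ =
        g₀ z • (1 : Matrix ι₀ ι₀ ℂ) := by
      rw [conjTranspose_smul, conjTranspose_smul, smul_mul_smul_comm, smul_mul_smul_comm, hzz,
        one_smul, one_smul, hXY.norm z hz]
    have hR := addpair_sum (ev L Q z) (z ^ (L + 2 * h)) (z ^ (L - 1)) (g₁ z)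
      (by rw [norm_pow, hz, one_pow]) (by rw [norm_pow, hz, one_pow]) (hQ.norm z hz)
      (hQ.norm' z hz)
    rw [← add_kronecker, add_add_add_comm, ← add_kronecker, ← kronecker_add, hA, hR,
      smul_kronecker, kronecker_smul, one_kronecker_one, ← add_smul, smul_kronecker,
      one_kronecker_one]

theorem WPair.fin {ι κ : Type} [Fintype ι] [DecidableEq ι] {cls : ι → κ} {h : ℕ}
    {X Y : ℕ → Matrix ι ι ℤ} {g : ℂ → ℂ} (hXY : WPair cls h X Y g)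
    (hg : ∀ z : ℂ, ‖z‖ = 1 → g z ≠ 0) :
    WGood (fun p : ι × Fin 2 => (cls p.1, p.2)) (2 * h)
      (fun j => X j ⊗ₖ (1 : Matrix (Fin 2) (Fin 2) ℤ) + Y j ⊗ₖ sx) g := by
  have key : ∀ z : ℂ, ‖z‖ = 1 →
      ev (2 * h) (fun j => X j ⊗ₖ (1 : Matrix (Fin 2) (Fin 2) ℤ) + Y j ⊗ₖ sx) z *
        (ev (2 * h) (fun j => X j ⊗ₖ (1 : Matrix (Fin 2) (Fin 2) ℤ) + Y j ⊗ₖ sx) z)ᴴ =
      g z • (1 : Matrix (ι × Fin 2) (ι × Fin 2) ℂ) := by
    intro z hz
    obtain ⟨A, hA⟩ : ∃ A, A = ev (2 * h) X z := ⟨_, rfl⟩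
    obtain ⟨B, hB⟩ : ∃ B, B = ev (2 * h) Y z := ⟨_, rfl⟩
    obtain ⟨S, hS⟩ : ∃ S, S = toC sx := ⟨_, rfl⟩
    have hz0 : z ^ (2 * h) ≠ 0 := by
      refine pow_ne_zero _ fun h0 => ?_
      rw [h0, norm_zero] at hz
      exact zero_ne_one hz
    have hev : ev (2 * h) (fun j => X j ⊗ₖ (1 : Matrix (Fin 2) (Fin 2) ℤ) + Y j ⊗ₖ sx) z =
        A ⊗ₖ (1 : Matrix (Fin 2) (Fin 2) ℂ) + B ⊗ₖ S := by
      have h1 : ev (2 * h) (fun j => X j ⊗ₖ (1 : Matrix (Fin 2) (Fin 2) ℤ) + Y j ⊗ₖ sx) z =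
          ev (2 * h) (fun j => X j ⊗ₖ (1 : Matrix (Fin 2) (Fin 2) ℤ)) z +
            ev (2 * h) (fun j => Y j ⊗ₖ sx) z := by
        unfold ev
        rw [← Finset.sum_add_distrib]
        refine Finset.sum_congr rfl fun j _ => ?_
        rw [toC_add, smul_add]
      rw [h1, ev_kron_right, ev_kron_right, toC_one, hA, hB, hS]
    have hSH : Sᴴ = S := by
      rw [hS, toC_conjTranspose]
      congr 1
      decide
    have hSS : S * S = 1 := by
      have h1 : sx * sx = 1 := by decide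
      rw [hS, ← toC_mul, h1, toC_one]
    have hcross : A * Bᴴ + B * Aᴴ = 0 := by
      have h1 := pal_adjoint hXY.palX z hz
      have h2 := antipal_adjoint hXY.palY z hz
      have h3 := hXY.comm z hz
      rw [← hA] at h1
      rw [← hB] at h2
      rw [← hA, ← hB] at h3
      have h4 : z ^ (2 * h) • (A * Bᴴ + B * Aᴴ) = 0 := by
        rw [smul_add, ← Matrix.mul_smul, ← Matrix.mul_smul, h1, h2, Matrix.mul_neg, Matrix.mul_smul,
          Matrix.mul_smul, h3, neg_add_cancel]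
      exact (smul_eq_zero.1 h4).resolve_left hz0
    have hnorm := hXY.norm z hz
    rw [← hA, ← hB] at hnorm
    rw [hev, Matrix.conjTranspose_add, Matrix.conjTranspose_kronecker,
      Matrix.conjTranspose_kronecker, Matrix.conjTranspose_one, hSH, Matrix.mul_add, Matrix.add_mul,
      Matrix.add_mul, ← Matrix.mul_kronecker_mul, ← Matrix.mul_kronecker_mul,
      ← Matrix.mul_kronecker_mul, ← Matrix.mul_kronecker_mul, Matrix.one_mul, Matrix.mul_one,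
      Matrix.one_mul, hSS]
    have e1 : (A * Aᴴ) ⊗ₖ (1 : Matrix (Fin 2) (Fin 2) ℂ) + (B * Aᴴ) ⊗ₖ S +
        ((A * Bᴴ) ⊗ₖ S + (B * Bᴴ) ⊗ₖ (1 : Matrix (Fin 2) (Fin 2) ℂ)) =
        (A * Aᴴ + B * Bᴴ) ⊗ₖ (1 : Matrix (Fin 2) (Fin 2) ℂ) + (A * Bᴴ + B * Aᴴ) ⊗ₖ S := by
      rw [Matrix.add_kronecker, Matrix.add_kronecker]
      abel
    rw [e1, hcross, hnorm, Matrix.zero_kronecker, add_zero, Matrix.smul_kronecker,
      Matrix.one_kronecker_one]
  exact ⟨fun j hj => (hXY.fullX j hj).pair (hXY.fullY j hj), key,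
    fun z hz => comm_of_norm (hg z hz) (key z hz)⟩

theorem WGood.reindex {ι ι' κ κ' : Type} [Fintype ι] [DecidableEq ι] [Fintype ι'] [DecidableEq ι']
    {cls : ι → κ} {cls' : ι' → κ'} (e : ι ≃ ι') (g : κ ≃ κ') (hc : ∀ i, cls' (e i) = g (cls i))
    {L : ℕ} {Q : ℕ → Matrix ι ι ℤ} {w : ℂ → ℂ} (h : WGood cls L Q w) :
    WGood cls' L (fun j => (Q j).submatrix e.symm e.symm) w := by
  refine ⟨fun j hj => (h.full j hj).reindex e g hc, fun z hz => ?_, fun z hz => ?_⟩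
  · rw [ev_submatrix, Matrix.conjTranspose_submatrix, reidx_mul, h.norm z hz, reidx_smul_one]
  · rw [ev_submatrix, Matrix.conjTranspose_submatrix, reidx_mul, h.norm' z hz, reidx_smul_one]

/-- The empty pair. -/
theorem WPair.zero {ι κ : Type} [Fintype ι] [DecidableEq ι] (cls : ι → κ) :
    WPair cls 0 (fun _ => 0) (fun _ => 0) (fun _ => 0) := by
  have h0 : ∀ j, ¬ j < 2 * 0 := fun j hj => by omega
  refine ⟨fun j hj => absurd hj (h0 j), fun j hj => absurd hj (h0 j),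
    fun j hj => absurd hj (h0 j), fun j hj => absurd hj (h0 j), fun z _ => ?_, fun z _ => ?_⟩
  · simp [ev]
  · simp [ev]

theorem Good.toW {ι κ : Type} [Fintype ι] [DecidableEq ι] {cls : ι → κ} {F L : ℕ}
    {Q : ℕ → Matrix ι ι ℤ} (h : Good cls F L Q) :
    WGood cls L Q (fun _ => ((F * L : ℕ) : ℂ)) :=
  ⟨h.full, h.norm, h.norm_comm⟩

end HadCalc
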