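import Pool.Agent.Lib_MP_008adc_co.DetA
import Pool.Agent.Lib_MP_008adc_co.EvA

/-!
# Structures and pairs with a weight function

As `Good` and `GoodPair`, but with `Q(z) Q(z)ᴴ = g(z)` for a function `g`.
-/

set_option autoImplicit false

namespace HadCalc

open Matrix

/-- A structure with the weight function `g`. -/
structure WGood {ι κ : Type} [Fintype ι] [DecidableEq ι] (cls : ι → κ) (L : ℕ)
    (Q : ℕ → Matrix ι ι ℤ) (g : ℂ → ℂ) : Prop where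
  full : ∀ j < L, Full cls (Q j)
  norm : ∀ z : ℂ, ‖z‖ = 1 → ev L Q z * (ev L Q z)ᴴ = g z • (1 : Matrix ι ι ℂ)
  norm' : ∀ z : ℂ, ‖z‖ = 1 → (ev L Q z)ᴴ * ev L Q z = g z • (1 : Matrix ι ι ℂ)

/-- A pair with the weight function `g`. -/
structure WPair {ι κ : Type} [Fintype ι] [DecidableEq ι] (cls : ι → κ) (h : ℕ)
    (X Y : ℕ → Matrix ι ι ℤ) (g : ℂ → ℂ) : Prop where
  fullX : ∀ j < 2 * h, Full cls (X j)
  fullY : ∀ j < 2 * h, Full cls (Y j)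
  palX : ∀ j < 2 * h, (X j)ᵀ = X (2 * h - 1 - j)
  palY : ∀ j < 2 * h, (Y j)ᵀ = -Y (2 * h - 1 - j)
  comm : ∀ z : ℂ, ‖z‖ = 1 →
    ev (2 * h) X z * ev (2 * h) Y z = ev (2 * h) Y z * ev (2 * h) X z
  norm : ∀ z : ℂ, ‖z‖ = 1 →
    ev (2 * h) X z * (ev (2 * h) X z)ᴴ + ev (2 * h) Y z * (ev (2 * h) Y z)ᴴ =
      g z • (1 : Matrix ι ι ℂ)

/-- The polynomial of a real function on `ZMod N`. -/
noncomputable def vpol {N : ℕ} [NeZero N] (v : ZMod N → ℝ) (z : ℂ) : ℂ :=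
  ∑ x : ZMod N, (v x : ℂ) * z ^ x.val

/-- There is a structure of length `2 (L + r)` with `2 ^ f` classes, dimension `2 ^ (f + c)` and
weight `2 2 ^ f (L + |V(z)| ^ 2)`. -/
def WAv (f c L r : ℕ) [NeZero (2 * (L + r))] (v : ZMod (2 * (L + r)) → ℝ) : Prop :=
  ∃ Q : ℕ → Matrix (Ix f c) (Ix f c) ℤ, WGood (Prod.fst : Ix f c → ZMod (2 ^ f)) (2 * (L + r)) Q
    (fun z => ((2 * 2 ^ f * ((L : ℝ) + ‖vpol v z‖ ^ 2) : ℝ) : ℂ))

end HadCalc
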