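import Pool.Agent.Lib_MP_008adc_li.GarbageAv

/-!
# Golay–Rudin–Shapiro pairs as functions on `ZMod q`
-/

set_option autoImplicit false

namespace Pool.Agent.MaxDetLI

open Matrix Finset

variable {q : ℕ} [NeZero q]

/-- the pair of length `2 ^ k` -/
def gol (q : ℕ) : ℕ → (ZMod q → ℝ) × (ZMod q → ℝ)
  | 0 => (fun x => if x = 0 then 1 else 0, fun x => if x = 0 then 1 else 0)
  | k + 1 => (fun x => (gol q k).1 x + (gol q k).2 (x - ((2 ^ k : ℕ) : ZMod q)),
      fun x => (gol q k).1 x - (gol q k).2 (x - ((2 ^ k : ℕ) : ZMod q)))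

theorem gol_fst_succ (k : ℕ) (x : ZMod q) :
    (gol q (k + 1)).1 x = (gol q k).1 x + (gol q k).2 (x - ((2 ^ k : ℕ) : ZMod q)) := rfl

theorem gol_snd_succ (k : ℕ) (x : ZMod q) :
    (gol q (k + 1)).2 x = (gol q k).1 x - (gol q k).2 (x - ((2 ^ k : ℕ) : ZMod q)) := rfl

theorem gol_pac (k : ℕ) (s : ZMod q) :
    pac (gol q k).1 s + pac (gol q k).2 s = if s = 0 then (2 : ℝ) ^ (k + 1) else 0 := by
  induction k with
  | zero =>
    have h : pac (gol q 0).1 s = if s = 0 then 1 else 0 := by
      unfold pac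
      show ∑ x : ZMod q, (if x = 0 then (1 : ℝ) else 0) * (if x + s = 0 then 1 else 0) = _
      rw [Finset.sum_eq_single (0 : ZMod q)]
      · simp
      · intro b _ hb
        rw [if_neg hb, zero_mul]
      · intro h; exact absurd (Finset.mem_univ _) h
    have h' : pac (gol q 0).2 s = if s = 0 then 1 else 0 := h
    rw [h, h']
    split_ifs <;> norm_num
  | succ k ih =>
    have hsh : ∑ x : ZMod q, (gol q k).2 (x - ((2 ^ k : ℕ) : ZMod q)) *
        (gol q k).2 (x + s - ((2 ^ k : ℕ) : ZMod q)) = pac (gol q k).2 s := by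
      unfold pac
      rw [← Equiv.sum_comp (Equiv.subRight ((2 ^ k : ℕ) : ZMod q))
        (fun x => (gol q k).2 x * (gol q k).2 (x + s))]
      refine Finset.sum_congr rfl fun x _ => ?_
      simp only [Equiv.subRight_apply]
      congr 2
      ring
    have h1 : pac (gol q (k + 1)).1 s + pac (gol q (k + 1)).2 s =
        2 * (pac (gol q k).1 s + pac (gol q k).2 s) := by
      rw [← hsh]
      unfold pac
      rw [← Finset.sum_add_distrib, ← Finset.sum_add_distrib, Finset.mul_sum]
      refine Finset.sum_congr rfl fun x _ => ?_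
      rw [gol_fst_succ, gol_fst_succ, gol_snd_succ, gol_snd_succ]
      ring
    rw [h1, ih]
    split_ifs
    · ring
    · ring

theorem gol_val (k : ℕ) (hk : 2 ^ k ≤ q) (x : ZMod q) :
    (x.val < 2 ^ k → ((gol q k).1 x = 1 ∨ (gol q k).1 x = -1) ∧
      ((gol q k).2 x = 1 ∨ (gol q k).2 x = -1)) ∧
    (2 ^ k ≤ x.val → (gol q k).1 x = 0 ∧ (gol q k).2 x = 0) := by
  induction k generalizing x with
  | zero =>
    constructor
    · intro h
      have hx : x = 0 := by
        rw [← ZMod.val_eq_zero]; simpa using h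
      have : (gol q 0).1 x = 1 := by
        show (if x = 0 then (1 : ℝ) else 0) = 1
        rw [if_pos hx]
      exact ⟨Or.inl this, Or.inl this⟩
    · intro h
      have hx : x ≠ 0 := by
        intro h0
        rw [h0, ZMod.val_zero] at h
        simp at h
      have : (gol q 0).1 x = 0 := by
        show (if x = 0 then (1 : ℝ) else 0) = 0
        rw [if_neg hx]
      exact ⟨this, this⟩
  | succ k ih =>
    have hk2 : 2 ^ (k + 1) = 2 ^ k + 2 ^ k := by ring
    have hpos : 0 < 2 ^ k := by positivity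
    have hk' : 2 ^ k ≤ q := by omega
    have hkq : 2 ^ k < q := by omega
    set N : ZMod q := ((2 ^ k : ℕ) : ZMod q) with hN
    have hNv : N.val = 2 ^ k := ZMod.val_natCast_of_lt hkq
    set y : ZMod q := x - N with hy
    have hxy : x = y + N := by rw [hy]; ring
    have h1 : y.val < 2 ^ k → x.val = y.val + 2 ^ k := by
      intro h
      rw [hxy, ZMod.val_add, hNv, Nat.mod_eq_of_lt]
      omega
    have h2 : 2 ^ k ≤ x.val → y.val = x.val - 2 ^ k := by
      intro h
      rw [hy, ZMod.val_sub (by rw [hNv]; exact h), hNv]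
    rw [gol_fst_succ, gol_snd_succ, ← hN, ← hy]
    have ix := ih hk' x
    have iy := ih hk' y
    constructor
    · intro hx
      rcases Nat.lt_or_ge x.val (2 ^ k) with h | h
      · -- first half
        have hyv : 2 ^ k ≤ y.val := by
          by_contra hcon
          push Not at hcon
          have := h1 hcon
          omega
        rw [(iy.2 hyv).2, add_zero, sub_zero]
        exact ⟨(ix.1 h).1, (ix.1 h).1⟩
      · have hyv : y.val < 2 ^ k := by
          rw [h2 h]; omega
        rw [(ix.2 h).1, zero_add, zero_sub]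
        refine ⟨(iy.1 hyv).2, ?_⟩
        rcases (iy.1 hyv).2 with h3 | h3
        · right; rw [h3]
        · left; rw [h3]; norm_num
    · intro hx
      have h : 2 ^ k ≤ x.val := by omega
      have hyv : 2 ^ k ≤ y.val := by
        rw [h2 h]; omega
      rw [(iy.2 hyv).2, (ix.2 h).1]
      norm_num

/-- Golay pairs of length `2 ^ k` in `ZMod q`, `2 ^ k ≤ q` -/
theorem exists_golay (q k : ℕ) [NeZero q] (hk : 2 ^ k ≤ q) : ∃ a b : ZMod q → ℝ,
    (∀ x, x.val < 2 ^ k → (a x = 1 ∨ a x = -1) ∧ (b x = 1 ∨ b x = -1)) ∧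
    (∀ x, 2 ^ k ≤ x.val → a x = 0 ∧ b x = 0) ∧
    (∀ s, pac a s + pac b s = if s = 0 then (2 : ℝ) ^ (k + 1) else 0) ∧
    circulant a * (circulant a)ᵀ + circulant b * (circulant b)ᵀ =
      ((2 : ℝ) ^ (k + 1)) • (1 : Matrix (ZMod q) (ZMod q) ℝ) := by
  refine ⟨(gol q k).1, (gol q k).2, fun x => (gol_val k hk x).1, fun x => (gol_val k hk x).2,
    gol_pac k, ?_⟩
  ext i j
  rw [Matrix.add_apply, circ_mul_transpose, circ_mul_transpose, gol_pac, Matrix.smul_apply,
    Matrix.one_apply, smul_eq_mul]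
  by_cases h : i = j
  · rw [if_pos h, if_pos (by rw [h, sub_self]), mul_one]
  · rw [if_neg h, if_neg (fun h0 => h (sub_eq_zero.1 h0).symm), mul_zero]

end Pool.Agent.MaxDetLI
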