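import Pool.Agent.Lib_MP_008adc_oct.OFin

/-!
# Long intervals: final assembly (piece G6)
-/

set_option autoImplicit false

namespace HadLI

open HadCalc

/-- `ρ` more rows cost at most a factor `5 ^ ρ`. -/
theorem rDet_add_ge {a : ℕ} (ha : 0 < a) (ρ : ℕ) : rDet a * (1 / 5 : ℝ) ^ ρ ≤ rDet (a + ρ) := by
  induction ρ with
  | zero => simp
  | succ ρ ih =>
    have h1 := rDet_succ_ge (n := a + ρ) (by omega)
    have h2 : a + (ρ + 1) = a + ρ + 1 := by omega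
    rw [h2, pow_succ]
    linarith

/-- the numerical estimate of the exponent. -/
theorem li_num {h r L K : ℝ} (hh : 1 ≤ h) (hr : 0 ≤ r) (hrr : r ≤ r ^ 2) (hL : 0 < L) (hK : 1 ≤ K)
    (h1 : 4 * h * r ^ 2 ≤ K * L) : h * (3 * (L + r) * r ^ 2 / L ^ 2) ≤ K ^ 2 := by
  have e1 : h * (3 * (L + r) * r ^ 2 / L ^ 2) = (3 * (h * r ^ 2) * (L + r)) / L ^ 2 := by ring
  rw [e1, div_le_iff₀ (by positivity)]
  have h2 : 4 * r ≤ K * L := by
    have h3 : 4 * r ≤ 4 * h * r ^ 2 := by nlinarith [mul_nonneg (by linarith : (0 : ℝ) ≤ h - 1) (sq_nonneg r)]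
    linarith
  have h4 : 0 ≤ h * r ^ 2 := by positivity
  have hKL : 0 < K * L := by positivity
  have h5 : 3 * (h * r ^ 2) * (L + r) ≤ 3 * (K * L / 4) * (L + K * L / 4) := by
    apply mul_le_mul
    · linarith
    · linarith
    · linarith
    · positivity
  refine h5.trans ?_
  have h6 : 3 * (K * L / 4) * (L + K * L / 4) = (3 / 4 * K + 3 / 16 * K ^ 2) * L ^ 2 := by ring
  rw [h6]
  apply mul_le_mul_of_nonneg_right _ (by positivity)
  nlinarith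

theorem rDet_li_of
    (hG : ∀ k r : ℕ, Real.exp (-(3 * ((2 ^ k + r : ℕ) : ℝ) * (r : ℝ) ^ 2 / ((2 : ℝ) ^ k) ^ 2)) ≤
      HadCalc.rDet (4 * (2 ^ k + r)))
    (hT : ∀ n h : ℕ, 0 < n → 0 < h → HadOrder h → HadCalc.rDet n ^ h ≤ HadCalc.rDet (n * h)) :
    ∃ C : ℕ, 1 ≤ C ∧ ∀ j m : ℕ, 0 < m → m < HadCalc.tow j → ∀ K k n : ℕ, 0 < K →
      2 ^ k * m ≤ n → (n - 2 ^ k * m) ^ 2 ≤ K * (2 ^ k * m) →
      (1 / 5 : ℝ) ^ (8 * K ^ 2 * (2 ^ (C ^ j) * m)) ≤ HadCalc.rDet n := by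
  obtain ⟨C, hC, hH⟩ := hadOrder_star
  refine ⟨C, hC, fun j m hm hmj K k n hK hn hd => ?_⟩
  have hh := hH j m (C ^ j) hm hmj le_rfl
  obtain ⟨t, ht⟩ : ∃ t, t = C ^ j := ⟨_, rfl⟩
  rw [← ht] at hh ⊢
  obtain ⟨h, hh0⟩ : ∃ h, h = 2 ^ t * m := ⟨_, rfl⟩
  rw [← hh0] at hh ⊢
  have hpos : 0 < h := by rw [hh0]; positivity
  have h5 : (0 : ℝ) ≤ 1 / 5 := by norm_num
  have h51 : (1 / 5 : ℝ) ≤ 1 := by norm_num
  obtain ⟨d, hdn⟩ : ∃ d, n = 2 ^ k * m + d := ⟨n - 2 ^ k * m, by omega⟩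
  have hd' : d ^ 2 ≤ K * (2 ^ k * m) := by
    have : n - 2 ^ k * m = d := by omega
    rwa [this] at hd
  have hK2 : K ≤ K ^ 2 := by nlinarith
  rcases Nat.lt_or_ge k (t + 2) with hk | hk
  · -- small `k`
    have h1 : 2 ^ k * m ≤ 2 * h := by
      rw [hh0]
      calc 2 ^ k * m ≤ 2 ^ (t + 1) * m :=
            Nat.mul_le_mul_right _ (Nat.pow_le_pow_right (by norm_num) (by omega))
        _ = 2 * (2 ^ t * m) := by ring
    have hN0 : 0 < 2 ^ k * m := by positivity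
    have h2 : d ≤ K * (2 ^ k * m) := by
      by_contra hc
      push Not at hc
      nlinarith
    have h3 : K * (2 ^ k * m) ≤ K * (2 * h) := Nat.mul_le_mul_left _ h1
    have h4 : n ≤ 8 * K ^ 2 * h := by
      have h6 : K * h ≤ K ^ 2 * h := Nat.mul_le_mul_right _ hK2
      have h7 : 1 * h ≤ K ^ 2 * h := Nat.mul_le_mul_right _ (by omega)
      have h8 : K * (2 * h) = 2 * (K * h) := by ring
      have h9 : 8 * K ^ 2 * h = 8 * (K ^ 2 * h) := by ring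
      omega
    have h6 : (1 / 5 : ℝ) ^ (n - 1) ≤ rDet n :=
      rDet_lower5 Nat.one_pos (by omega) hadOrder_one
    exact (pow_le_pow_of_le_one h5 h51 (by omega)).trans h6
  · -- large `k`
    obtain ⟨s, hs⟩ : ∃ s, k = t + 2 + s := ⟨k - (t + 2), by omega⟩
    have hN0 : 2 ^ k * m = 4 * h * 2 ^ s := by
      rw [hs, hh0, pow_add, pow_add]
      ring
    obtain ⟨r, hr⟩ : ∃ r, r = d / (4 * h) := ⟨_, rfl⟩
    obtain ⟨ρ, hρ⟩ : ∃ ρ, ρ = d % (4 * h) := ⟨_, rfl⟩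
    have hdr : 4 * h * r + ρ = d := by
      rw [hr, hρ]
      exact Nat.div_add_mod d (4 * h)
    have hρlt : ρ < 4 * h := by
      rw [hρ]
      exact Nat.mod_lt _ (by omega)
    have hnq : n = 4 * (2 ^ s + r) * h + ρ := by
      rw [hdn, hN0, ← hdr]
      ring
    have h1 : 4 * h * r ^ 2 ≤ K * 2 ^ s := by
      have h2 : (4 * h * r) ^ 2 ≤ d ^ 2 := Nat.pow_le_pow_left (by omega) 2
      have h3 : 4 * h * (4 * h * r ^ 2) ≤ 4 * h * (K * 2 ^ s) := by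
        calc 4 * h * (4 * h * r ^ 2) = (4 * h * r) ^ 2 := by ring
          _ ≤ d ^ 2 := h2
          _ ≤ K * (2 ^ k * m) := hd'
          _ = 4 * h * (K * 2 ^ s) := by rw [hN0]; ring
      exact Nat.le_of_mul_le_mul_left h3 (by omega)
    have h1R : 4 * (h : ℝ) * (r : ℝ) ^ 2 ≤ K * (2 : ℝ) ^ s := by exact_mod_cast h1
    have hrr : (r : ℝ) ≤ (r : ℝ) ^ 2 := by
      have : r ≤ r ^ 2 := by
        rcases Nat.eq_zero_or_pos r with h0 | h0
        · rw [h0]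
          norm_num
        · nlinarith
      exact_mod_cast this
    have hhR : (1 : ℝ) ≤ h := by exact_mod_cast hpos
    have hKR : (1 : ℝ) ≤ K := by exact_mod_cast hK
    have hnum := li_num (h := (h : ℝ)) (r := (r : ℝ)) (L := (2 : ℝ) ^ s) (K := (K : ℝ)) hhR
      (Nat.cast_nonneg _) hrr (by positivity) hKR h1R
    have hG1 := hG s r
    have hcast : ((2 ^ s + r : ℕ) : ℝ) = (2 : ℝ) ^ s + r := by push_cast; rfl
    rw [hcast] at hG1
    have hG2 : Real.exp (-(K : ℝ) ^ 2) ≤ rDet (4 * (2 ^ s + r)) ^ h := by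
      refine le_trans ?_ (pow_le_pow_left₀ (Real.exp_pos _).le hG1 h)
      rw [← Real.exp_nat_mul]
      apply Real.exp_le_exp.2
      have : (h : ℝ) * -(3 * ((2 : ℝ) ^ s + r) * (r : ℝ) ^ 2 / ((2 : ℝ) ^ s) ^ 2) =
          -((h : ℝ) * (3 * ((2 : ℝ) ^ s + r) * (r : ℝ) ^ 2 / ((2 : ℝ) ^ s) ^ 2)) := by ring
      rw [this]
      exact neg_le_neg hnum
    have hq0 : 0 < 4 * (2 ^ s + r) := by positivity
    have hG3 := hG2.trans (hT (4 * (2 ^ s + r)) h hq0 hpos hh)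
    have hG4 : (1 / 5 : ℝ) ^ (K ^ 2) ≤ Real.exp (-(K : ℝ) ^ 2) := by
      have h6 : (1 / 5 : ℝ) ≤ Real.exp (-1) := by
        rw [Real.exp_neg, ← one_div]
        apply one_div_le_one_div_of_le (Real.exp_pos _)
        have := Real.exp_one_lt_d9
        linarith
      have h7 := pow_le_pow_left₀ h5 h6 (K ^ 2)
      refine h7.trans (le_of_eq ?_)
      rw [← Real.exp_nat_mul]
      congr 1
      push_cast
      ring
    have hG5 := rDet_add_ge (a := 4 * (2 ^ s + r) * h) (by positivity) ρ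
    rw [← hnq] at hG5
    refine le_trans ?_ hG5
    have h8 : (1 / 5 : ℝ) ^ (K ^ 2) * (1 / 5 : ℝ) ^ ρ ≤ rDet (4 * (2 ^ s + r) * h) * (1 / 5 : ℝ) ^ ρ :=
      mul_le_mul_of_nonneg_right (hG4.trans hG3) (by positivity)
    refine le_trans ?_ h8
    rw [← pow_add]
    apply pow_le_pow_of_le_one h5 h51
    have h9 : 1 * h ≤ K ^ 2 * h := Nat.mul_le_mul_right _ (by nlinarith)
    have h10 : K ^ 2 * 1 ≤ K ^ 2 * h := Nat.mul_le_mul_left _ hpos
    have h11 : 8 * K ^ 2 * h = 8 * (K ^ 2 * h) := by ring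
    omega

end HadLI
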