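import Pool.Agent.Lib_MP_008adc_oct.OFin
import Pool.Agent.Lib_MP_008adc_li.GolAv

/-!
# Structures of length `2 ^ (e + C ^ j + 1) m` for `m < tow j`
-/

set_option autoImplicit false

namespace HadCalc

theorem av_star' : ∃ C : ℕ, 1 ≤ C ∧ ∀ j m : ℕ, 0 < m → m < tow j → ∀ e : ℕ,
    Av (C ^ j) (C ^ j) (2 ^ (e + C ^ j + 1) * m) := by
  obtain ⟨D, H⟩ := Cov.giantU repZ_final
  obtain ⟨M, hM2, hM⟩ := star_iter (D + 2) 29 (by omega) (fun e f c h =>
    H e f c (h.monoS (Nat.mul_le_mul_right _ (by omega)) le_rfl))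
  refine ⟨8 * M, by omega, fun j m hm0 hm e => ?_⟩
  cases j with
  | zero =>
    have : tow 0 = 1 := rfl
    omega
  | succ j =>
    obtain ⟨c, hc, hcov⟩ := hM j
    have h1 : tow j ≤ 3 * (D + 2) * (D + 2 + 40) * (j + 1) ^ 2 * tow j :=
      Nat.le_mul_of_pos_left _ (by positivity)
    obtain ⟨F, hF⟩ : ∃ F, F = (8 * M) ^ (j + 1) := ⟨_, rfl⟩
    rw [← hF]
    have h2 : j + 1 ≤ 2 ^ (j + 1) := Nat.lt_two_pow_self.le
    have h3 : 2 ^ (j + 1) ≤ M ^ (j + 1) := Nat.pow_le_pow_left (by omega) _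
    have h4 : 8 ^ 1 ≤ 8 ^ (j + 1) := Nat.pow_le_pow_right (by norm_num) (by omega)
    have h5 : 8 ^ 1 * M ^ (j + 1) ≤ F := by
      rw [hF, mul_pow]
      exact Nat.mul_le_mul_right _ h4
    have hA1 : Av F F (2 * m) :=
      ((hcov.monoS h1 le_rfl) m hm).mono (by omega) (by omega)
    have hA2 : Av F F (2 ^ e) := (av_two_pow e).mono (by omega) (by omega)
    have h6 := hA2.mul hA1
    have h7 : 2 ^ F * 2 ^ e * (2 * m) = 2 ^ (e + F + 1) * m := by
      rw [pow_succ, pow_add]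
      ring
    rw [h7] at h6
    exact h6

end HadCalc
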