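import Pool.Agent.Lib_MP_008adc_li.SAsym
import Pool.Agent.Lib_MP_008adc_li.BStar
import Pool.Agent.Lib_MP_008adc_li.StarAvB

/-!
# Sums of at most `B` powers of two: final forms
-/

set_option autoImplicit false

namespace HadCalc

/-- The lower bound near a sum of at most `B` powers of two. -/
theorem bits_star : ∃ C : ℕ, 1 ≤ C ∧ ∀ (B K : ℕ) (l : List ℕ) (N n : ℕ), l.length ≤ B → 0 < K → 0 < n →
    N = (l.map (fun e => 2 ^ e)).sum → N ≤ n → (n - N) ^ 2 ≤ K * N →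
    (1 / 5 : ℝ) ^ (K ^ 2 * 2 ^ (C * B)) ≤ rDet n := by
  obtain ⟨C, hC, H⟩ := sums_star' av_star'
  refine ⟨C, hC, fun B K l N n hB hK hn hN h1 h2 => ?_⟩
  have h3 : ((l.map (fun e => ((e, 1) : ℕ × ℕ))).map (fun x => 2 ^ x.1 * x.2)).sum = N := by
    rw [hN, List.map_map]
    congr 1
    refine List.map_congr_left fun e _ => ?_
    simp only [Function.comp, mul_one]
  have h4 := H 1 B (l.map (fun e => ((e, 1) : ℕ × ℕ))) (by rw [List.length_map]; exact hB)
    (fun x hx => by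
      obtain ⟨e, -, rfl⟩ := List.mem_map.1 hx
      have h5 : tow 1 = 2 := rfl
      rw [h5]
      exact ⟨Nat.one_pos, Nat.one_lt_two⟩) K n hK hn (by rw [h3]; exact h1) (by rw [h3]; exact h2)
  rw [pow_one, mul_comm B C] at h4
  exact h4

/-- The asymptotic form near a sum of at most `B` powers of two. -/
theorem bits_asym (B : ℕ) (l : List ℕ) (N d : ℕ) (hB : l.length ≤ B)
    (hN : N = (l.map (fun e => 2 ^ e)).sum) (hN0 : 0 < N)
    (hl : ∀ e ∈ l, 3 * B + 13 ≤ e) (hd : 2 ^ (3 * B + 12) ∣ d) :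
    Real.exp (-(3 / 4 * ((N + d : ℕ) : ℝ) * (d : ℝ) ^ 2 / (N : ℝ) ^ 2)) ≤ rDet (N + d) := by
  obtain ⟨r, hr⟩ := hd
  obtain ⟨S, hS⟩ : ∃ S, S = (l.map (fun e => 2 ^ (e - (3 * B + 13)))).sum := ⟨_, rfl⟩
  have ha : N = 2 ^ (3 * B + 13) * S := by
    rw [hS, hN]
    exact sum_high l (3 * B + 13) hl
  have hS0 : 0 < S := by
    rcases Nat.eq_zero_or_pos S with h0 | h0
    · rw [h0, mul_zero] at ha
      omega
    · exact h0
  have hA : Av 2 (3 * B) (2 * S) := by
    have h1 := av_high av_two_pow (l.map (fun e => e - (3 * B + 13)))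
    rw [List.map_map, List.length_map] at h1
    have h2 : ((l.map ((fun e => 2 ^ e) ∘ fun e => e - (3 * B + 13))).sum) = S := by
      rw [hS]
      rfl
    rw [h2] at h1
    exact h1.mono le_rfl (Nat.mul_le_mul_left 3 hB)
  have h3 := rDet_av_asym (E := 3 * B + 11) (d := d) (r := r) (by omega : 0 < 2 * S) hA (by ring)
    (by rw [hr])
  have h4 : 2 ^ (3 * B + 11 + 1) * (2 * S) = N := by
    rw [ha, show 3 * B + 13 = (3 * B + 11 + 1) + 1 by ring, pow_succ 2 (3 * B + 11 + 1)]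
    ring
  rw [h4] at h3
  exact h3

end HadCalc
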