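import Pool.Agent.Lib_MP_008adc_li.GarbageAv
import Pool.Agent.Lib_MP_008adc_li.DetExp

/-!
# `det (L + C Cᵀ)` for the garbage sequence
-/

set_option autoImplicit false

namespace Pool.Agent.MaxDetLI

open Matrix Finset

theorem sum_tail {q r : ℕ} [NeZero q] (hr : r ≤ q) {c : ZMod q → ℝ}
    (hc0 : ∀ x : ZMod q, x.val < q - r → c x = 0)
    (hc1 : ∀ x : ZMod q, q - r ≤ x.val → c x = 1 ∨ c x = -1) : ∑ x, c x * c x = r := by
  have h1 : ∀ x : ZMod q, c x * c x = if q - r ≤ x.val then 1 else 0 := by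
    intro x
    split_ifs with h
    · rcases hc1 x h with h2 | h2 <;> rw [h2] <;> norm_num
    · rw [hc0 x (by omega), mul_zero]
  rw [Finset.sum_congr rfl fun x _ => h1 x, Finset.sum_boole]
  have h2 : (univ.filter fun x : ZMod q => q - r ≤ x.val).card = (Finset.Ico (q - r) q).card := by
    apply Finset.card_nbij ZMod.val
    · intro x hx
      rw [Finset.mem_coe, Finset.mem_filter] at hx
      rw [Finset.mem_coe, Finset.mem_Ico]
      exact ⟨hx.2, ZMod.val_lt x⟩
    · intro x _ y _ h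
      exact ZMod.val_injective q h
    · intro i hi
      rw [Finset.mem_coe, Finset.mem_Ico] at hi
      refine ⟨(i : ZMod q), ?_, ZMod.val_natCast_of_lt hi.2⟩
      rw [Finset.mem_coe, Finset.mem_filter, ZMod.val_natCast_of_lt hi.2]
      exact ⟨Finset.mem_univ _, hi.1⟩
  rw [h2, Nat.card_Ico]
  congr 1
  omega

theorem trace_circ {q : ℕ} [NeZero q] (v : ZMod q → ℝ) :
    (circulant v * (circulant v)ᵀ).trace = q * ∑ x, v x * v x := by
  unfold Matrix.trace
  have h : ∀ i : ZMod q, (circulant v * (circulant v)ᵀ).diag i = ∑ x, v x * v x := by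
    intro i
    rw [Matrix.diag_apply, circ_mul_transpose, sub_self]
    unfold pac
    simp only [add_zero]
  rw [Finset.sum_congr rfl fun i _ => h i, Finset.sum_const, Finset.card_univ, ZMod.card,
    nsmul_eq_mul]

theorem det_garbage_ge (q L r : ℕ) [NeZero q] (hq : q = L + r) (hL : 0 < L) :
    ∃ c : ZMod q → ℝ, (∀ x, x.val < L → c x = 0) ∧ (∀ x, L ≤ x.val → c x = 1 ∨ c x = -1) ∧
      (q : ℝ) ^ q * Real.exp (-(3 / 2 * q * r ^ 2 / L ^ 2)) ≤
        ((L : ℝ) • (1 : Matrix (ZMod q) (ZMod q) ℝ) + circulant c * (circulant c)ᵀ).det := by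
  have hrq : r ≤ q := by omega
  obtain ⟨c, hc0, hc1, htr⟩ := garbage q r hrq
  have hqr : q - r = L := by omega
  have hsum := sum_tail hrq hc0 hc1
  rw [hqr] at hc0 hc1
  refine ⟨c, hc0, hc1, ?_⟩
  have hL' : (0 : ℝ) < L := by exact_mod_cast hL
  set C := circulant c * (circulant c)ᵀ with hC
  have hCpsd : C.PosSemidef := by
    have := Matrix.posSemidef_self_mul_conjTranspose (circulant c)
    rwa [Matrix.conjTranspose_eq_transpose_of_trivial] at this
  set X := (1 / (L : ℝ)) • C with hX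
  have hXpsd : X.PosSemidef := hCpsd.smul (by positivity)
  have hdet : ((L : ℝ) • (1 : Matrix (ZMod q) (ZMod q) ℝ) + C).det =
      (L : ℝ) ^ q * (1 + X).det := by
    have e : (L : ℝ) • (1 : Matrix (ZMod q) (ZMod q) ℝ) + C = (L : ℝ) • (1 + X) := by
      rw [smul_add, hX, smul_smul]
      congr 1
      rw [mul_one_div_cancel hL'.ne', one_smul]
    rw [e, Matrix.det_smul, ZMod.card]
  have hXtr : X.trace = q * r / L := by
    rw [hX, Matrix.trace_smul, hC, trace_circ, hsum, smul_eq_mul]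
    ring
  have hX2 : (X * X).trace ≤ 3 * q * r ^ 2 / L ^ 2 := by
    have e : (X * X).trace = (C * C).trace / L ^ 2 := by
      rw [hX, Matrix.smul_mul, Matrix.mul_smul, Matrix.trace_smul, Matrix.trace_smul,
        smul_eq_mul, smul_eq_mul]
      field_simp
    rw [e]
    exact div_le_div_of_nonneg_right htr (by positivity)
  have h1 := det_one_add_ge X hXpsd
  rw [hdet]
  have hqL : (q : ℝ) = L * (1 + r / L) := by
    rw [hq]; push_cast; field_simp
  have hexp : (1 + (r : ℝ) / L) ^ q ≤ Real.exp (q * r / L) := by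
    have h2 : 1 + (r : ℝ) / L ≤ Real.exp (r / L) := by
      have := Real.add_one_le_exp ((r : ℝ) / L)
      linarith
    calc (1 + (r : ℝ) / L) ^ q ≤ Real.exp (r / L) ^ q :=
          pow_le_pow_left₀ (by positivity) h2 q
      _ = Real.exp (q * r / L) := by
          rw [← Real.exp_nat_mul]
          congr 1
          ring
  calc (q : ℝ) ^ q * Real.exp (-(3 / 2 * q * r ^ 2 / L ^ 2))
      = (L : ℝ) ^ q * ((1 + (r : ℝ) / L) ^ q * Real.exp (-(3 / 2 * q * r ^ 2 / L ^ 2))) := by
        rw [← mul_assoc, ← mul_pow, ← hqL]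
    _ ≤ (L : ℝ) ^ q * (Real.exp (q * r / L) * Real.exp (-(3 / 2 * q * r ^ 2 / L ^ 2))) := by
        gcongr
    _ ≤ (L : ℝ) ^ q * (1 + X).det := by
        apply mul_le_mul_of_nonneg_left _ (by positivity)
        rw [← Real.exp_add]
        refine le_trans (Real.exp_le_exp.2 ?_) h1
        rw [hXtr]
        have : 3 / 2 * (q : ℝ) * r ^ 2 / L ^ 2 = (3 * q * r ^ 2 / L ^ 2) / 2 := by ring
        rw [this]
        linarith

end Pool.Agent.MaxDetLI
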