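import Pool.Agent.Lib_MP_008adc_li.BMain
import Pool.Agent.Lib_MP_008adc_oct.OStarK

/-!
# The asymptotic form near a sum of boundedly many numbers `2 ^ a m`, `m < tow j`
-/

set_option autoImplicit false

namespace HadCalc

/-- The numerical form of `rDet_av`. -/
theorem rDet_av_asym {f c L E d r : ℕ} (hL : 0 < L) (hA : Av f c L) (hE : E = c + 3 * f + 5)
    (hd : d = 2 ^ (E + 1) * r) :
    Real.exp (-(3 / 4 * ((2 ^ (E + 1) * L + d : ℕ) : ℝ) * (d : ℝ) ^ 2 /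
      ((2 ^ (E + 1) * L : ℕ) : ℝ) ^ 2)) ≤ rDet (2 ^ (E + 1) * L + d) := by
  have h3 := rDet_av f c L r hL hA
  rw [← hE] at h3
  have h4 : 2 ^ E * (2 * (L + r)) = 2 ^ (E + 1) * L + d := by
    rw [hd, pow_succ]
    ring
  rw [h4] at h3
  refine le_trans (le_of_eq ?_) h3
  congr 1
  rw [neg_inj]
  have hLR : (0 : ℝ) < L := by exact_mod_cast hL
  have h5 : ((2 ^ (E + 1) * L + d : ℕ) : ℝ) = 2 ^ E * ((2 * (L + r) : ℕ) : ℝ) := by
    rw [← h4]
    push_cast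
    ring
  have h7 : (d : ℝ) = 2 ^ (E + 1) * (r : ℝ) := by
    rw [hd]
    push_cast
    ring
  have h6 : ((2 ^ (E + 1) * L : ℕ) : ℝ) = 2 ^ (E + 1) * (L : ℝ) := by
    push_cast
    ring
  rw [h5, h6, h7]
  have h8 : (0 : ℝ) < 2 ^ (E + 1) := by positivity
  have h9 : (2 ^ (E + 1) * (r : ℝ)) ^ 2 / (2 ^ (E + 1) * (L : ℝ)) ^ 2 = (r : ℝ) ^ 2 / (L : ℝ) ^ 2 := by
    rw [mul_pow, mul_pow, mul_div_mul_left _ _ (by positivity)]
  rw [mul_div_assoc, h9]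
  ring

theorem sums_asym (hS : ∃ C : ℕ, 1 ≤ C ∧ ∀ j m : ℕ, 0 < m → m < tow j → ∀ e : ℕ,
      Av (C ^ j) (C ^ j) (2 ^ (e + C ^ j + 1) * m)) :
    ∃ C : ℕ, 1 ≤ C ∧ ∀ (j B : ℕ) (l : List (ℕ × ℕ)) (d : ℕ), l.length ≤ B → l ≠ [] →
      (∀ x ∈ l, 0 < x.2 ∧ x.2 < tow j) → (∀ x ∈ l, B * C ^ j ≤ x.1) → 2 ^ (B * C ^ j) ∣ d →
      Real.exp (-(3 / 4 * (((l.map (fun x => 2 ^ x.1 * x.2)).sum + d : ℕ) : ℝ) * (d : ℝ) ^ 2 /
        (((l.map (fun x => 2 ^ x.1 * x.2)).sum : ℕ) : ℝ) ^ 2)) ≤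
        rDet ((l.map (fun x => 2 ^ x.1 * x.2)).sum + d) := by
  obtain ⟨C, hC, H⟩ := hS
  refine ⟨19 * C, by omega, fun j B l d hB hl0 hl hlB hd => ?_⟩
  -- `j ≥ 1`, `B ≥ 1`
  obtain ⟨x₀, hx₀⟩ : ∃ x, x ∈ l := List.exists_mem_of_ne_nil l hl0
  have hj : 1 ≤ j := by
    rcases Nat.eq_zero_or_pos j with h0 | h0
    · have h1 := hl x₀ hx₀
      rw [h0] at h1
      have h2 : tow 0 = 1 := rfl
      omega
    · exact h0
  have hB1 : 1 ≤ B := by
    have : 0 < l.length := List.length_pos_of_mem hx₀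
    omega
  obtain ⟨F, hF⟩ : ∃ F, F = C ^ j := ⟨_, rfl⟩
  have hF1 : 1 ≤ F := by
    rw [hF]
    exact Nat.one_le_pow _ _ (by omega)
  have hCF : 19 * F ≤ (19 * C) ^ j := by
    rw [mul_pow, hF]
    refine Nat.mul_le_mul_right _ ?_
    calc 19 = 19 ^ 1 := (pow_one 19).symm
      _ ≤ 19 ^ j := Nat.pow_le_pow_right (by norm_num) hj
  replace H := H j
  rw [← hF] at H
  obtain ⟨E, hE⟩ : ∃ E, E = B * (2 * F + 2) + 3 * (F + 1) + 5 := ⟨_, rfl⟩
  have hET : E + F + 3 ≤ B * (19 * C) ^ j := by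
    have h1 : B * (19 * F) ≤ B * (19 * C) ^ j := Nat.mul_le_mul_left B hCF
    have h2 : F ≤ B * F := Nat.le_mul_of_pos_left F hB1
    have h3 : B * (19 * F) = 19 * (B * F) := by ring
    have h4 : B * (2 * F + 2) = 2 * (B * F) + 2 * B := by ring
    have h5 : B ≤ B * F := Nat.le_mul_of_pos_right B hF1
    rw [h4] at hE
    omega
  obtain ⟨S, hS⟩ : ∃ S, S = (l.map (fun x => 2 ^ (x.1 - (E + F + 3) + F + 1) * x.2)).sum := ⟨_, rfl⟩
  have hN : (l.map (fun x => 2 ^ x.1 * x.2)).sum = 2 ^ (E + 2) * S := by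
    rw [hS, ← List.sum_map_mul_left]
    congr 1
    refine List.map_congr_left fun x hx => ?_
    have h1 := hlB x hx
    rw [← mul_assoc, ← pow_add]
    congr 2
    omega
  have hS0 : 0 < S := by
    rw [hS]
    refine lt_of_lt_of_le ?_ (List.le_sum_of_mem (List.mem_map_of_mem hx₀))
    have := (hl x₀ hx₀).1
    positivity
  have hA : Av (F + 1) (B * (2 * F + 2)) (2 * S) := by
    have h1 := Av.sum_list (f := F) (l.map (fun x => (F, 2 ^ (x.1 - (E + F + 3) + F + 1) * x.2))) (by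
      intro y hy
      obtain ⟨x, hx, rfl⟩ := List.mem_map.1 hy
      exact H x.2 (hl x hx).1 (hl x hx).2 (x.1 - (E + F + 3)))
    rw [List.map_map, List.map_map] at h1
    have h2 : (l.map (Prod.snd ∘ fun x => (F, 2 ^ (x.1 - (E + F + 3) + F + 1) * x.2))).sum = S := by
      rw [hS]
      rfl
    have h3 : (l.map ((fun x : ℕ × ℕ => x.1 + F + 2) ∘
        fun x => (F, 2 ^ (x.1 - (E + F + 3) + F + 1) * x.2))).sum = l.length * (2 * F + 2) := by
      have h4 : l.map ((fun x : ℕ × ℕ => x.1 + F + 2) ∘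
          fun x => (F, 2 ^ (x.1 - (E + F + 3) + F + 1) * x.2)) = l.map (fun _ => 2 * F + 2) := by
        refine List.map_congr_left fun x _ => ?_
        simp only [Function.comp]
        ring
      rw [h4, List.map_const', List.sum_replicate, smul_eq_mul]
    rw [h2, h3] at h1
    exact h1.mono le_rfl (Nat.mul_le_mul_right _ hB)
  obtain ⟨r, hr⟩ : 2 ^ (E + 1) ∣ d :=
    (pow_dvd_pow 2 (by omega : E + 1 ≤ B * (19 * C) ^ j)).trans hd
  have h5 := rDet_av_asym (E := E) (d := d) (r := r) (by omega : 0 < 2 * S) hA hE hr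
  have h6 : 2 ^ (E + 1) * (2 * S) = (l.map (fun x => 2 ^ x.1 * x.2)).sum := by
    rw [hN, pow_succ 2 (E + 1)]
    ring
  rw [h6] at h5
  exact h5

end HadCalc
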