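import Pool.Agent.Lib_MP_008adc_oct.OStar
import Pool.Agent.Lib_MP_008adc_oct.DetK

/-!
# Lengths with few zeros for long intervals (log star form), from a step
-/

set_option autoImplicit false

namespace HadCalc

theorem av_star_pre (D K : ℕ)
    (H : ∀ e f c : ℕ, Cov (D * ((f + 1) * (e + 8))) f c →
      Cov (2 ^ e) (f + 2) (K * (c + 3 * f + 7))) :
    ∃ C : ℕ, 1 ≤ C ∧ ∀ j m : ℕ, 0 < m → m < tow j → ∃ f c : ℕ, 1 ≤ f ∧
      2 * (c + 3 * f + 5) + 7 ≤ C ^ j ∧ ∀ q < 2 ^ f * m, Av f c (2 * q) := by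
  obtain ⟨M, hM2, hM⟩ := star_iter (D + 2) K (by omega) (fun e f c h =>
    H e f c (h.monoS (Nat.mul_le_mul_right _ (by omega)) le_rfl))
  refine ⟨32 * M, by omega, fun j m hm0 hm => ?_⟩
  cases j with
  | zero =>
    have : tow 0 = 1 := rfl
    omega
  | succ j =>
    obtain ⟨c, hc, hcov⟩ := hM j
    refine ⟨2 * j + 2, c, by omega, ?_, fun q hq => ?_⟩
    · have h2 : j + 1 ≤ 2 ^ (j + 1) := Nat.lt_two_pow_self.le
      have h3 : 2 ^ (j + 1) ≤ M ^ (j + 1) := Nat.pow_le_pow_left (by omega) _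
      have h4 : 32 ^ 1 ≤ 32 ^ (j + 1) := Nat.pow_le_pow_right (by norm_num) (by omega)
      rw [mul_pow]
      calc 2 * (c + 3 * (2 * j + 2) + 5) + 7 ≤ 32 ^ 1 * M ^ (j + 1) := by omega
        _ ≤ 32 ^ (j + 1) * M ^ (j + 1) := Nat.mul_le_mul_right _ h4
    · refine hcov q (lt_of_lt_of_le hq ?_)
      have h1 : m ≤ 2 ^ tow j := by
        rw [tow_succ] at hm
        exact hm.le
      have h5 : 1 ≤ tow j := one_le_tow j
      have h6 : (2 * j + 2) + tow j ≤ 3 * (D + 2) * (D + 2 + 40) * (j + 1) ^ 2 * tow j := by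
        have h7 : (j + 1) * 1 ≤ (j + 1) * tow j := Nat.mul_le_mul_left _ h5
        have h8 : 1 * tow j ≤ (j + 1) * tow j := Nat.mul_le_mul_right _ (by omega)
        have h9 : 3 * ((j + 1) * tow j) ≤ 3 * (D + 2) * (D + 2 + 40) * (j + 1) ^ 2 * tow j := by
          have e1 : 3 * (D + 2) * (D + 2 + 40) * (j + 1) ^ 2 * tow j
              = 3 * ((j + 1) * tow j) * ((D + 2) * (D + 2 + 40) * (j + 1)) := by ring
          rw [e1]
          exact Nat.le_mul_of_pos_right _ (by positivity)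
        omega
      calc 2 ^ (2 * j + 2) * m ≤ 2 ^ (2 * j + 2) * 2 ^ tow j := Nat.mul_le_mul_left _ h1
        _ = 2 ^ ((2 * j + 2) + tow j) := (pow_add _ _ _).symm
        _ ≤ _ := Nat.pow_le_pow_right (by norm_num) h6

theorem av_shift (hG : ∀ e, Av 1 0 (2 ^ e)) {f c m : ℕ} (hf : 1 ≤ f) (h : Av f c (2 * m)) (e : ℕ) :
    Av f c (2 ^ (e + f + 1) * m) := by
  have h1 : Av f c (2 ^ e) := (hG e).mono hf (Nat.zero_le _)
  have h2 := h1.mul h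
  have h3 : 2 ^ f * 2 ^ e * (2 * m) = 2 ^ (e + f + 1) * m := by
    rw [pow_succ, pow_add]
    ring
  rwa [h3] at h2

theorem av_star_of (D K : ℕ)
    (H : ∀ e f c : ℕ, Cov (D * ((f + 1) * (e + 8))) f c →
      Cov (2 ^ e) (f + 2) (K * (c + 3 * f + 7))) (hG : ∀ e, Av 1 0 (2 ^ e)) :
    ∃ C : ℕ, 1 ≤ C ∧ ∀ j m : ℕ, 0 < m → m < tow j → ∃ f c : ℕ, 1 ≤ f ∧ c + 3 * f + 5 ≤ C ^ j ∧
      ∀ e : ℕ, Av f c (2 ^ (e + f + 1) * m) := by
  obtain ⟨C, hC, h⟩ := av_star_pre D K H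
  refine ⟨C, hC, fun j m hm0 hm => ?_⟩
  obtain ⟨f, c, hf, hfc, hq⟩ := h j m hm0 hm
  refine ⟨f, c, hf, by omega, fun e => av_shift hG hf (hq m ?_) e⟩
  have h2 : 2 ^ 1 ≤ 2 ^ f := Nat.pow_le_pow_right (by norm_num) hf
  nlinarith

/-- The arithmetic of the case of a small power of two. -/
theorem li_arith (K D q N n : ℕ) (hq : 1 ≤ q) (hD : 1 ≤ D) (hN : q = N / (4 * D)) (hn : N ≤ n)
    (h : (n - N) ^ 2 ≤ K * N) :
    4 * D * q ≤ n ∧ (n - 4 * D * q) ^ 2 ≤ (4 * K + 8 * D) * (4 * D * q) := by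
  have h1 : 4 * D * q ≤ N := by
    rw [hN]
    exact Nat.mul_div_le _ _
  have h2 : N < 4 * D * q + 4 * D := by
    have h3 := Nat.lt_mul_div_succ N (by omega : 0 < 4 * D)
    rw [← hN] at h3
    nlinarith
  have h4 : 4 * D ≤ 4 * D * q := Nat.le_mul_of_pos_right _ (by omega)
  refine ⟨h1.trans hn, ?_⟩
  obtain ⟨d, hd⟩ : ∃ d, n = N + d := ⟨n - N, by omega⟩
  obtain ⟨r, hr⟩ : ∃ r, N = 4 * D * q + r := ⟨N - 4 * D * q, by omega⟩
  obtain ⟨Y, hY⟩ : ∃ Y, Y = 4 * D * q := ⟨_, rfl⟩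
  rw [← hY] at h1 h2 h4 hr ⊢
  have e1 : n - N = d := by omega
  have e2 : n - Y = d + r := by omega
  rw [e1] at h
  rw [e2]
  have h5 : r ≤ 4 * D := by omega
  have h6 : N ≤ 2 * Y := by omega
  have h7 : (d + r) ^ 2 ≤ 2 * d ^ 2 + 2 * r ^ 2 := by
    zify
    nlinarith [sq_nonneg ((d : ℤ) - r)]
  have h8 : K * N ≤ K * (2 * Y) := Nat.mul_le_mul_left _ h6
  have h9 : r ^ 2 ≤ 4 * D * (4 * D) := by
    rw [pow_two]
    exact Nat.mul_le_mul h5 h5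
  have h10 : 4 * D * (4 * D) ≤ 4 * D * Y := Nat.mul_le_mul_left _ h4
  nlinarith

theorem li_star_of
    (hli : ∀ f c L K n : ℕ, 0 < L → 0 < K → Av f c L →
      2 * 2 ^ (c + 3 * f + 5) * L ≤ n →
      (n - 2 * 2 ^ (c + 3 * f + 5) * L) ^ 2 ≤ K * (2 * 2 ^ (c + 3 * f + 5) * L) →
      (1 / 5 : ℝ) ^ (K ^ 2 + 2 * 2 ^ (c + 3 * f + 5)) ≤ rDet n)
    (hG : ∀ e, Av 1 0 (2 ^ e)) (D₀ K₀ : ℕ)
    (H : ∀ e f c : ℕ, Cov (D₀ * ((f + 1) * (e + 8))) f c →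
      Cov (2 ^ e) (f + 2) (K₀ * (c + 3 * f + 7))) :
    ∃ C : ℕ, 1 ≤ C ∧ ∀ j m : ℕ, 0 < m → m < tow j → ∀ K k n : ℕ, 0 < K → 2 ^ k * m ≤ n →
      (n - 2 ^ k * m) ^ 2 ≤ K * (2 ^ k * m) →
      (1 / 5 : ℝ) ^ ((K + 1) ^ 2 * 2 ^ C ^ j) ≤ rDet n := by
  obtain ⟨C, hC, h⟩ := av_star_pre D₀ K₀ H
  refine ⟨C, hC, fun j m hm0 hm K k n hK hn hd => ?_⟩
  obtain ⟨f, c, hf, hfc, hq⟩ := h j m hm0 hm
  obtain ⟨p, hp⟩ : ∃ p, p = c + 3 * f + 5 := ⟨_, rfl⟩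
  obtain ⟨D, hD⟩ : ∃ D, D = 2 ^ p := ⟨_, rfl⟩
  obtain ⟨X, hX⟩ : ∃ X, X = 2 ^ C ^ j := ⟨_, rfl⟩
  have hD1 : 1 ≤ D := by
    rw [hD]
    exact Nat.one_le_two_pow
  have hXD : 128 * D ^ 2 ≤ X := by
    rw [hX, hD]
    have h1 : 128 * (2 ^ p) ^ 2 = 2 ^ (2 * p + 7) := by
      rw [pow_add, ← pow_mul, mul_comm p 2]
      ring
    rw [h1]
    exact Nat.pow_le_pow_right (by norm_num) (by omega)
  rw [← hX]
  have hfin : ∀ s : ℕ, s ≤ (K + 1) ^ 2 * X → (1 / 5 : ℝ) ^ s ≤ rDet n →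
      (1 / 5 : ℝ) ^ ((K + 1) ^ 2 * X) ≤ rDet n := fun s hs h1 =>
    (pow_le_pow_of_le_one (by norm_num) (by norm_num) hs).trans h1
  have hli' := hli f c
  rw [← hp, ← hD] at hli'
  have hDD : D ≤ D ^ 2 := by nlinarith
  by_cases hk : p + f + 2 ≤ k
  · obtain ⟨e, he⟩ : ∃ e, k = e + (p + f + 2) := ⟨k - (p + f + 2), by omega⟩
    have hm' : m < 2 ^ f * m := by
      have h2 : 2 ^ 1 ≤ 2 ^ f := Nat.pow_le_pow_right (by norm_num) hf
      nlinarith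
    have hav := av_shift hG hf (hq m hm') e
    have e1 : 2 * D * (2 ^ (e + f + 1) * m) = 2 ^ k * m := by
      rw [hD, he]
      have e2 : e + (p + f + 2) = 1 + p + (e + f + 1) := by ring
      rw [e2, pow_add, pow_add, pow_one]
      ring
    have h1 := hli' (2 ^ (e + f + 1) * m) K n (by positivity) hK hav
    rw [e1] at h1
    refine hfin _ ?_ (h1 hn hd)
    have h3 : 1 ≤ X := by nlinarith
    have h4 : K ^ 2 * 1 ≤ K ^ 2 * X := Nat.mul_le_mul_left _ h3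
    nlinarith
  · obtain ⟨q, hq'⟩ : ∃ q, q = 2 ^ k * m / (4 * D) := ⟨_, rfl⟩
    obtain ⟨N, hN⟩ : ∃ N, N = 2 ^ k * m := ⟨_, rfl⟩
    have hN1 : 1 ≤ N := by
      rw [hN]
      exact Nat.mul_pos (Nat.two_pow_pos k) hm0
    rw [← hN] at hn hd hq'
    have hNlt : N < 4 * D * (2 ^ f * m) := by
      have e1 : 4 * D * (2 ^ f * m) = 2 ^ (p + f + 2) * m := by
        rw [hD, pow_add, pow_add]
        ring
      rw [e1, hN]
      exact Nat.mul_lt_mul_of_pos_right (Nat.pow_lt_pow_right (by norm_num) (by omega)) hm0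
    rcases Nat.eq_zero_or_pos q with h0 | h0
    · have h1 : N < 4 * D := by
        rw [hq'] at h0
        rcases Nat.div_eq_zero_iff.1 h0 with h2 | h2
        · omega
        · exact h2
      have h2 : n - N ≤ (n - N) ^ 2 := by
        rw [pow_two]
        exact Nat.le_mul_self _
      have h3 : K * N ≤ K * (4 * D) := Nat.mul_le_mul_left _ h1.le
      have h4 : n ≤ 4 * D + K * (4 * D) := by omega
      have h5 : (1 / 5 : ℝ) ^ (n - 1) ≤ rDet n :=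
        rDet_lower5 (m := 1) Nat.one_pos (hN1.trans hn) HadOrder.one
      refine hfin _ ?_ h5
      have h6 : 4 * D + K * (4 * D) ≤ (K + 1) ^ 2 * X := by
        have h7 : 4 * D ≤ X := by omega
        calc 4 * D + K * (4 * D) = (K + 1) * (4 * D) := by ring
          _ ≤ (K + 1) ^ 2 * X := Nat.mul_le_mul (by nlinarith) h7
      omega
    · have hqlt : q < 2 ^ f * m := by
        rw [hq']
        exact Nat.div_lt_of_lt_mul hNlt
      obtain ⟨h1, h2⟩ := li_arith K D q N n h0 hD1 hq' hn hd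
      have e1 : 2 * D * (2 * q) = 4 * D * q := by ring
      have h3 := hli' (2 * q) (4 * K + 8 * D) n (by omega) (by omega) (hq q hqlt)
      rw [e1] at h3
      refine hfin _ ?_ (h3 h1 h2)
      have h4 : (4 * K + 8 * D) ^ 2 + 2 * D ≤ (K + 1) ^ 2 * (128 * D ^ 2) := by
        have e2 : (K + 1) ^ 2 * (128 * D ^ 2) = 128 * (K ^ 2 * D ^ 2) + 256 * (K * D ^ 2) + 128 * D ^ 2 := by
          ring
        have e3 : (4 * K + 8 * D) ^ 2 + 2 * D = 16 * K ^ 2 + 64 * (K * D) + 64 * D ^ 2 + 2 * D := by ring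
        rw [e2, e3]
        have h5 : K * D ≤ K * D ^ 2 := Nat.mul_le_mul_left _ hDD
        have h6 : K ^ 2 * 1 ≤ K ^ 2 * D ^ 2 := Nat.mul_le_mul_left _ (Nat.one_le_pow _ _ hD1)
        omega
      exact h4.trans (Nat.mul_le_mul_left _ hXD)

end HadCalc
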