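import Pool.Agent.Lib_MP_008adc_oct.OFin
import Pool.Agent.Lib_MP_008adc_li.StarAvH

/-!
# Lengths with few zeros and long intervals, log star form
-/

set_option autoImplicit false

namespace HadCalc

/-- Lengths `2 ^ (e + f + 1) m` for all `e`, with `f, c` bounded by `C ^ j` for `m < tow j`. -/
theorem av_star (hG : ∀ e, Av 1 0 (2 ^ e)) : ∃ C : ℕ, 1 ≤ C ∧ ∀ j m : ℕ, 0 < m → m < tow j →
    ∃ f c : ℕ, 1 ≤ f ∧ c + 3 * f + 5 ≤ C ^ j ∧ ∀ e : ℕ, Av f c (2 ^ (e + f + 1) * m) := by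
  obtain ⟨D, hD⟩ := Cov.giantU repZ_final
  exact av_star_of D 29 hD hG

/-- Long intervals after `2 ^ k m`, for ALL `k`. -/
theorem li_star
    (hli : ∀ f c L K n : ℕ, 0 < L → 0 < K → Av f c L →
      2 * 2 ^ (c + 3 * f + 5) * L ≤ n →
      (n - 2 * 2 ^ (c + 3 * f + 5) * L) ^ 2 ≤ K * (2 * 2 ^ (c + 3 * f + 5) * L) →
      (1 / 5 : ℝ) ^ (K ^ 2 + 2 * 2 ^ (c + 3 * f + 5)) ≤ rDet n)
    (hG : ∀ e, Av 1 0 (2 ^ e)) :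
    ∃ C : ℕ, 1 ≤ C ∧ ∀ j m : ℕ, 0 < m → m < tow j → ∀ K k n : ℕ, 0 < K → 2 ^ k * m ≤ n →
      (n - 2 ^ k * m) ^ 2 ≤ K * (2 ^ k * m) →
      (1 / 5 : ℝ) ^ ((K + 1) ^ 2 * 2 ^ C ^ j) ≤ rDet n := by
  obtain ⟨D, hD⟩ := Cov.giantU repZ_final
  exact li_star_of hli hG D 29 hD

end HadCalc
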