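import Pool.Agent.Lib_MP_008adc_co.DetA

/-!
# MP_008adc_co: the tensor product of a maximal sign matrix with a Hadamard matrix
-/

set_option autoImplicit false

namespace HadLI

open Matrix HadCalc
open scoped Kronecker

theorem maxDet_nonneg (n : ℕ) : 0 ≤ maxDet n := by
  obtain ⟨A, -, hA⟩ := exists_maxDet n
  rw [hA]
  exact abs_nonneg _

theorem maxDet_tensor (n h : ℕ) : maxDet n ^ h * maxDet h ^ n ≤ maxDet (n * h) := by
  obtain ⟨A, hA, hA'⟩ := exists_maxDet n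
  obtain ⟨B, hB, hB'⟩ := exists_maxDet h
  have h1 : |((Matrix.reindex finProdFinEquiv finProdFinEquiv) (A ⊗ₖ B)).det| ≤ maxDet (n * h) := by
    refine le_maxDet _ fun i j => ?_
    simp only [Matrix.reindex_apply, Matrix.submatrix_apply, Matrix.kroneckerMap_apply]
    rcases hA (finProdFinEquiv.symm i).1 (finProdFinEquiv.symm j).1 with h1 | h1 <;>
    rcases hB (finProdFinEquiv.symm i).2 (finProdFinEquiv.symm j).2 with h2 | h2 <;>
    rw [h1, h2] <;> norm_num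
  rw [Matrix.det_reindex_self, Matrix.det_kronecker, abs_mul, abs_pow, abs_pow, ← hA', ← hB',
    Fintype.card_fin, Fintype.card_fin] at h1
  exact h1

/-- `r(n) ^ h ≤ r(n h)` if there is a Hadamard matrix of order `h`. -/
theorem rDet_tensor (n h : ℕ) (hn : 0 < n) (hh : 0 < h) (hH : HadOrder h) :
    HadCalc.rDet n ^ h ≤ HadCalc.rDet (n * h) := by
  have hnR : (0 : ℝ) < n := by exact_mod_cast hn
  have hhR : (0 : ℝ) < h := by exact_mod_cast hh
  have h1 := maxDet_tensor n h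
  have h2 := maxDet_of_hadOrder hh hH
  unfold rDet
  rw [div_pow, ← Real.rpow_natCast ((n : ℝ) ^ ((n : ℝ) / 2)) h, ← Real.rpow_mul hnR.le]
  have h3 : ((n * h : ℕ) : ℝ) ^ (((n * h : ℕ) : ℝ) / 2) =
      (n : ℝ) ^ ((n : ℝ) / 2 * h) * ((h : ℝ) ^ ((h : ℝ) / 2)) ^ n := by
    rw [← Real.rpow_natCast ((h : ℝ) ^ ((h : ℝ) / 2)) n, ← Real.rpow_mul hhR.le]
    push_cast
    rw [Real.mul_rpow hnR.le hhR.le]
    congr 1
    · congr 1
      ring
    · congr 1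
      ring
  rw [h3]
  have h4 : (0 : ℝ) < (n : ℝ) ^ ((n : ℝ) / 2 * h) := Real.rpow_pos_of_pos hnR _
  have h5 : (0 : ℝ) < ((h : ℝ) ^ ((h : ℝ) / 2)) ^ n := pow_pos (Real.rpow_pos_of_pos hhR _) _
  rw [div_le_div_iff₀ h4 (mul_pos h4 h5)]
  have h6 : maxDet n ^ h * ((h : ℝ) ^ ((h : ℝ) / 2)) ^ n ≤ maxDet (n * h) := by
    refine le_trans ?_ h1
    exact mul_le_mul_of_nonneg_left (pow_le_pow_left₀ (Real.rpow_nonneg hhR.le _) h2 _)
      (pow_nonneg (maxDet_nonneg n) _)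
  calc maxDet n ^ h * ((n : ℝ) ^ ((n : ℝ) / 2 * h) * ((h : ℝ) ^ ((h : ℝ) / 2)) ^ n)
      = (maxDet n ^ h * ((h : ℝ) ^ ((h : ℝ) / 2)) ^ n) * (n : ℝ) ^ ((n : ℝ) / 2 * h) := by ring
    _ ≤ maxDet (n * h) * (n : ℝ) ^ ((n : ℝ) / 2 * h) := mul_le_mul_of_nonneg_right h6 h4.le

end HadLI
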